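import Pool.Agent.H697.SSE.Spot

/-!
# The algorithm for small-set expansion in graphs without an induced forest
-/

namespace Pool.Agent.H697.SSE

open Pool.Agent.NPC Finset

/-- The vertex `v` is the first entry of a pair in the list. -/
def inX (X : List (ℕ × ℕ)) (v : ℕ) : Bool := X.any fun e => decide (e.1 = v)

/-- The number of edges between two neighbourhoods. -/
def scoreB (E X : List (ℕ × ℕ)) (x z : ℕ) : ℕ :=
  (E.filter fun e => inX X e.1 && (inX X e.2 && (decide ((x, e.1) ∈ E) &&
    decide ((z, e.2) ∈ E)))).length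

/-- The edge is a dense spot. -/
def good (C : ℕ) (I : Inst) (X : List (ℕ × ℕ)) (e : ℕ × ℕ) : Bool :=
  inX X e.1 && (inX X e.2 && decide (dg I ^ 2 ≤ C * scoreB (darts I) X e.1 e.2))

/-- Delete the neighbourhoods of the two ends of an edge. -/
def del (I : Inst) (X : List (ℕ × ℕ)) (c : ℕ × ℕ) : List (ℕ × ℕ) :=
  X.filter fun e => !(decide ((c.1, e.1) ∈ darts I) || decide ((c.2, e.1) ∈ darts I))

/-- One step: if not enough vertices have been deleted, and if there is a dense spot, then delete
it. -/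
def step (C p q : ℕ) (I : Inst) (X : List (ℕ × ℕ)) : List (ℕ × ℕ) :=
  if 8 * q * ((darts I).length - X.length) ≤ dg I * (p * nV I) then
    match ((darts I).filter (good C I X)).head? with
    | none => X
    | some c => del I X c
  else X

/-- What is left at the end. -/
def rest (C p q : ℕ) (I : Inst) : List (ℕ × ℕ) := (step C p q I)^[(darts I).length] (darts I)

/-- The answer of the algorithm. -/
def accept (C p q : ℕ) (I : Inst) : Bool :=
  decide (dg I * (p * nV I) < 8 * q * ((darts I).length - (rest C p q I).length)) &&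
    (decide (2 * q ≤ p * nV I) && decide (dg I * q ≤ 2 * (p * nV I)))

/-! ### Analysis -/

/-- The state of the algorithm given by a set of vertices. -/
def St (I : Inst) (R : Finset ℕ) (X : List (ℕ × ℕ)) : Prop :=
  R ⊆ range (nV I) ∧ X = (darts I).filter fun e => decide (e.1 ∈ R)

theorem St.inX {I : Inst} (h : IsReg I) {R : Finset ℕ} {X : List (ℕ × ℕ)} (hX : St I R X) (v : ℕ) :
    inX X v = decide (v ∈ R) := by
  obtain ⟨hR, rfl⟩ := hX
  unfold SSE.inX
  rw [Bool.eq_iff_iff, decide_eq_true_eq, List.any_eq_true]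
  constructor
  · rintro ⟨e, he, hv⟩
    have h1 := (List.mem_filter.1 he).2
    rw [decide_eq_true_eq] at h1 hv
    rw [← hv]
    exact h1
  · intro hv
    have h1 := h.2.2.2 v (mem_range.1 (hR hv))
    have h2 : 0 < ((darts I).filter fun e => decide (e.1 = v)).length := by
      rw [h1]
      exact h.1
    obtain ⟨e, he⟩ := List.exists_mem_of_length_pos h2
    obtain ⟨h3, h4⟩ := List.mem_filter.1 he
    refine ⟨e, List.mem_filter.2 ⟨h3, ?_⟩, h4⟩
    rw [decide_eq_true_eq] at h4 ⊢
    rw [h4]
    exact hv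

theorem card_darts {I : Inst} (h : IsReg I) {R : Finset ℕ} (hR : R ⊆ range (nV I)) :
    ((darts I).toFinset.filter fun e => e.1 ∈ R).card = dg I * R.card := by
  rw [card_eq_sum_card_fiberwise (f := Prod.fst) (t := R)
    (s := (darts I).toFinset.filter fun e => e.1 ∈ R) (fun e he => (mem_filter.1 he).2)]
  rw [sum_congr rfl fun u hu => ?_, sum_const, smul_eq_mul, mul_comm]
  rw [← h.rg.deg u (mem_range.1 (hR hu))]
  congr 1
  ext e
  simp only [mem_filter]
  constructor
  · rintro ⟨⟨h1, _⟩, h2⟩
    exact ⟨h1, h2⟩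
  · rintro ⟨h1, h2⟩
    exact ⟨⟨h1, by rw [h2]; exact hu⟩, h2⟩

theorem St.length {I : Inst} (h : IsReg I) {R : Finset ℕ} {X : List (ℕ × ℕ)} (hX : St I R X) :
    X.length = dg I * R.card := by
  obtain ⟨hR, rfl⟩ := hX
  rw [filter_toFinset_card _ h.2.1, ← card_darts h hR]
  simp only [decide_eq_true_eq]

theorem St.start {I : Inst} (h : IsReg I) : St I (range (nV I)) (darts I) := by
  refine ⟨Subset.refl _, ?_⟩
  symm
  rw [List.filter_eq_self]
  intro e he
  rw [decide_eq_true_eq, mem_range]
  exact (h.2.2.1 e he).1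

theorem St.diff {I : Inst} (h : IsReg I) {R : Finset ℕ} {X : List (ℕ × ℕ)} (hX : St I R X) :
    (darts I).length - X.length = dg I * (range (nV I) \ R).card := by
  rw [hX.length h, (St.start h).length h, card_sdiff_of_subset hX.1, Nat.mul_sub]

theorem St.scoreB {I : Inst} (h : IsReg I) {R : Finset ℕ} {X : List (ℕ × ℕ)} (hX : St I R X)
    (x z : ℕ) : scoreB (darts I) X x z = score (darts I).toFinset R x z := by
  unfold SSE.scoreB score
  rw [filter_toFinset_card _ h.2.1]
  congr 1
  ext e
  simp only [hX.inX h, mem_filter, List.mem_toFinset, Bool.and_eq_true, decide_eq_true_eq]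

theorem St.good {C : ℕ} {I : Inst} (h : IsReg I) {R : Finset ℕ} {X : List (ℕ × ℕ)}
    (hX : St I R X) (e : ℕ × ℕ) : good C I X e = true ↔
      e.1 ∈ R ∧ e.2 ∈ R ∧ dg I ^ 2 ≤ C * score (darts I).toFinset R e.1 e.2 := by
  unfold SSE.good
  simp only [hX.inX h, hX.scoreB h, Bool.and_eq_true, decide_eq_true_eq]

/-- The vertices adjacent to an end of the edge. -/
def nbs (A : Finset (ℕ × ℕ)) (R : Finset ℕ) (c : ℕ × ℕ) : Finset ℕ :=
  R.filter fun v => (c.1, v) ∈ A ∨ (c.2, v) ∈ A

theorem St.del {I : Inst} {R : Finset ℕ} {X : List (ℕ × ℕ)} (hX : St I R X)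
    (c : ℕ × ℕ) : St I (R \ nbs (darts I).toFinset R c) (del I X c) := by
  obtain ⟨hR, rfl⟩ := hX
  refine ⟨sdiff_subset.trans hR, ?_⟩
  unfold SSE.del
  rw [List.filter_filter]
  apply List.filter_congr
  intro e _
  rw [Bool.eq_iff_iff]
  simp only [nbs, Bool.and_eq_true, Bool.not_eq_true', Bool.or_eq_false_iff,
    decide_eq_false_iff_not, decide_eq_true_eq, mem_sdiff, mem_filter, List.mem_toFinset]
  tauto

namespace RG

variable {n d : ℕ} {A : Finset (ℕ × ℕ)}

theorem card_nb (h : RG n d A) (R : Finset ℕ) (x : ℕ) : (R.filter fun v => (x, v) ∈ A).card ≤ d := by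
  refine le_trans ?_ (h.dgS_le R x)
  unfold dgS
  refine card_le_card_of_injOn (fun v => (x, v)) ?_ ?_
  · intro v hv
    obtain ⟨h1, h2⟩ := mem_filter.1 hv
    exact mem_filter.2 ⟨h2, rfl, h1⟩
  · intro v _ v' _ heq
    exact (Prod.mk.inj heq).2

theorem card_nbs (h : RG n d A) (R : Finset ℕ) (c : ℕ × ℕ) : (nbs A R c).card ≤ 2 * d := by
  unfold nbs
  rw [filter_or]
  refine (card_union_le _ _).trans ?_
  have h1 := h.card_nb R c.1
  have h2 := h.card_nb R c.2
  omega

theorem score_le (R : Finset ℕ) (c : ℕ × ℕ) : score A R c.1 c.2 ≤ inner A (nbs A R c) := by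
  unfold score inner
  apply card_le_card
  intro e he
  rw [mem_filter] at he ⊢
  refine ⟨he.1, ?_, ?_⟩
  · exact mem_filter.2 ⟨he.2.1, Or.inl he.2.2.2.1⟩
  · exact mem_filter.2 ⟨he.2.2.1, Or.inr he.2.2.2.2⟩

theorem inner_union {S T : Finset ℕ} (hST : Disjoint S T) :
    inner A S + inner A T ≤ inner A (S ∪ T) := by
  unfold inner
  rw [← card_union_of_disjoint]
  · apply card_le_card
    intro e he
    rcases mem_union.1 he with he | he
    · obtain ⟨h1, h2, h3⟩ := mem_filter.1 he
      exact mem_filter.2 ⟨h1, mem_union_left _ h2, mem_union_left _ h3⟩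
    · obtain ⟨h1, h2, h3⟩ := mem_filter.1 he
      exact mem_filter.2 ⟨h1, mem_union_right _ h2, mem_union_right _ h3⟩
  · rw [disjoint_left]
    intro e he he'
    exact disjoint_left.1 hST (mem_filter.1 he).2.1 (mem_filter.1 he').2.1

theorem inner_le (h : RG n d A) (S R : Finset ℕ) :
    inner A S ≤ inner A (S ∩ R) + 2 * (d * (S \ R).card) := by
  have h1 : (A.filter fun e => e.1 ∈ S ∧ e.2 ∈ S) ⊆
      (A.filter fun e => e.1 ∈ S ∩ R ∧ e.2 ∈ S ∩ R) ∪
      (((S \ R).biUnion fun v => A.filter fun e => e.1 = v ∧ e.2 ∈ S) ∪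
      ((S \ R).biUnion fun v => (A.filter fun e => e.1 = v ∧ e.2 ∈ S).image fun e => (e.2, e.1))) := by
    intro e he
    obtain ⟨h1, h2, h3⟩ := mem_filter.1 he
    by_cases h4 : e.1 ∈ R
    · by_cases h5 : e.2 ∈ R
      · exact mem_union_left _ (mem_filter.2 ⟨h1, mem_inter.2 ⟨h2, h4⟩, mem_inter.2 ⟨h3, h5⟩⟩)
      · refine mem_union_right _ (mem_union_right _ (mem_biUnion.2 ⟨e.2, mem_sdiff.2 ⟨h3, h5⟩, ?_⟩))
        exact mem_image.2 ⟨(e.2, e.1), mem_filter.2 ⟨h.symm e h1, rfl, h2⟩, rfl⟩
    · exact mem_union_right _ (mem_union_left _ (mem_biUnion.2 ⟨e.1, mem_sdiff.2 ⟨h2, h4⟩,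
        mem_filter.2 ⟨h1, rfl, h3⟩⟩))
  have h2 : ((S \ R).biUnion fun v => A.filter fun e => e.1 = v ∧ e.2 ∈ S).card ≤
      d * (S \ R).card := by
    refine card_biUnion_le.trans ?_
    rw [mul_comm, ← smul_eq_mul, ← sum_const]
    exact sum_le_sum fun v _ => h.dgS_le S v
  have h3 : ((S \ R).biUnion fun v => (A.filter fun e => e.1 = v ∧ e.2 ∈ S).image
      fun e => (e.2, e.1)).card ≤ d * (S \ R).card := by
    refine card_biUnion_le.trans ?_
    rw [mul_comm, ← smul_eq_mul, ← sum_const]
    exact sum_le_sum fun v _ => card_image_le.trans (h.dgS_le S v)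
  have h4 := (card_le_card h1).trans (card_union_le _ _)
  have h5 := card_union_le ((S \ R).biUnion fun v => A.filter fun e => e.1 = v ∧ e.2 ∈ S)
    ((S \ R).biUnion fun v => (A.filter fun e => e.1 = v ∧ e.2 ∈ S).image fun e => (e.2, e.1))
  unfold inner
  omega

end RG

/-- The invariant: the deleted vertices are few and dense. -/
def Inv (C p q : ℕ) (I : Inst) (X : List (ℕ × ℕ)) : Prop :=
  ∃ R, St I R X ∧
    dg I * (range (nV I) \ R).card ≤ 2 * C * inner (darts I).toFinset (range (nV I) \ R) ∧
    8 * q * (range (nV I) \ R).card ≤ p * nV I + 16 * q * dg I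

theorem step_inv {C p q : ℕ} {I : Inst} (h : IsReg I) {X : List (ℕ × ℕ)} (hX : Inv C p q I X) :
    Inv C p q I (step C p q I X) ∧
      (step C p q I X = X ∨ (step C p q I X).length < X.length) := by
  have hrg := h.rg
  obtain ⟨R, hR, h1, h2⟩ := hX
  unfold step
  split_ifs with hif
  · cases hc : ((darts I).filter (good C I X)).head? with
    | none => exact ⟨⟨R, hR, h1, h2⟩, Or.inl rfl⟩
    | some c =>
      have hmem := List.mem_of_mem_head? hc
      obtain ⟨hcE, hgood⟩ := List.mem_filter.1 hmem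
      rw [hR.good h] at hgood
      obtain ⟨hc1, hc2, hsc⟩ := hgood
      set A := (darts I).toFinset with hA
      set N := nbs A R c with hN
      have hNR : N ⊆ R := filter_subset _ _
      have hst := hR.del c
      have hT : range (nV I) \ (R \ N) = (range (nV I) \ R) ∪ N := by
        ext v
        simp only [mem_sdiff, mem_union]
        constructor
        · rintro ⟨a1, a2⟩
          by_cases a3 : v ∈ R
          · right
            by_contra a4
            exact a2 ⟨a3, a4⟩
          · exact Or.inl ⟨a1, a3⟩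
        · rintro (⟨a1, a2⟩ | a1)
          · exact ⟨a1, fun a3 => a2 a3.1⟩
          · exact ⟨hR.1 (hNR a1), fun a3 => a3.2 a1⟩
      have hdisj : Disjoint (range (nV I) \ R) N := by
        rw [disjoint_left]
        intro v hv hv'
        exact (mem_sdiff.1 hv).2 (hNR hv')
      have hNcard := hrg.card_nbs R c
      rw [← hN] at hNcard
      have hNinner := RG.score_le (A := A) R c
      rw [← hN] at hNinner
      have hun := RG.inner_union (A := A) hdisj
      have hq : 8 * q * (range (nV I) \ R).card ≤ p * nV I := by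
        rw [hR.diff h] at hif
        have h3 : dg I * (8 * q * (range (nV I) \ R).card) ≤ dg I * (p * nV I) := by
          calc dg I * (8 * q * (range (nV I) \ R).card) =
              8 * q * (dg I * (range (nV I) \ R).card) := by ring
            _ ≤ _ := hif
        exact Nat.le_of_mul_le_mul_left h3 h.1
      refine ⟨⟨R \ N, hst, ?_, ?_⟩, Or.inr ?_⟩
      · rw [hT, card_union_of_disjoint hdisj]
        have h3 : dg I * N.card ≤ 2 * C * inner A N := by
          calc dg I * N.card ≤ dg I * (2 * dg I) := Nat.mul_le_mul_left _ hNcard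
            _ = 2 * dg I ^ 2 := by ring
            _ ≤ 2 * (C * score A R c.1 c.2) := Nat.mul_le_mul_left _ hsc
            _ ≤ 2 * (C * inner A N) := Nat.mul_le_mul_left _ (Nat.mul_le_mul_left _ hNinner)
            _ = _ := by ring
        calc dg I * ((range (nV I) \ R).card + N.card)
            = dg I * (range (nV I) \ R).card + dg I * N.card := by ring
          _ ≤ 2 * C * inner A (range (nV I) \ R) + 2 * C * inner A N := Nat.add_le_add h1 h3
          _ = 2 * C * (inner A (range (nV I) \ R) + inner A N) := by ring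
          _ ≤ _ := Nat.mul_le_mul_left _ hun
      · rw [hT, card_union_of_disjoint hdisj]
        calc 8 * q * ((range (nV I) \ R).card + N.card)
            = 8 * q * (range (nV I) \ R).card + 8 * q * N.card := by ring
          _ ≤ p * nV I + 8 * q * (2 * dg I) := Nat.add_le_add hq (Nat.mul_le_mul_left _ hNcard)
          _ = _ := by ring
      · rw [hst.length h, hR.length h]
        apply Nat.mul_lt_mul_of_pos_left _ h.1
        apply card_lt_card
        refine ⟨sdiff_subset, fun hsub => ?_⟩
        have h3 : c.2 ∈ N := mem_filter.2 ⟨hc2, Or.inl (List.mem_toFinset.2 hcE)⟩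
        exact (mem_sdiff.1 (hsub hc2)).2 h3
  · exact ⟨⟨R, hR, h1, h2⟩, Or.inl rfl⟩

theorem iterate_inv {C p q : ℕ} {I : Inst} (h : IsReg I) (k : ℕ) :
    Inv C p q I ((step C p q I)^[k] (darts I)) ∧
      (step C p q I ((step C p q I)^[k] (darts I)) = (step C p q I)^[k] (darts I) ∨
        ((step C p q I)^[k] (darts I)).length + k ≤ (darts I).length) := by
  induction k with
  | zero =>
    refine ⟨⟨range (nV I), St.start h, ?_, ?_⟩, Or.inr le_rfl⟩
    · simp
    · simp
  | succ k ih =>
    rw [Function.iterate_succ_apply']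
    obtain ⟨h1, h2⟩ := ih
    obtain ⟨h3, h4⟩ := step_inv h h1
    refine ⟨h3, ?_⟩
    rcases h4 with h4 | h4
    · left
      rw [h4]
      exact h4
    · rcases h2 with h2 | h2
      · rw [h2] at h4
        exact absurd h4 (lt_irrefl _)
      · right
        omega

theorem rest_inv {C p q : ℕ} {I : Inst} (h : IsReg I) :
    Inv C p q I (rest C p q I) ∧ step C p q I (rest C p q I) = rest C p q I := by
  obtain ⟨h1, h2⟩ := iterate_inv (C := C) (p := p) (q := q) h (darts I).length
  refine ⟨h1, ?_⟩
  rcases h2 with h2 | h2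
  · exact h2
  · rcases (step_inv h h1).2 with h3 | h3
    · exact h3
    · unfold rest
      omega

end Pool.Agent.H697.SSE
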