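import Pool.Agent.H697.SSE.Alg

/-!
# The algorithm is correct and runs in polynomial time
-/

namespace Pool.Agent.H697.SSE

open Pool.Agent.NPC Finset

theorem num_den {δ : ℚ} (hδ : 0 < δ) {k n : ℕ} (h : (k : ℚ) = δ * n) :
    δ.num.toNat * n = δ.den * k := by
  have h1 : (δ.num : ℚ) = δ * δ.den := by
    rw [Rat.mul_den_eq_num]
  have h2 : ((δ.num.toNat : ℕ) : ℤ) = δ.num := Int.toNat_of_nonneg (Rat.num_nonneg.2 hδ.le)
  have h3 : ((δ.num.toNat : ℕ) : ℚ) = δ * δ.den := by
    rw [← h1, ← h2]
    rfl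
  have h4 : ((δ.num.toNat * n : ℕ) : ℚ) = ((δ.den * k : ℕ) : ℚ) := by
    push_cast
    rw [h3, h]
    ring
  exact_mod_cast h4

theorem inner_le_sq {n d : ℕ} {A : Finset (ℕ × ℕ)} (h : RG n d A) (S : Finset ℕ) :
    inner A S ≤ S.card * S.card - S.card := by
  rw [← offDiag_card]
  unfold inner
  apply card_le_card
  intro e he
  obtain ⟨h1, h2, h3⟩ := mem_filter.1 he
  exact mem_offDiag.2 ⟨h2, h3, h.irr e h1⟩

theorem del_lt {I : Inst} (h : IsReg I) {R : Finset ℕ} {X : List (ℕ × ℕ)} (hR : St I R X)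
    {c : ℕ × ℕ} (hc : c ∈ darts I) (hc2 : c.2 ∈ R) : (del I X c).length < X.length := by
  rw [(hR.del c).length h, hR.length h]
  apply Nat.mul_lt_mul_of_pos_left _ h.1
  apply card_lt_card
  refine ⟨sdiff_subset, fun hsub => ?_⟩
  have h3 : c.2 ∈ nbs (darts I).toFinset R c :=
    mem_filter.2 ⟨hc2, Or.inl (List.mem_toFinset.2 hc)⟩
  exact (mem_sdiff.1 (hsub hc2)).2 h3

theorem accept_of_yes {α : Type} [Fintype α] (H : SimpleGraph α) (hH : H.IsAcyclic) {η δ : ℚ}
    (hη : η * (17 * cst (Fintype.card α)) ≤ 1) (hδ : 0 < δ) {I : Inst}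
    (hfree : IsEmpty (H ↪g gr I)) (hY : Yes η δ I) :
    accept (cst (Fintype.card α)) δ.num.toNat δ.den I = true := by
  obtain ⟨h, k, hk0, hk, S, hSn, hSk, hcut⟩ := hY
  set C := cst (Fintype.card α) with hC
  set p := δ.num.toNat with hp
  set q := δ.den with hq
  have hq0 : 0 < q := δ.den_pos
  have hpn : p * nV I = q * k := num_den hδ hk
  have hrg := h.rg
  set A := (darts I).toFinset with hA
  set d := dg I with hd
  have hd0 : 0 < d := h.1
  have hη4 : η ≤ 1 / 4 := by
    by_contra hcon
    push Not at hcon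
    have h1 : (36 : ℚ) ≤ C := by
      have : 36 ≤ C := by
        rw [hC]
        unfold cst
        have h2 : 1 ≤ (Fintype.card α + 1) ^ 4 * 16 ^ Fintype.card α :=
          Nat.one_le_iff_ne_zero.2 (by positivity)
        calc 36 = 36 * 1 := rfl
          _ ≤ 36 * ((Fintype.card α + 1) ^ 4 * 16 ^ Fintype.card α) := Nat.mul_le_mul_left _ h2
          _ = _ := by ring
      exact_mod_cast this
    nlinarith
  have hio := hrg.inner_add_outer hSn
  rw [hSk] at hio
  rw [h.cut_eq S] at hcut
  have hout : 4 * outer A S ≤ d * k := by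
    have h1 : (outer A S : ℚ) ≤ 1 / 4 * (d * k) := by
      refine hcut.trans (mul_le_mul_of_nonneg_right hη4 (by positivity))
    have h2 : ((4 * outer A S : ℕ) : ℚ) ≤ ((d * k : ℕ) : ℚ) := by
      push_cast
      linarith
    exact_mod_cast h2
  have hin : 3 * (d * k) ≤ 4 * inner A S := by omega
  have hsq := inner_le_sq hrg S
  rw [hSk] at hsq
  have hkd : 3 * d + 4 ≤ 4 * k := by
    obtain ⟨m, rfl⟩ : ∃ m, k = m + 1 := ⟨k - 1, by omega⟩
    have h1 : (m + 1) * (m + 1) - (m + 1) = (m + 1) * m := by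
      rw [Nat.mul_succ]
      omega
    rw [h1] at hsq
    have h2 : (m + 1) * (3 * d) ≤ (m + 1) * (4 * m) := by
      calc (m + 1) * (3 * d) = 3 * (d * (m + 1)) := by ring
        _ ≤ 4 * inner A S := hin
        _ ≤ 4 * ((m + 1) * m) := Nat.mul_le_mul_left _ hsq
        _ = _ := by ring
    have h3 := Nat.le_of_mul_le_mul_left h2 (Nat.succ_pos m)
    omega
  have hk2 : 2 ≤ k := by omega
  have hdk : d ≤ 2 * k := by omega
  unfold accept
  rw [Bool.and_eq_true, Bool.and_eq_true, decide_eq_true_eq, decide_eq_true_eq, decide_eq_true_eq]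
  refine ⟨?_, ?_, ?_⟩
  · by_contra hcon
    push Not at hcon
    obtain ⟨⟨R, hR, -, -⟩, hfix⟩ := rest_inv (C := C) (p := p) (q := q) h
    set X := rest C p q I with hX
    have hnogood : ∀ e ∈ darts I, good C I X e = false := by
      intro e he
      by_contra hg
      rw [Bool.not_eq_false] at hg
      have hne : (darts I).filter (good C I X) ≠ [] := by
        intro hemp
        have := List.mem_filter.2 ⟨he, hg⟩
        rw [hemp] at this
        exact absurd this List.not_mem_nil
      obtain ⟨c, l, hcl⟩ := List.exists_cons_of_ne_nil hne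
      have hc : c ∈ (darts I).filter (good C I X) := by
        rw [hcl]
        exact List.mem_cons_self
      obtain ⟨hc1, hc2⟩ := List.mem_filter.1 hc
      rw [hR.good h] at hc2
      unfold step at hfix
      rw [if_pos hcon, hcl, List.head?_cons] at hfix
      have h1 := del_lt h hR hc1 hc2.2.1
      dsimp only at hfix
      rw [hfix] at h1
      exact lt_irrefl _ h1
    rw [hR.diff h, hpn] at hcon
    have hT : 8 * (range (nV I) \ R).card ≤ k := by
      have h1 : (d * q) * (8 * (range (nV I) \ R).card) ≤ (d * q) * k := by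
        calc (d * q) * (8 * (range (nV I) \ R).card)
            = 8 * q * (d * (range (nV I) \ R).card) := by ring
          _ ≤ d * (q * k) := hcon
          _ = _ := by ring
      exact Nat.le_of_mul_le_mul_left h1 (Nat.mul_pos hd0 hq0)
    have hSR : 8 * (S \ R).card ≤ k :=
      (Nat.mul_le_mul_left _ (card_le_card (sdiff_subset_sdiff hSn (Subset.refl _)))).trans hT
    have hinR := hrg.inner_le S R
    have h1 : 8 * (d * (S \ R).card) ≤ d * k := by
      calc 8 * (d * (S \ R).card) = d * (8 * (S \ R).card) := by ring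
        _ ≤ d * k := Nat.mul_le_mul_left _ hSR
    have h2 : d * k ≤ 2 * inner A (S ∩ R) := by omega
    have hSRk : (S ∩ R).card ≤ k := by
      rw [← hSk]
      exact card_le_card inter_subset_left
    have hne : (S ∩ R).Nonempty := by
      rw [nonempty_iff_ne_empty]
      intro hemp
      rw [hemp] at h2
      have h3 : inner A (∅ : Finset ℕ) = 0 := by
        unfold inner
        simp
      rw [h3] at h2
      have h4 : 0 < d * k := Nat.mul_pos hd0 hk0
      omega
    obtain ⟨e, heA, he1, he2, hesc⟩ := hrg.exists_spot hd0 H hH hne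
      ((Nat.mul_le_mul_left _ hSRk).trans h2) (by
        intro f hf hfi hfa
        refine hfree.false ⟨⟨fun a => ⟨f a, mem_range.1 (hSn (mem_inter.1 (hf a)).1)⟩, ?_⟩, ?_⟩
        · intro a b hab
          exact hfi (Fin.mk.inj_iff.1 hab)
        · intro a b
          constructor
          · intro hadj
            exact (hfa a b).1 (List.mem_toFinset.2 hadj.2.1)
          · intro hadj
            have h3 := (hfa a b).2 hadj
            refine ⟨?_, List.mem_toFinset.1 h3, List.mem_toFinset.1 (hrg.symm _ h3)⟩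
            intro heq
            exact hrg.irr _ h3 (Fin.mk.inj_iff.1 heq))
    have h3 := hnogood e (List.mem_toFinset.1 heA)
    rw [← Bool.not_eq_true, hR.good h] at h3
    apply h3
    refine ⟨(mem_inter.1 he1).2, (mem_inter.1 he2).2, hesc.trans (Nat.mul_le_mul_left _ ?_)⟩
    unfold score
    apply card_le_card
    intro e' he'
    rw [mem_filter] at he' ⊢
    exact ⟨he'.1, (mem_inter.1 he'.2.1).2, (mem_inter.1 he'.2.2.1).2, he'.2.2.2⟩
  · rw [hpn, mul_comm]
    exact Nat.mul_le_mul_left _ hk2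
  · rw [hpn]
    calc d * q ≤ (2 * k) * q := Nat.mul_le_mul_right _ hdk
      _ = _ := by ring

theorem not_accept_of_no {C : ℕ} {η δ : ℚ} (hη : η * (17 * C) ≤ 1) (hδ : 0 < δ)
    (hδ1 : δ ≤ 1) {I : Inst} (hN : No η δ I) : ¬ accept C δ.num.toNat δ.den I = true := by
  intro hacc
  obtain ⟨h, k, hk0, hk, hno⟩ := hN
  set p := δ.num.toNat with hp
  set q := δ.den with hq
  have hq0 : 0 < q := δ.den_pos
  have hpn : p * nV I = q * k := num_den hδ hk
  have hrg := h.rg
  set A := (darts I).toFinset with hA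
  set d := dg I with hd
  have hd0 : 0 < d := h.1
  unfold accept at hacc
  rw [Bool.and_eq_true, Bool.and_eq_true, decide_eq_true_eq, decide_eq_true_eq,
    decide_eq_true_eq] at hacc
  obtain ⟨h1, h2, h3⟩ := hacc
  obtain ⟨⟨R, hR, h4, h5⟩, -⟩ := rest_inv (C := C) (p := p) (q := q) h
  rw [hR.diff h] at h1
  set T := range (nV I) \ R with hT
  rw [hpn] at h1 h2 h3 h5
  have hk8 : k < 8 * T.card := by
    have h6 : (d * q) * k < (d * q) * (8 * T.card) := by
      calc (d * q) * k = d * (q * k) := by ring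
        _ < 8 * q * (d * T.card) := h1
        _ = _ := by ring
    exact lt_of_mul_lt_mul_left h6 (Nat.zero_le _)
  have hk2 : 2 ≤ k := by
    rw [mul_comm] at h2
    exact Nat.le_of_mul_le_mul_left h2 hq0
  have hdk : d ≤ 2 * k := by
    have h6 : q * d ≤ q * (2 * k) := by
      calc q * d = d * q := by ring
        _ ≤ 2 * (q * k) := h3
        _ = _ := by ring
    exact Nat.le_of_mul_le_mul_left h6 hq0
  have hT33 : 8 * T.card ≤ 33 * k := by
    have h6 : q * (8 * T.card) ≤ q * (k + 16 * d) := by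
      calc q * (8 * T.card) = 8 * q * T.card := by ring
        _ ≤ q * k + 16 * q * d := h5
        _ = _ := by ring
    have h7 := Nat.le_of_mul_le_mul_left h6 hq0
    omega
  have hkn : k ≤ nV I := by
    have h6 : (k : ℚ) ≤ nV I := by
      rw [hk]
      have : (0 : ℚ) ≤ nV I := by positivity
      nlinarith
    exact_mod_cast h6
  have hinner : ∀ S ⊆ range (nV I), S.card = k → (inner A S : ℚ) ≤ η * (d * k) := by
    intro S hS hSk
    have h6 := hno S hS hSk
    rw [h.cut_eq S] at h6
    have h7 := hrg.inner_add_outer hS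
    rw [hSk] at h7
    have h8 : (inner A S : ℚ) + outer A S = d * k := by exact_mod_cast h7
    linarith
  have hd0' : (0 : ℚ) < d := by exact_mod_cast hd0
  have hk0' : (0 : ℚ) < k := by exact_mod_cast hk0
  have hC0 : (0 : ℚ) ≤ C := by positivity
  by_cases hTk : T.card ≤ k
  · obtain ⟨S, hTS, hSn, hSk⟩ := exists_subsuperset_card_eq (show T ⊆ range (nV I) from sdiff_subset)
      hTk (by rw [card_range]; exact hkn)
    have h6 := hinner S hSn hSk
    have h7 : (inner A T : ℚ) ≤ inner A S := by exact_mod_cast RG.inner_mono hTS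
    have h8 : (d * T.card : ℚ) ≤ 2 * C * inner A T := by exact_mod_cast h4
    have h9 : (k : ℚ) < 8 * T.card := by exact_mod_cast hk8
    have h10 : (d : ℚ) * k < 16 * C * (η * (d * k)) := by
      calc (d : ℚ) * k < d * (8 * T.card) := mul_lt_mul_of_pos_left h9 hd0'
        _ = 8 * (d * T.card) := by ring
        _ ≤ 8 * (2 * C * inner A T) := mul_le_mul_of_nonneg_left h8 (by norm_num)
        _ ≤ 8 * (2 * C * (η * (d * k))) := by
            apply mul_le_mul_of_nonneg_left _ (by norm_num)
            exact mul_le_mul_of_nonneg_left (h7.trans h6) (by positivity)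
        _ = _ := by ring
    have h11 : (0 : ℚ) < d * k := by positivity
    have h12 : 16 * C * (η * (d * k)) ≤ (16 / 17) * (d * k) := by
      calc 16 * C * (η * (d * k)) = (16 / 17) * (η * (17 * C)) * (d * k) := by ring
        _ ≤ (16 / 17) * 1 * (d * k) := by
            apply mul_le_mul_of_nonneg_right _ h11.le
            exact mul_le_mul_of_nonneg_left hη (by norm_num)
        _ = _ := by ring
    linarith
  · push Not at hTk
    obtain ⟨m, hm⟩ : ∃ m, T.card = k + m := ⟨T.card - k, by omega⟩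
    obtain ⟨B, hBT, hBk, hB⟩ := hrg.shrink hk2 m hm
    have h6 := hinner B (hBT.trans sdiff_subset) hBk
    obtain ⟨a, ha⟩ : ∃ a, T.card = a + 1 := ⟨T.card - 1, by omega⟩
    obtain ⟨j, hj⟩ : ∃ j, k = j + 1 := ⟨k - 1, by omega⟩
    rw [ha, hj] at hB
    simp only [Nat.add_sub_cancel] at hB
    have hB' : (inner A T : ℚ) * ((j + 1) * j) ≤ inner A B * ((a + 1) * a) := by exact_mod_cast hB
    have h8 : (d * (a + 1) : ℚ) ≤ 2 * C * inner A T := by
      rw [ha] at h4
      exact_mod_cast h4
    have hj1 : (1 : ℚ) ≤ j := by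
      have : 1 ≤ j := by omega
      exact_mod_cast this
    have ha0 : (0 : ℚ) ≤ a := by positivity
    have hkj : (k : ℚ) = j + 1 := by rw [hj]; push_cast; ring
    rw [hkj] at h6
    have hjp : (0 : ℚ) < (j : ℚ) + 1 := by linarith
    have h9 : (d * (j + 1) * (a + 1) : ℚ) * j ≤ (d * (j + 1) * (a + 1)) * ((2 / 17) * a) := by
      calc (d * (j + 1) * (a + 1) : ℚ) * j = (d * (a + 1)) * ((j + 1) * j) := by ring
        _ ≤ (2 * C * inner A T) * ((j + 1) * j) :=
            mul_le_mul_of_nonneg_right h8 (by positivity)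
        _ = 2 * C * (inner A T * ((j + 1) * j)) := by ring
        _ ≤ 2 * C * (inner A B * ((a + 1) * a)) := mul_le_mul_of_nonneg_left hB' (by positivity)
        _ ≤ 2 * C * ((η * (d * (j + 1))) * ((a + 1) * a)) := by
            apply mul_le_mul_of_nonneg_left _ (by positivity)
            exact mul_le_mul_of_nonneg_right h6 (by positivity)
        _ = (2 / 17) * (η * (17 * C)) * (d * (j + 1) * ((a + 1) * a)) := by ring
        _ ≤ (2 / 17) * 1 * (d * (j + 1) * ((a + 1) * a)) := by
            apply mul_le_mul_of_nonneg_right _ (by positivity)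
            exact mul_le_mul_of_nonneg_left hη (by norm_num)
        _ = _ := by ring
    have h10 : (0 : ℚ) < d * (j + 1) * (a + 1) := by positivity
    have h11 := le_of_mul_le_mul_left h9 h10
    have h12 : (8 * (a + 1) : ℚ) ≤ 33 * (j + 1) := by
      rw [ha, hj] at hT33
      exact_mod_cast hT33
    linarith

/-! ### Polynomial time -/

section
variable {α : Type} [TEnc α]

theorem poly_nV : Poly nV := Poly.fst Poly.id

theorem poly_dg : Poly dg := Poly.fst (Poly.snd Poly.id)

theorem poly_darts : Poly darts := Poly.snd (Poly.snd Poly.id)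

theorem poly_mem {f : α → ℕ × ℕ} {l : α → List (ℕ × ℕ)} (hf : Poly f) (hl : Poly l) :
    Poly (fun a => decide (f a ∈ l a)) :=
  (Poly.decide_mem hf hl).congr fun _ => decide_eq_decide.2 Iff.rfl

theorem poly_inX {X : α → List (ℕ × ℕ)} {v : α → ℕ} (hX : Poly X) (hv : Poly v) :
    Poly (fun a => inX (X a) (v a)) := by
  unfold inX
  exact Poly.any (p := fun a (e : ℕ × ℕ) => decide (e.1 = v a)) hX
    (Poly.decide_eq (Poly.fst (Poly.snd Poly.id)) (hv.comp (Poly.fst Poly.id)))

theorem poly_scoreB {E X : α → List (ℕ × ℕ)} {x z : α → ℕ} (hE : Poly E) (hX : Poly X)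
    (hx : Poly x) (hz : Poly z) : Poly (fun a => scoreB (E a) (X a) (x a) (z a)) := by
  unfold scoreB
  refine Poly.length (Poly.filter (p := fun a (e : ℕ × ℕ) => inX (X a) e.1 && (inX (X a) e.2 &&
    (decide ((x a, e.1) ∈ E a) && decide ((z a, e.2) ∈ E a)))) hE ?_)
  have i : Poly (fun p : α × (ℕ × ℕ) => p.1) := Poly.fst Poly.id
  have e1 : Poly (fun p : α × (ℕ × ℕ) => p.2.1) := Poly.fst (Poly.snd Poly.id)
  have e2 : Poly (fun p : α × (ℕ × ℕ) => p.2.2) := Poly.snd (Poly.snd Poly.id)
  exact Poly.and (poly_inX (hX.comp i) e1) (Poly.and (poly_inX (hX.comp i) e2)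
    (Poly.and (poly_mem (Poly.pair (hx.comp i) e1) (hE.comp i))
      (poly_mem (Poly.pair (hz.comp i) e2) (hE.comp i))))

theorem poly_good (C : ℕ) :
    Poly (fun p : (Inst × List (ℕ × ℕ)) × (ℕ × ℕ) => good C p.1.1 p.1.2 p.2) := by
  unfold good
  have i : Poly (fun p : (Inst × List (ℕ × ℕ)) × (ℕ × ℕ) => p) := Poly.id
  have hX := Poly.snd (Poly.fst i)
  have e1 := Poly.fst (Poly.snd i)
  have e2 := Poly.snd (Poly.snd i)
  have hd := poly_dg.comp (Poly.fst (Poly.fst i))
  have hE := poly_darts.comp (Poly.fst (Poly.fst i))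
  refine Poly.and (poly_inX hX e1) (Poly.and (poly_inX hX e2) (Poly.decide_le ?_
    (Poly.mul (NPC.Poly.const C) (poly_scoreB hE hX e1 e2))))
  exact (Poly.mul hd hd).congr fun p => (sq _).symm

theorem poly_del : Poly (fun p : (Inst × List (ℕ × ℕ)) × (ℕ × ℕ) => del p.1.1 p.1.2 p.2) := by
  unfold del
  refine Poly.filter (p := fun (p : (Inst × List (ℕ × ℕ)) × (ℕ × ℕ)) (e : ℕ × ℕ) =>
    !(decide ((p.2.1, e.1) ∈ darts p.1.1) || decide ((p.2.2, e.1) ∈ darts p.1.1)))
    (Poly.snd (Poly.fst Poly.id)) (Poly.not ?_)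
  have i : Poly (fun p : ((Inst × List (ℕ × ℕ)) × (ℕ × ℕ)) × (ℕ × ℕ) => p) := Poly.id
  have hE := poly_darts.comp (Poly.fst (Poly.fst (Poly.fst i)))
  exact Poly.or (poly_mem (Poly.pair (Poly.fst (Poly.snd (Poly.fst i)))
      (Poly.fst (Poly.snd i))) hE)
    (poly_mem (Poly.pair (Poly.snd (Poly.snd (Poly.fst i))) (Poly.fst (Poly.snd i))) hE)

theorem poly_step (C p q : ℕ) :
    Poly (fun x : Inst × List (ℕ × ℕ) => step C p q x.1 x.2) := by
  have i : Poly (fun x : Inst × List (ℕ × ℕ) => x) := Poly.id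
  have hE := poly_darts.comp (Poly.fst i)
  have h1 : Poly (fun x : Inst × List (ℕ × ℕ) => ((darts x.1).filter (good C x.1 x.2)).head?) :=
    Poly.head? (Poly.filter (p := fun (x : Inst × List (ℕ × ℕ)) (c : ℕ × ℕ) => good C x.1 x.2 c)
      hE (poly_good C))
  have h2 : Poly (fun x : Inst × List (ℕ × ℕ) =>
      match ((darts x.1).filter (good C x.1 x.2)).head? with
      | none => x.2
      | some c => del x.1 x.2 c) := by
    refine (Poly.optCases (g := fun x : Inst × List (ℕ × ℕ) => x.2)
      (h := fun (x : Inst × List (ℕ × ℕ)) (c : ℕ × ℕ) => del x.1 x.2 c) h1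
      (Poly.snd Poly.id) poly_del).congr fun x => ?_
    cases ((darts x.1).filter (good C x.1 x.2)).head? <;> rfl
  unfold step
  exact Poly.ite (p := fun x : Inst × List (ℕ × ℕ) =>
      8 * q * ((darts x.1).length - x.2.length) ≤ dg x.1 * (p * nV x.1))
    (Poly.decide_le (Poly.mul (NPC.Poly.const (8 * q)) (Poly.sub (Poly.length hE)
      (Poly.length (Poly.snd i))))
      (Poly.mul (poly_dg.comp (Poly.fst i)) (Poly.mul (NPC.Poly.const p)
        (poly_nV.comp (Poly.fst i))))) h2 (Poly.snd i)

end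

theorem sz_sublist {α : Type} [TEnc α] {l l' : List α} (h : l.Sublist l') : sz l ≤ sz l' := by
  induction h with
  | slnil => exact le_rfl
  | cons a _ ih => rw [sz_list_cons]; omega
  | cons_cons a _ ih => rw [sz_list_cons, sz_list_cons]; omega

theorem step_sublist (C p q : ℕ) (I : Inst) (X : List (ℕ × ℕ)) :
    (step C p q I X).Sublist X := by
  unfold step
  split_ifs
  · cases ((darts I).filter (good C I X)).head? with
    | none => exact List.Sublist.refl _
    | some c => exact List.filter_sublist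
  · exact List.Sublist.refl _

theorem iterate_sublist (C p q : ℕ) (I : Inst) (k : ℕ) :
    ((step C p q I)^[k] (darts I)).Sublist (darts I) := by
  induction k with
  | zero => exact List.Sublist.refl _
  | succ k ih =>
    rw [Function.iterate_succ_apply']
    exact (step_sublist C p q I _).trans ih

theorem sz_darts (I : Inst) : sz (darts I) ≤ sz I := by
  obtain ⟨n, d, E⟩ := I
  have h1 : sz ((n, d, E) : ℕ × ℕ × List (ℕ × ℕ)) = _ := sz_pair _ _
  have h2 : sz ((d, E) : ℕ × List (ℕ × ℕ)) = _ := sz_pair _ _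
  have h3 : sz (darts (n, d, E)) = sz E := rfl
  rw [h1, h2, h3]
  omega

theorem poly_accept (C p q : ℕ) : Poly (accept C p q) := by
  unfold accept rest
  have h1 : Poly (fun I : Inst => (step C p q I)^[(darts I).length] (darts I)) :=
    Poly.iterLen (F := fun (I : Inst) (X : List (ℕ × ℕ)) => step C p q I X) poly_darts poly_darts
      (poly_step C p q) Polynomial.X (fun I k _ => by
        rw [Polynomial.eval_X]
        exact (sz_sublist (iterate_sublist C p q I k)).trans (sz_darts I))
  have hpn : Poly (fun I : Inst => p * nV I) := Poly.mul (NPC.Poly.const p) poly_nV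
  refine Poly.and (Poly.decide_lt (Poly.mul poly_dg hpn) (Poly.mul (NPC.Poly.const (8 * q))
    (Poly.sub (Poly.length poly_darts) (Poly.length h1)))) (Poly.and (Poly.decide_le
    (NPC.Poly.const (2 * q)) hpn) (Poly.decide_le (Poly.mul poly_dg (NPC.Poly.const q))
    (Poly.mul (NPC.Poly.const 2) hpn)))

/-- **Small-set expansion is easy in graphs without a fixed induced forest.** -/
theorem easy_of_forest {α : Type} [Fintype α] (H : SimpleGraph α) (hH : H.IsAcyclic) {η δ : ℚ}
    (hη : η * (17 * cst (Fintype.card α)) ≤ 1) (hδ : 0 < δ) (hδ1 : δ ≤ 1) {Cl : Inst → Prop}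
    (hCl : ∀ I, Cl I → IsEmpty (H ↪g gr I)) : Easy Cl (Yes η δ) (No η δ) :=
  ⟨fun I => accept (cst (Fintype.card α)) δ.num.toNat δ.den I = true,
    inPP_of (poly_accept _ _ _) fun _ => Iff.rfl, fun I hI =>
      ⟨accept_of_yes H hH hη hδ (hCl I hI), not_accept_of_no hη hδ hδ1⟩⟩

end Pool.Agent.H697.SSE
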