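import Pool.Agent.H697.Forest.Order
import Pool.Graph.R_seed8.NPC.Dec

/-!
# Small-set expansion: definitions
-/

namespace Pool.Agent.H697.SSE

open Pool.Agent.NPC Finset

/-- An instance: the number `n` of vertices, the degree `d`, and the list of all ordered pairs of
adjacent vertices; the vertices are `0, ..., n - 1`. -/
abbrev Inst : Type := ℕ × ℕ × List (ℕ × ℕ)

/-- The number of vertices. -/
def nV (I : Inst) : ℕ := I.1

/-- The degree. -/
def dg (I : Inst) : ℕ := I.2.1

/-- The list of the ordered pairs of adjacent vertices. -/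
def darts (I : Inst) : List (ℕ × ℕ) := I.2.2

/-- The instance is a `d`-regular graph without loops and multiple edges, `d ≥ 1`: the list has no
repetitions, it is symmetric, its entries are pairs of distinct vertices, and every vertex is the
first entry of exactly `d` pairs. -/
def IsReg (I : Inst) : Prop :=
  0 < dg I ∧ (darts I).Nodup ∧
  (∀ e ∈ darts I, e.1 < nV I ∧ e.2 < nV I ∧ e.1 ≠ e.2 ∧ (e.2, e.1) ∈ darts I) ∧
  ∀ v < nV I, ((darts I).filter fun e => decide (e.1 = v)).length = dg I

/-- The graph of the instance. -/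
def gr (I : Inst) : SimpleGraph (Fin (nV I)) where
  Adj u v := u ≠ v ∧ ((u : ℕ), (v : ℕ)) ∈ darts I ∧ ((v : ℕ), (u : ℕ)) ∈ darts I
  symm := ⟨fun _ _ h => ⟨h.1.symm, h.2.2, h.2.1⟩⟩
  loopless := ⟨fun _ h => h.1 rfl⟩

/-- The number of edges with exactly one end in `S`. -/
def cut (I : Inst) (S : Finset ℕ) : ℕ :=
  ((darts I).filter fun e => decide (e.1 ∈ S) && !decide (e.2 ∈ S)).length

/-- Yes-instances: `δ n` is a positive integer, and some set of `δ n` vertices has expansion at
most `η`. -/
def Yes (η δ : ℚ) (I : Inst) : Prop :=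
  IsReg I ∧ ∃ k : ℕ, 0 < k ∧ (k : ℚ) = δ * nV I ∧
    ∃ S ⊆ range (nV I), S.card = k ∧ (cut I S : ℚ) ≤ η * (dg I * k)

/-- No-instances: `δ n` is a positive integer, and every set of `δ n` vertices has expansion at
least `1 - η`. -/
def No (η δ : ℚ) (I : Inst) : Prop :=
  IsReg I ∧ ∃ k : ℕ, 0 < k ∧ (k : ℚ) = δ * nV I ∧
    ∀ S ⊆ range (nV I), S.card = k → (1 - η) * (dg I * k) ≤ cut I S

/-- The promise problem with yes-instances `Y` and no-instances `N`, restricted to the graphs with
the property `Cl`, is `NP`-hard under polynomial-time many-one reductions. -/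
def Hard (Cl Y N : Inst → Prop) : Prop :=
  ∀ L : Set (List Bool), InNP L → ∃ f : List Bool → List Bool, PolyTime f ∧ ∀ x,
    ∃ I, f x = bits I ∧ Cl I ∧ (x ∈ L → Y I) ∧ (x ∉ L → N I)

/-- Some decision problem in `P` contains all the yes-instances with the property `Cl` and none of
the no-instances with the property `Cl`. -/
def Easy (Cl Y N : Inst → Prop) : Prop :=
  ∃ P : Inst → Prop, InPP P ∧ ∀ I, Cl I → (Y I → P I) ∧ (N I → ¬ P I)

/-- The small-set expansion conjecture (Q1) for the graphs with the property `Cl`. -/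
def SSEH (Cl : Inst → Prop) : Prop :=
  ∀ η : ℚ, 0 < η → η < 1 / 2 → ∃ δ : ℚ, 0 < δ ∧ δ ≤ 1 / 2 ∧ Hard Cl (Yes η δ) (No η δ)

/-- No `H i` is an induced subgraph. -/
def Free {ι : Type} {V : ι → Type} (H : ∀ i, SimpleGraph (V i)) (I : Inst) : Prop :=
  ∀ i, IsEmpty (H i ↪g gr I)

/-! ### Abstract regular graphs -/

/-- `A` is the set of the ordered pairs of adjacent vertices of a `d`-regular graph on
`0, ..., n - 1`. -/
structure RG (n d : ℕ) (A : Finset (ℕ × ℕ)) : Prop where
  lt : ∀ e ∈ A, e.1 < n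
  symm : ∀ e ∈ A, (e.2, e.1) ∈ A
  irr : ∀ e ∈ A, e.1 ≠ e.2
  deg : ∀ u < n, (A.filter fun e => e.1 = u).card = d

/-- The number of ordered pairs of adjacent vertices in `S`. -/
def inner (A : Finset (ℕ × ℕ)) (S : Finset ℕ) : ℕ := (A.filter fun e => e.1 ∈ S ∧ e.2 ∈ S).card

/-- The number of neighbours of `v` in `S`. -/
def dgS (A : Finset (ℕ × ℕ)) (S : Finset ℕ) (v : ℕ) : ℕ :=
  (A.filter fun e => e.1 = v ∧ e.2 ∈ S).card

/-- The number of ordered pairs of adjacent vertices, the first in `S`, the second not. -/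
def outer (A : Finset (ℕ × ℕ)) (S : Finset ℕ) : ℕ := (A.filter fun e => e.1 ∈ S ∧ e.2 ∉ S).card

theorem filter_toFinset_card {α : Type} [DecidableEq α] (l : List α) (hl : l.Nodup)
    (p : α → Bool) : (l.filter p).length = (l.toFinset.filter fun a => p a = true).card := by
  rw [← List.toFinset_filter, List.toFinset_card_of_nodup (hl.filter _)]

theorem IsReg.rg {I : Inst} (h : IsReg I) : RG (nV I) (dg I) (darts I).toFinset := by
  obtain ⟨_, h1, h2, h3⟩ := h
  refine ⟨?_, ?_, ?_, ?_⟩
  · intro e he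
    exact (h2 e (List.mem_toFinset.1 he)).1
  · intro e he
    exact List.mem_toFinset.2 (h2 e (List.mem_toFinset.1 he)).2.2.2
  · intro e he
    exact (h2 e (List.mem_toFinset.1 he)).2.2.1
  · intro u hu
    rw [← h3 u hu, filter_toFinset_card _ h1]
    simp only [decide_eq_true_eq]

theorem IsReg.cut_eq {I : Inst} (h : IsReg I) (S : Finset ℕ) :
    cut I S = outer (darts I).toFinset S := by
  unfold cut outer
  rw [filter_toFinset_card _ h.2.1]
  congr 1
  ext e
  simp

namespace RG

variable {n d : ℕ} {A : Finset (ℕ × ℕ)}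

theorem lt2 (h : RG n d A) {e : ℕ × ℕ} (he : e ∈ A) : e.2 < n := h.lt _ (h.symm e he)

theorem inner_add_outer (h : RG n d A) {S : Finset ℕ} (hS : S ⊆ range n) :
    inner A S + outer A S = d * S.card := by
  unfold inner outer
  rw [← card_union_of_disjoint]
  · have h1 : (A.filter fun e => e.1 ∈ S ∧ e.2 ∈ S) ∪ (A.filter fun e => e.1 ∈ S ∧ e.2 ∉ S) =
        A.filter fun e => e.1 ∈ S := by
      ext e
      simp only [mem_union, mem_filter]
      tauto
    rw [h1, card_eq_sum_card_fiberwise (f := Prod.fst) (t := S) (s := A.filter fun e => e.1 ∈ S)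
      (fun e he => (mem_filter.1 he).2)]
    rw [sum_congr rfl fun u hu => ?_, sum_const, smul_eq_mul, mul_comm]
    rw [← h.deg u (mem_range.1 (hS hu))]
    congr 1
    ext e
    simp only [mem_filter]
    constructor
    · rintro ⟨⟨h1, _⟩, h2⟩
      exact ⟨h1, h2⟩
    · rintro ⟨h1, h2⟩
      exact ⟨⟨h1, by rw [h2]; exact hu⟩, h2⟩
  · rw [disjoint_left]
    intro e he he'
    exact (mem_filter.1 he').2.2 (mem_filter.1 he).2.2

theorem dgS_le (h : RG n d A) (S : Finset ℕ) (v : ℕ) : dgS A S v ≤ d := by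
  by_cases hv : v < n
  · rw [← h.deg v hv]
    unfold dgS
    apply card_le_card
    intro e he
    rw [mem_filter] at he ⊢
    exact ⟨he.1, he.2.1⟩
  · unfold dgS
    have : (A.filter fun e => e.1 = v ∧ e.2 ∈ S) = ∅ := by
      rw [filter_eq_empty_iff]
      rintro e he ⟨h1, _⟩
      exact hv (h1 ▸ h.lt e he)
    rw [this]
    simp

theorem inner_mono {S T : Finset ℕ} (hST : S ⊆ T) : inner A S ≤ inner A T := by
  unfold inner
  apply card_le_card
  intro e he
  rw [mem_filter] at he ⊢
  exact ⟨he.1, hST he.2.1, hST he.2.2⟩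

theorem sum_dgS (S : Finset ℕ) : ∑ v ∈ S, dgS A S v = inner A S := by
  unfold inner dgS
  rw [card_eq_sum_card_fiberwise (f := Prod.fst) (t := S) (s := A.filter fun e => e.1 ∈ S ∧ e.2 ∈ S)
    (fun e he => (mem_filter.1 he).2.1)]
  refine sum_congr rfl fun u hu => ?_
  congr 1
  ext e
  simp only [mem_filter]
  constructor
  · rintro ⟨h1, h2, h3⟩
    exact ⟨⟨h1, h2 ▸ hu, h3⟩, h2⟩
  · rintro ⟨⟨h1, _, h3⟩, h2⟩
    exact ⟨h1, h2, h3⟩

theorem inner_erase (h : RG n d A) {S : Finset ℕ} {v : ℕ} (hv : v ∈ S) :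
    inner A (S.erase v) + 2 * dgS A S v = inner A S := by
  have h1 : (A.filter fun e => e.1 ∈ S ∧ e.2 ∈ S) =
      (A.filter fun e => e.1 ∈ S.erase v ∧ e.2 ∈ S.erase v) ∪
      ((A.filter fun e => e.1 = v ∧ e.2 ∈ S) ∪ (A.filter fun e => e.1 ∈ S ∧ e.2 = v)) := by
    ext e
    simp only [mem_union, mem_filter, mem_erase]
    by_cases h1 : e.1 = v <;> by_cases h2 : e.2 = v <;> simp only [h1, h2] <;> tauto
  have h2 : (A.filter fun e => e.1 ∈ S ∧ e.2 = v).card = dgS A S v := by
    unfold dgS
    refine card_bij (fun e _ => (e.2, e.1)) ?_ ?_ ?_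
    · intro e he
      rw [mem_filter] at he ⊢
      exact ⟨h.symm e he.1, he.2.2, he.2.1⟩
    · intro e _ e' _ heq
      have := Prod.mk.inj heq
      exact Prod.ext this.2 this.1
    · intro e he
      rw [mem_filter] at he
      exact ⟨(e.2, e.1), mem_filter.2 ⟨h.symm e he.1, he.2.2, he.2.1⟩, rfl⟩
  unfold inner
  rw [h1, card_union_of_disjoint, card_union_of_disjoint, h2]
  · unfold dgS
    ring
  · rw [disjoint_left]
    intro e he he'
    have h3 := (mem_filter.1 he).2.1
    have h4 := (mem_filter.1 he').2.2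
    exact h.irr e (mem_filter.1 he).1 (h3.trans h4.symm)
  · rw [disjoint_left]
    intro e he he'
    obtain ⟨_, h3, h4⟩ := mem_filter.1 he
    rcases mem_union.1 he' with h5 | h5
    · exact (mem_erase.1 h3).1 (mem_filter.1 h5).2.1
    · exact (mem_erase.1 h4).1 (mem_filter.1 h5).2.2

/-- Shrinking a set keeps the density. -/
theorem shrink (h : RG n d A) {k : ℕ} (hk : 2 ≤ k) : ∀ (m : ℕ) {S : Finset ℕ}, S.card = k + m →
    ∃ B ⊆ S, B.card = k ∧
      inner A S * (k * (k - 1)) ≤ inner A B * (S.card * (S.card - 1)) := by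
  intro m
  induction m with
  | zero =>
    intro S hS
    exact ⟨S, Subset.refl _, hS, by rw [hS, Nat.add_zero]⟩
  | succ m ih =>
    intro S hS
    have hpos : 0 < S.card := by omega
    obtain ⟨v, hv, hvle⟩ : ∃ v ∈ S, dgS A S v * S.card ≤ inner A S := by
      by_contra hcon
      push Not at hcon
      have h1 : ∑ v ∈ S, inner A S < ∑ v ∈ S, dgS A S v * S.card :=
        sum_lt_sum_of_nonempty (card_pos.1 hpos) fun v hv => hcon v hv
      rw [← sum_mul, sum_dgS, sum_const, smul_eq_mul, mul_comm] at h1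
      exact lt_irrefl _ h1
    have hcard : (S.erase v).card = k + m := by
      rw [card_erase_of_mem hv]
      omega
    obtain ⟨B, hB, hBk, hBi⟩ := ih hcard
    refine ⟨B, hB.trans (erase_subset _ _), hBk, ?_⟩
    have h1 := h.inner_erase hv
    obtain ⟨a, ha⟩ : ∃ a, S.card = a + 2 := ⟨S.card - 2, by omega⟩
    have ha0 : 0 < a := by omega
    rw [card_erase_of_mem hv, ha] at hBi
    rw [ha] at hvle ⊢
    have h2 : a + 2 - 1 = a + 1 := rfl
    have h3 : a + 1 - 1 = a := rfl
    rw [h2] at hBi ⊢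
    rw [h3] at hBi
    generalize inner A (S.erase v) = x at *
    generalize inner A B = y at *
    generalize dgS A S v = z at *
    rw [← h1] at hvle ⊢
    generalize k * (k - 1) = K at *
    -- x * (a+2) ≥ (x + 2z) * a
    have h4 : (x + 2 * z) * a ≤ x * (a + 2) := by nlinarith
    have h5 : (x + 2 * z) * K * a ≤ y * ((a + 2) * (a + 1)) * a := by
      calc (x + 2 * z) * K * a = (x + 2 * z) * a * K := by ring
        _ ≤ x * (a + 2) * K := Nat.mul_le_mul_right _ h4
        _ = x * K * (a + 2) := by ring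
        _ ≤ y * ((a + 1) * a) * (a + 2) := Nat.mul_le_mul_right _ hBi
        _ = _ := by ring
    exact Nat.le_of_mul_le_mul_right h5 ha0

/-- A dense set contains a nonempty set with large minimum degree. -/
theorem exists_core (h : RG n d A) (hd : 0 < d) : ∀ (m : ℕ) {S : Finset ℕ}, S.card = m →
    S.Nonempty → d * S.card ≤ 2 * inner A S →
    ∃ T ⊆ S, T.Nonempty ∧ ∀ v ∈ T, d ≤ 4 * dgS A T v := by
  intro m
  induction m with
  | zero =>
    intro S hS hne
    rw [card_eq_zero] at hS
    exact absurd hS hne.ne_empty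
  | succ m ih =>
    intro S hS hne hdense
    by_cases hall : ∀ v ∈ S, d ≤ 4 * dgS A S v
    · exact ⟨S, Subset.refl _, hne, hall⟩
    · push Not at hall
      obtain ⟨v, hv, hvlt⟩ := hall
      have h1 := h.inner_erase hv
      have hcard : (S.erase v).card = m := by
        rw [card_erase_of_mem hv]
        omega
      have h2 : d * m ≤ 2 * inner A (S.erase v) := by
        rw [hS] at hdense
        have : d * (m + 1) = d * m + d := by ring
        omega
      have hne' : (S.erase v).Nonempty := by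
        rw [nonempty_iff_ne_empty]
        intro hemp
        have h3 : m = 0 := by rw [← hcard, hemp, card_empty]
        have h4 : S.card = 1 := by omega
        obtain ⟨w, hw⟩ := card_eq_one.1 h4
        have h5 : inner A S = 0 := by
          unfold inner
          rw [card_eq_zero, filter_eq_empty_iff]
          rintro e he ⟨h6, h7⟩
          rw [hw, mem_singleton] at h6 h7
          exact h.irr e he (h6.trans h7.symm)
        rw [h5, h4] at hdense
        omega
      obtain ⟨T, hT, hT2⟩ := ih hcard hne' (by rw [hcard]; exact h2)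
      exact ⟨T, hT.trans (erase_subset _ _), hT2⟩

end RG

end Pool.Agent.H697.SSE
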