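import Pool.Agent.H697.SSE.Main

/-!
# Small-set expansion on hereditary classes of graphs
-/

namespace Pool.Agent.H697.SSE

open Finset Pool.Agent.NPC Pool.Agent.H697.Exp Pool.Agent.H697.SRed

/-! ### Hard and easy promise problems -/

theorem Hard.collapse {Cl Y N : Inst → Prop} (h : Hard Cl Y N) (h' : Easy Cl Y N) :
    ∀ L : Set (List Bool), InNP L → InP L := by
  intro L hL
  obtain ⟨P, hP, hsep⟩ := h'
  obtain ⟨f, hf, hfx⟩ := h L hL
  refine InP.of_reduces ⟨f, hf, fun x => ?_⟩ hP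
  obtain ⟨I, h1, h2, h5, h6⟩ := hfx x
  have hI := hsep I h2
  rw [h1, bits_mem_lang]
  constructor
  · intro hx
    exact hI.1 (h5 hx)
  · intro hacc
    by_contra hx
    exact hI.2 (h6 hx) hacc

theorem Hard.of_reduction {Cl Y N Cl' Y' N' : Inst → Prop} (h : Hard Cl Y N)
    {F : Inst → Inst} (hF : Poly F) (hY : ∀ I, Cl I → Y I → Cl' (F I) ∧ Y' (F I))
    (hN : ∀ I, Cl I → N I → Cl' (F I) ∧ N' (F I)) : Hard Cl' Y' N' := by
  intro L hL
  obtain ⟨f, hf, hfx⟩ := h L hL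
  have h1 := polyTime_opt (Poly.optMap (o := unbits Inst) (f := fun _ I => F I) poly_unbits
    (hF.comp (Poly.snd Poly.id)))
  refine ⟨_, H642R2.TMSim.polyTime_comp h1 hf, fun x => ?_⟩
  obtain ⟨I, h2, h3, h5, h6⟩ := hfx x
  refine ⟨F I, ?_, ?_, fun hx => (hY I h3 (h5 hx)).2, fun hx => (hN I h3 (h6 hx)).2⟩
  · simp only [h2, unbits_bits, Option.map_some]
  · by_cases hx : x ∈ L
    · exact (hY I h3 (h5 hx)).1
    · exact (hN I h3 (h6 hx)).1

theorem Hard.mono {Cl Y N Cl' Y' N' : Inst → Prop} (h : Hard Cl Y N) (hCl : ∀ I, Cl I → Cl' I)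
    (hY : ∀ I, Y I → Y' I) (hN : ∀ I, N I → N' I) : Hard Cl' Y' N' := by
  intro L hL
  obtain ⟨f, hf, hfx⟩ := h L hL
  refine ⟨f, hf, fun x => ?_⟩
  obtain ⟨I, h2, h3, h5, h6⟩ := hfx x
  exact ⟨I, h2, hCl I h3, fun hx => hY I (h5 hx), fun hx => hN I (h6 hx)⟩

theorem Easy.of_reduction {Cl Y N Cl' Y' N' : Inst → Prop} (h : Easy Cl' Y' N')
    {F : Inst → Inst} (hF : Poly F) (hY : ∀ I, Cl I → Y I → Cl' (F I) ∧ Y' (F I))
    (hN : ∀ I, Cl I → N I → Cl' (F I) ∧ N' (F I)) : Easy Cl Y N := by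
  obtain ⟨P, hP, hsep⟩ := h
  refine ⟨fun I => P (F I), InPP.of_poly hP hF fun _ => Iff.rfl, fun I hI => ⟨fun hy => ?_,
    fun hn => ?_⟩⟩
  · exact (hsep _ (hY I hI hy).1).1 (hY I hI hy).2
  · exact (hsep _ (hN I hI hn).1).2 (hN I hI hn).2

theorem Easy.mono {Cl Y N Cl' Y' N' : Inst → Prop} (h : Easy Cl' Y' N') (hCl : ∀ I, Cl I → Cl' I)
    (hY : ∀ I, Y I → Y' I) (hN : ∀ I, N I → N' I) : Easy Cl Y N := by
  obtain ⟨P, hP, hsep⟩ := h
  exact ⟨P, hP, fun I hI => ⟨fun hy => (hsep I (hCl I hI)).1 (hY I hy),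
    fun hn => (hsep I (hCl I hI)).2 (hN I hn)⟩⟩

/-- If `P = NP` then every promise problem with a yes-instance and a no-instance is hard. -/
theorem hard_of_collapse (hP : ∀ L : Set (List Bool), InNP L → InP L) {Cl Y N : Inst → Prop}
    {IY IN : Inst} (h1 : Cl IY) (h2 : Y IY) (h3 : Cl IN) (h4 : N IN) : Hard Cl Y N := by
  intro L hL
  obtain ⟨V, hV, hVx⟩ := hP L hL
  have hg : Poly (fun b : List Bool => if b = [true] then IY else IN) :=
    Poly.ite (p := fun b : List Bool => b = [true])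
      ((Poly.decide_eq Poly.id (NPC.Poly.const [true])).congr fun _ =>
        decide_eq_decide.2 Iff.rfl) (NPC.Poly.const IY) (NPC.Poly.const IN)
  refine ⟨_, H642R2.TMSim.polyTime_comp (polyTime_bits hg) hV, fun x => ?_⟩
  by_cases hx : x ∈ L
  · refine ⟨IY, ?_, h1, fun _ => h2, fun h => absurd hx h⟩
    simp only [(hVx x).1 hx, if_true]
  · refine ⟨IN, ?_, h3, fun h => absurd h hx, fun _ => h4⟩
    have h5 : V x ≠ [true] := fun h => hx ((hVx x).2 h)
    simp only [if_neg h5]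

/-! ### Basic facts -/

theorem Yes.mono {η η' δ : ℚ} (h : η ≤ η') {I : Inst} (hI : Yes η δ I) : Yes η' δ I := by
  obtain ⟨h1, k, h2, h3, S, h4, h5, h6⟩ := hI
  refine ⟨h1, k, h2, h3, S, h4, h5, h6.trans ?_⟩
  exact mul_le_mul_of_nonneg_right h (by positivity)

theorem not_yes_of_no {η δ : ℚ} (h : η < 1 / 2) {I : Inst} (hN : No η δ I) : ¬ Yes η δ I := by
  rintro ⟨h1, k, h2, h3, S, h4, h5, h6⟩
  obtain ⟨_, k', _, h3', h7⟩ := hN
  have hkk : k = k' := by exact_mod_cast h3.trans h3'.symm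
  subst hkk
  have h8 := (h7 S h4 h5).trans h6
  have h9 : (0 : ℚ) < dg I * k := by
    have := h1.1
    positivity
  have h10 : (1 - η) ≤ η := le_of_mul_le_mul_right h8 h9
  linarith

theorem finite_no (η δ : ℚ) (n₀ : ℕ) : {I : Inst | No η δ I ∧ nV I < n₀}.Finite := by
  have h1 : (Set.Iio n₀).Finite := Set.finite_Iio _
  have h2 : (Set.Iic (n₀ * n₀)).Finite := Set.finite_Iic _
  have h3 : {l : List (Fin n₀ × Fin n₀) | l.length ≤ n₀ * n₀}.Finite :=
    List.finite_length_le _ _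
  refine ((h1.prod (h2.prod (h3.image fun l => l.map fun e => ((e.1 : ℕ), (e.2 : ℕ)))))).subset ?_
  rintro I ⟨⟨h, k, hk0, hk, _⟩, hlt⟩
  have hn := nV_pos hk0 hk
  have hlen : (darts I).length ≤ n₀ * n₀ := by
    rw [← List.toFinset_card_of_nodup h.2.1]
    have h4 : (darts I).toFinset ⊆ range n₀ ×ˢ range n₀ := by
      intro e he
      rw [List.mem_toFinset] at he
      have h5 := h.2.2.1 e he
      rw [mem_product, mem_range, mem_range]
      exact ⟨h5.1.trans hlt, h5.2.1.trans hlt⟩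
    refine (card_le_card h4).trans (le_of_eq ?_)
    rw [card_product, card_range]
  refine ⟨hlt, ?_, ?_⟩
  · have h4 := h.2.2.2 0 hn
    have h5 : dg I ≤ (darts I).length := by
      rw [← h4]
      exact List.length_filter_le _ _
    exact h5.trans hlen
  · refine ⟨(darts I).pmap (fun e (he : e.1 < n₀ ∧ e.2 < n₀) =>
      ((⟨e.1, he.1⟩, ⟨e.2, he.2⟩) : Fin n₀ × Fin n₀)) (fun e he => by
        have h5 := h.2.2.1 e he
        exact ⟨h5.1.trans hlt, h5.2.1.trans hlt⟩), ?_, ?_⟩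
    · refine le_trans (le_of_eq ?_) hlen
      rw [List.length_pmap]
    · change List.map _ (List.pmap _ _ _) = darts I
      apply List.ext_getElem
      · simp
      · intro i h1 h2
        simp

/-- No-instances with `δ > η` are small. -/
theorem no_small {η δ : ℚ} (hη : 0 ≤ η) (hδ : δ ≤ 1) {I : Inst} (hN : No η δ I) :
    (δ - η) * nV I ≤ 1 := by
  obtain ⟨h, k, hk0, hk, hno⟩ := hN
  have hkn : k ≤ nV I := by
    have h6 : (k : ℚ) ≤ nV I := by
      rw [hk]
      have : (0 : ℚ) ≤ nV I := by positivity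
      nlinarith
    exact_mod_cast h6
  rcases Nat.lt_or_ge k 2 with hk2 | hk2
  · have hk1 : k = 1 := by omega
    rw [hk1, Nat.cast_one] at hk
    have : (0 : ℚ) ≤ η * nV I := by positivity
    linarith
  · obtain ⟨m, hm⟩ : ∃ m, nV I = k + m := ⟨nV I - k, by omega⟩
    obtain ⟨B, hB, hBk, hBi⟩ := h.rg.shrink hk2 m (S := range (nV I)) (by rw [card_range]; exact hm)
    have h1 := h.rg.inner_add_outer (Subset.refl (range (nV I)))
    have h2 : outer (darts I).toFinset (range (nV I)) = 0 := by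
      unfold outer
      rw [card_eq_zero, filter_eq_empty_iff]
      rintro e he ⟨_, h4⟩
      exact h4 (mem_range.2 (h.rg.lt2 he))
    rw [h2, Nat.add_zero] at h1
    rw [h1, card_range] at hBi
    have h3 := hno B hB hBk
    rw [h.cut_eq B] at h3
    have h4 := h.rg.inner_add_outer hB
    rw [hBk] at h4
    have h5 : (inner (darts I).toFinset B : ℚ) + outer (darts I).toFinset B = dg I * k := by
      exact_mod_cast h4
    have h6 : (inner (darts I).toFinset B : ℚ) ≤ η * (dg I * k) := by linarith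
    obtain ⟨n', hn'⟩ : ∃ n', nV I = n' + 1 := ⟨nV I - 1, by omega⟩
    obtain ⟨k', hk'⟩ : ∃ k', k = k' + 1 := ⟨k - 1, by omega⟩
    rw [hn', hk', Nat.add_sub_cancel, Nat.add_sub_cancel] at hBi
    have h7 : (dg I * (n' + 1) * ((k' + 1) * k') : ℚ) ≤
        inner (darts I).toFinset B * ((n' + 1) * n') := by exact_mod_cast hBi
    have hd : (0 : ℚ) < dg I := by exact_mod_cast h.1
    have h8 : (dg I * (n' + 1) * (k' + 1) : ℚ) * k' ≤ (dg I * (n' + 1) * (k' + 1)) * (η * n') := by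
      calc (dg I * (n' + 1) * (k' + 1) : ℚ) * k' = dg I * (n' + 1) * ((k' + 1) * k') := by ring
        _ ≤ inner (darts I).toFinset B * ((n' + 1) * n') := h7
        _ ≤ (η * (dg I * k)) * ((n' + 1) * n') := mul_le_mul_of_nonneg_right h6 (by positivity)
        _ = _ := by
          rw [hk']
          push_cast
          ring
    have h9 : (0 : ℚ) < dg I * (n' + 1) * (k' + 1) := by positivity
    have h10 := le_of_mul_le_mul_left h8 h9
    rw [hk', hn'] at hk
    rw [hn']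
    push_cast at hk ⊢
    linarith

/-- **The reduction.** -/
theorem exists_reduction (g : ℕ) {η₀ η δ : ℚ} (hδ : 0 < δ) (hδη : δ ≤ η₀) (h : 2 * η₀ < η)
    (hη : η ≤ 1) : ∃ (F : Inst → Inst) (Δ : ℕ), Poly F ∧
      (∀ I, Yes η₀ δ I → Nice g Δ (F I) ∧ Yes η δ (F I)) ∧
      (∀ I, No η₀ δ I → Nice g Δ (F I) ∧ No η δ (F I)) ∧ (∃ I, Yes η₀ δ I) ∧ ∃ I, No η₀ δ I := by
  classical
  have hη₀ : 0 < η₀ := lt_of_lt_of_le hδ hδη
  set r : ℝ := ((η : ℝ) - 2 * η₀) * δ with hr
  have hr0 : 0 < r := by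
    have h1 : (2 * η₀ : ℝ) < η := by exact_mod_cast h
    have h2 : (0 : ℝ) < δ := by exact_mod_cast hδ
    exact mul_pos (by linarith) h2
  obtain ⟨t, ht⟩ := exists_pow_lt_of_lt_one (show (0 : ℝ) < r / 16 by positivity)
    (show (73 / 80 : ℝ) < 1 by norm_num)
  obtain ⟨D, N, B, hG⟩ := exists_rgadget (C := Red.Wd t × Red.Wd t) (max g 2) (le_max_right _ _)
    (show (0 : ℝ) < r / 4 by positivity)
  obtain ⟨n₀, hn₀⟩ := exists_nat_ge (8 / r)
  have hfin : ∀ I : Inst, n₀ ≤ nV I → ∀ k : ℕ, (k : ℚ) = δ * nV I →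
      2 * (η₀ : ℝ) * k + 4 + (4 * (73 / 80) ^ t + r / 4) * nV I ≤ η * k := by
    intro I hI k hk
    have hk' : (k : ℝ) = δ * nV I := by exact_mod_cast hk
    have h1 : (n₀ : ℝ) ≤ nV I := by exact_mod_cast hI
    have h2 : 8 / r ≤ nV I := hn₀.trans h1
    rw [div_le_iff₀ hr0] at h2
    have h3 : (4 * (73 / 80 : ℝ) ^ t + r / 4) ≤ r / 2 := by linarith
    have h4 := mul_le_mul_of_nonneg_right h3 (Nat.cast_nonneg (α := ℝ) (nV I))
    have h5 : (η : ℝ) * k - 2 * η₀ * k = r * nV I := by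
      rw [hk', hr]
      ring
    linarith
  have hnice : ∀ I, IsReg I → Nice g (Fintype.card (Red.Wd t × Red.Wd t) * D) (Phi D N B I) := by
    intro I hI
    obtain ⟨h1, h2, h3⟩ := nice_Phi hG hI
    exact ⟨h1, h2, fun a p hp => lt_of_le_of_lt (le_max_left _ _) (h3 a p hp)⟩
  -- a fixed no-instance
  set m := δ.den * (n₀ + 2) with hm
  have hm2 : 2 ≤ m := by
    have : 1 ≤ δ.den := δ.den_pos
    nlinarith
  have hmn : n₀ ≤ m := by
    have : 1 ≤ δ.den := δ.den_pos
    nlinarith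
  have hmk : ((δ.num.toNat * (n₀ + 2) : ℕ) : ℚ) = δ * m := by
    have h1 : (δ.num : ℚ) = δ * δ.den := by rw [Rat.mul_den_eq_num]
    have h2 : ((δ.num.toNat : ℕ) : ℤ) = δ.num := Int.toNat_of_nonneg (Rat.num_nonneg.2 hδ.le)
    have h3 : ((δ.num.toNat : ℕ) : ℚ) = δ * δ.den := by
      rw [← h1, ← h2]
      rfl
    rw [hm]
    push_cast
    rw [h3]
    ring
  have hno : No η₀ δ (compl m) := by
    refine no_compl hδη (by linarith) hm2 ?_ hmk
    have : 0 < δ.num := Rat.num_pos.2 hδ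
    have h2 : 0 < δ.num.toNat := by omega
    positivity
  have hJ : No η δ (Phi D N B (compl m)) := no_Phi hG (hfin _ hmn) hno
  have hJn := hnice _ (isReg_compl hm2)
  -- the list of the small no-instances
  set L : List Inst := (finite_no η₀ δ n₀).toFinset.toList with hL
  have hmemL : ∀ I, I ∈ L ↔ No η₀ δ I ∧ nV I < n₀ := by
    intro I
    rw [hL, mem_toList, Set.Finite.mem_toFinset]
    rfl
  have hpoly : Poly (fun I : Inst => if I ∈ L then Phi D N B (compl m) else Phi D N B I) :=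
    Poly.ite (p := fun I : Inst => I ∈ L)
      ((Poly.decide_mem Poly.id (NPC.Poly.const L)).congr fun _ => decide_eq_decide.2 Iff.rfl)
      (NPC.Poly.const _) (poly_Phi D N B)
  refine ⟨_, Fintype.card (Red.Wd t × Red.Wd t) * D, hpoly, ?_, ?_,
    ⟨_, yes_pmat hη₀.le hδ (by linarith)⟩, ⟨_, hno⟩⟩
  · intro I hI
    have h1 : I ∉ L := fun h2 => not_yes_of_no (by linarith) ((hmemL I).1 h2).1 hI
    simp only [if_neg h1]
    exact ⟨hnice I hI.1, Yes.mono (by linarith) (yes_Phi hG hI)⟩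
  · intro I hI
    by_cases h1 : I ∈ L
    · simp only [if_pos h1]
      exact ⟨hJn, hJ⟩
    · simp only [if_neg h1]
      refine ⟨hnice I hI.1, no_Phi hG (hfin I ?_) hI⟩
      by_contra h2
      exact h1 ((hmemL I).2 ⟨hI, by omega⟩)

/-- The quantitative equivalence. -/
theorem transfer (g : ℕ) {η₀ η δ : ℚ} (hδ : 0 < δ) (hδη : δ ≤ η₀) (h : 2 * η₀ < η)
    (hη : η ≤ 1) : ∃ Δ : ℕ,
      (Hard (fun _ => True) (Yes η₀ δ) (No η₀ δ) → Hard (Nice g Δ) (Yes η δ) (No η δ)) ∧
      (Easy (Nice g Δ) (Yes η δ) (No η δ) → Easy (fun _ => True) (Yes η₀ δ) (No η₀ δ)) := by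
  obtain ⟨F, Δ, hF, hY, hN, -, -⟩ := exists_reduction g hδ hδη h hη
  exact ⟨Δ, fun h => h.of_reduction hF (fun I _ => hY I) (fun I _ => hN I),
    fun h => h.of_reduction hF (fun I _ => hY I) (fun I _ => hN I)⟩

/-- The conjecture implies the conjecture for regular graphs of bounded degree and large girth. -/
theorem nice_of_sseh (g : ℕ) (h : SSEH fun _ => True) : ∀ η : ℚ, 0 < η → η < 1 / 2 →
    ∃ δ : ℚ, 0 < δ ∧ δ ≤ 1 / 2 ∧ ∃ Δ : ℕ, Hard (Nice g Δ) (Yes η δ) (No η δ) := by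
  intro η hη hη2
  obtain ⟨δ, hδ, hδ2, hhard⟩ := h (η / 3) (by linarith) (by linarith)
  by_cases hδη : δ ≤ η / 3
  · obtain ⟨Δ, h1, -⟩ := transfer g hδ hδη (show 2 * (η / 3) < η by linarith) (by linarith)
    exact ⟨δ, hδ, hδ2, Δ, h1 hhard⟩
  · push Not at hδη
    have hcol : ∀ L : Set (List Bool), InNP L → InP L := by
      refine hhard.collapse ?_
      classical
      obtain ⟨n₀, hn₀⟩ := exists_nat_gt (1 / (δ - η / 3))
      have hpos : 0 < δ - η / 3 := by linarith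
      rw [div_lt_iff₀ hpos] at hn₀
      set L : List Inst := (finite_no (η / 3) δ n₀).toFinset.toList with hL
      have hmemL : ∀ I, I ∈ L ↔ No (η / 3) δ I ∧ nV I < n₀ := by
        intro I
        rw [hL, mem_toList, Set.Finite.mem_toFinset]
        rfl
      refine ⟨fun I => I ∉ L, inPP_of (d := fun I => !decide (I ∈ L)) (Poly.not
        ((Poly.decide_mem Poly.id (NPC.Poly.const L)).congr fun _ => decide_eq_decide.2 Iff.rfl))
        (fun I => by simp), fun I _ => ⟨fun hY hI => ?_, fun hN hI => ?_⟩⟩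
      · exact not_yes_of_no (by linarith) ((hmemL I).1 hI).1 hY
      · apply hI
        rw [hmemL]
        refine ⟨hN, ?_⟩
        have h1 := no_small (by linarith : (0 : ℚ) ≤ η / 3) (by linarith) hN
        have h2 : (δ - η / 3) * nV I < (δ - η / 3) * n₀ := by linarith
        have h3 := lt_of_mul_lt_mul_left h2 hpos.le
        exact_mod_cast h3
    obtain ⟨F, Δ, hF, hY, hN, ⟨IY, hIY⟩, ⟨IN, hIN⟩⟩ := exists_reduction g
      (show 0 < η / 3 by linarith) (le_refl (η / 3)) (show 2 * (η / 3) < η by linarith)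
      (by linarith)
    exact ⟨η / 3, by linarith, by linarith, Δ, hard_of_collapse hcol (hY IY hIY).1 (hY IY hIY).2
      (hN IN hIN).1 (hN IN hIN).2⟩

theorem isEmpty_of_girth {α : Type} {H : SimpleGraph α} {a : α} {p : H.Walk a a}
    (hp : p.IsCycle) {g : ℕ} (hpg : p.length ≤ g) {β : Type} {G : SimpleGraph β}
    (hG : GirthGT G g) : IsEmpty (H ↪g G) := by
  constructor
  intro φ
  have h1 := hG _ (p.map φ.toHom) (hp.map φ.injective)
  rw [SimpleGraph.Walk.length_map] at h1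
  omega

/-- If no `H i` is a forest, then graphs of large girth have no induced `H i`. -/
theorem exists_girth {ι : Type} [Finite ι] {V : ι → Type} (H : ∀ i, SimpleGraph (V i))
    (hH : ∀ i, ¬ (H i).IsAcyclic) : ∃ g, ∀ Δ I, Nice g Δ I → Free H I := by
  have hcyc : ∀ i, ∃ (a : V i) (p : (H i).Walk a a), p.IsCycle := by
    intro i
    have := hH i
    unfold SimpleGraph.IsAcyclic at this
    push Not at this
    exact this
  choose a p hp using hcyc
  have := Fintype.ofFinite ι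
  refine ⟨∑ i, (p i).length, fun Δ I h i => isEmpty_of_girth (hp i) ?_ h.2.2⟩
  exact Finset.single_le_sum (f := fun i => (p i).length) (fun _ _ => Nat.zero_le _)
    (Finset.mem_univ i)

end Pool.Agent.H697.SSE
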