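import Pool.Agent.H697.SSE.Defs

/-!
# Rounding a fractional set of vertices
-/

namespace Pool.Agent.H697.SSE

open Finset

variable {n d : ℕ} {A : Finset (ℕ × ℕ)}

/-- The vertices with a fractional value. -/
noncomputable def Fr (n : ℕ) (h : ℕ → ℝ) : Finset ℕ := (range n).filter fun u => 0 < h u ∧ h u < 1

/-- The quadratic form, with a correction on `K`. -/
noncomputable def Th (A : Finset (ℕ × ℕ)) (K : Finset ℕ) (h : ℕ → ℝ) : ℝ :=
  ∑ e ∈ A, h e.1 * h e.2 + ∑ u ∈ K, h u ^ 2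

/-- Moving weight from `v` to `u`. -/
noncomputable def mv (u v : ℕ) (s : ℝ) (h : ℕ → ℝ) (w : ℕ) : ℝ :=
  h w + s * ((if w = u then 1 else 0) - if w = v then 1 else 0)

theorem Th_mv (h : ℕ → ℝ) {u v : ℕ} (K : Finset ℕ) (hA : ∀ e ∈ A, e.1 ≠ e.2)
    (hs : ∀ e ∈ A, (e.2, e.1) ∈ A) (huv : u ≠ v) (hK : (u, v) ∉ A ∨ (u ∈ K ∧ v ∈ K)) :
    ∃ l q : ℝ, 0 ≤ q ∧ ∀ s, Th A K (mv u v s h) = Th A K h + l * s + q * s ^ 2 := by
  set g : ℕ → ℝ := fun w => (if w = u then 1 else 0) - if w = v then 1 else 0 with hg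
  refine ⟨∑ e ∈ A, (h e.1 * g e.2 + g e.1 * h e.2) + ∑ w ∈ K, 2 * (h w * g w),
    ∑ e ∈ A, g e.1 * g e.2 + ∑ w ∈ K, g w ^ 2, ?_, ?_⟩
  · have h1 : ∀ e ∈ A, -((if e = (u, v) then (1 : ℝ) else 0) + if e = (v, u) then 1 else 0) ≤
        g e.1 * g e.2 := by
      intro e he
      have h0 := hA e he
      obtain ⟨a, b⟩ := e
      simp only [hg, Prod.mk.injEq]
      dsimp only at h0
      by_cases h1 : a = u <;> by_cases h2 : a = v <;> by_cases h3 : b = u <;>
        by_cases h4 : b = v <;> simp_all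
    have h2 := sum_le_sum h1
    rw [sum_neg_distrib, sum_add_distrib, sum_ite_eq', sum_ite_eq'] at h2
    have h3 : ∀ w, 0 ≤ g w ^ 2 := fun w => sq_nonneg _
    rcases hK with hK | ⟨hu, hv⟩
    · have hK' : (v, u) ∉ A := fun h => hK (hs _ h)
      rw [if_neg hK, if_neg hK'] at h2
      have h4 := sum_nonneg fun w (_ : w ∈ K) => h3 w
      linarith
    · have h4 : (2 : ℝ) ≤ ∑ w ∈ K, g w ^ 2 := by
        have h5 : ({u, v} : Finset ℕ) ⊆ K := by
          intro w hw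
          rw [mem_insert, mem_singleton] at hw
          rcases hw with rfl | rfl
          · exact hu
          · exact hv
        refine le_trans (le_of_eq ?_) (sum_le_sum_of_subset_of_nonneg h5 fun w _ _ => h3 w)
        rw [sum_pair huv]
        simp only [hg, if_true, if_neg huv, if_neg huv.symm]
        norm_num
      have h6 : (if (u, v) ∈ A then (1 : ℝ) else 0) ≤ 1 := by split_ifs <;> norm_num
      have h7 : (if (v, u) ∈ A then (1 : ℝ) else 0) ≤ 1 := by split_ifs <;> norm_num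
      linarith
  · intro s
    unfold Th mv
    have h1 : ∑ e ∈ A, (h e.1 + s * g e.1) * (h e.2 + s * g e.2) =
        ∑ e ∈ A, h e.1 * h e.2 + (∑ e ∈ A, (h e.1 * g e.2 + g e.1 * h e.2)) * s +
          (∑ e ∈ A, g e.1 * g e.2) * s ^ 2 := by
      rw [sum_mul, sum_mul, ← sum_add_distrib, ← sum_add_distrib]
      exact sum_congr rfl fun e _ => by ring
    have h2 : ∑ w ∈ K, (h w + s * g w) ^ 2 = ∑ w ∈ K, h w ^ 2 + (∑ w ∈ K, 2 * (h w * g w)) * s +
        (∑ w ∈ K, g w ^ 2) * s ^ 2 := by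
      rw [sum_mul, sum_mul, ← sum_add_distrib, ← sum_add_distrib]
      exact sum_congr rfl fun e _ => by ring
    simp only [hg] at h1 h2 ⊢
    rw [h1, h2]
    ring

theorem pipage_step (h : ℕ → ℝ) (h01 : ∀ u < n, 0 ≤ h u ∧ h u ≤ 1) {u v : ℕ} (K : Finset ℕ)
    (hA : ∀ e ∈ A, e.1 ≠ e.2) (hs : ∀ e ∈ A, (e.2, e.1) ∈ A) (huv : u ≠ v)
    (hu : u ∈ Fr n h) (hv : v ∈ Fr n h) (hK : (u, v) ∉ A ∨ (u ∈ K ∧ v ∈ K)) :
    ∃ h' : ℕ → ℝ, (∀ u < n, 0 ≤ h' u ∧ h' u ≤ 1) ∧ ∑ u ∈ range n, h' u = ∑ u ∈ range n, h u ∧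
      Th A K h ≤ Th A K h' ∧ Fr n h' ⊆ Fr n h ∧ (Fr n h').card < (Fr n h).card := by
  obtain ⟨l, q, hq, hTh⟩ := Th_mv (A := A) h K hA hs huv hK
  obtain ⟨hun, hu0, hu1⟩ := mem_filter.1 hu
  obtain ⟨hvn, hv0, hv1⟩ := mem_filter.1 hv
  have key : ∀ s : ℝ, 0 ≤ h u + s → h u + s ≤ 1 → 0 ≤ h v - s → h v - s ≤ 1 →
      (h u + s = 0 ∨ h u + s = 1 ∨ h v - s = 0 ∨ h v - s = 1) → 0 ≤ l * s →
      ∃ h' : ℕ → ℝ, (∀ u < n, 0 ≤ h' u ∧ h' u ≤ 1) ∧
        ∑ u ∈ range n, h' u = ∑ u ∈ range n, h u ∧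
        Th A K h ≤ Th A K h' ∧ Fr n h' ⊆ Fr n h ∧ (Fr n h').card < (Fr n h).card := by
    intro s a1 a2 a3 a4 a5 a6
    have hmu : mv u v s h u = h u + s := by simp [mv, huv]
    have hmv : mv u v s h v = h v - s := by simp [mv, huv.symm]; ring
    have hmw : ∀ w, w ≠ u → w ≠ v → mv u v s h w = h w := by
      intro w h1 h2
      simp [mv, h1, h2]
    have hsub : Fr n (mv u v s h) ⊆ Fr n h := by
      intro w hw
      obtain ⟨b1, b2, b3⟩ := mem_filter.1 hw
      by_cases c1 : w = u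
      · rw [c1]; exact hu
      · by_cases c2 : w = v
        · rw [c2]; exact hv
        · rw [hmw w c1 c2] at b2 b3
          exact mem_filter.2 ⟨b1, b2, b3⟩
    refine ⟨mv u v s h, ?_, ?_, ?_, hsub, ?_⟩
    · intro w hw
      by_cases c1 : w = u
      · rw [c1, hmu]; exact ⟨a1, a2⟩
      · by_cases c2 : w = v
        · rw [c2, hmv]; exact ⟨a3, a4⟩
        · rw [hmw w c1 c2]; exact h01 w hw
    · unfold mv
      rw [sum_add_distrib, ← mul_sum, sum_sub_distrib, sum_ite_eq', sum_ite_eq', if_pos hun,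
        if_pos hvn]
      ring
    · rw [hTh]
      have : 0 ≤ q * s ^ 2 := by positivity
      linarith
    · apply card_lt_card
      refine ⟨hsub, fun hsub' => ?_⟩
      have b1 := hsub' hu
      have b2 := hsub' hv
      obtain ⟨_, b3, b4⟩ := mem_filter.1 b1
      obtain ⟨_, b5, b6⟩ := mem_filter.1 b2
      rw [hmu] at b3 b4
      rw [hmv] at b5 b6
      rcases a5 with a5 | a5 | a5 | a5 <;> linarith
  rcases le_or_gt 0 l with hl | hl
  · have h1 : min (1 - h u) (h v) ≤ 1 - h u := min_le_left _ _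
    have h2 : min (1 - h u) (h v) ≤ h v := min_le_right _ _
    have h3 : 0 ≤ min (1 - h u) (h v) := le_min (by linarith) (by linarith)
    refine key (min (1 - h u) (h v)) (by linarith) (by linarith) (by linarith) (by linarith) ?_
      (mul_nonneg hl h3)
    rcases min_choice (1 - h u) (h v) with h4 | h4
    · right; left
      rw [h4]; ring
    · right; right; left
      rw [h4]; ring
  · have h1 : min (h u) (1 - h v) ≤ h u := min_le_left _ _
    have h2 : min (h u) (1 - h v) ≤ 1 - h v := min_le_right _ _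
    have h3 : 0 ≤ min (h u) (1 - h v) := le_min (by linarith) (by linarith)
    refine key (-min (h u) (1 - h v)) (by linarith) (by linarith) (by linarith) (by linarith) ?_
      (by nlinarith)
    rcases min_choice (h u) (1 - h v) with h4 | h4
    · left
      rw [h4]; ring
    · right; right; right
      rw [h4]; ring

theorem pipage (K : Finset ℕ) (hA : ∀ e ∈ A, e.1 ≠ e.2) (hs : ∀ e ∈ A, (e.2, e.1) ∈ A) :
    ∀ (m : ℕ) (h : ℕ → ℝ), (∀ u < n, 0 ≤ h u ∧ h u ≤ 1) → (Fr n h).card ≤ m →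
    ∃ h' : ℕ → ℝ, (∀ u < n, 0 ≤ h' u ∧ h' u ≤ 1) ∧ ∑ u ∈ range n, h' u = ∑ u ∈ range n, h u ∧
      Th A K h ≤ Th A K h' ∧ Fr n h' ⊆ Fr n h ∧
      ∀ u ∈ Fr n h', ∀ v ∈ Fr n h', u ≠ v → (u, v) ∈ A ∧ ¬ (u ∈ K ∧ v ∈ K) := by
  intro m
  induction m with
  | zero =>
    intro h h01 hm
    refine ⟨h, h01, rfl, le_rfl, Subset.refl _, fun u hu => ?_⟩
    rw [Nat.le_zero, card_eq_zero] at hm
    rw [hm] at hu
    exact absurd hu (notMem_empty _)
  | succ m ih =>
    intro h h01 hm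
    by_cases hall : ∀ u ∈ Fr n h, ∀ v ∈ Fr n h, u ≠ v → (u, v) ∈ A ∧ ¬ (u ∈ K ∧ v ∈ K)
    · exact ⟨h, h01, rfl, le_rfl, Subset.refl _, hall⟩
    · push Not at hall
      obtain ⟨u, hu, v, hv, huv, hcon⟩ := hall
      have hK : (u, v) ∉ A ∨ (u ∈ K ∧ v ∈ K) := by
        by_cases h1 : (u, v) ∈ A
        · exact Or.inr (hcon h1)
        · exact Or.inl h1
      obtain ⟨h₁, a1, a2, a3, a4, a5⟩ := pipage_step h h01 K hA hs huv hu hv hK
      obtain ⟨h₂, b1, b2, b3, b4, b5⟩ := ih h₁ a1 (by omega)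
      exact ⟨h₂, b1, b2.trans a2, a3.trans b3, b4.trans a4, b5⟩

/-- **Rounding.** The fractional optimum of the quadratic form exceeds the optimum over sets by at
most `d + 1`. -/
theorem RG.round (hrg : RG n d A) {k : ℕ} (h : ℕ → ℝ) (h01 : ∀ u < n, 0 ≤ h u ∧ h u ≤ 1)
    (hsum : ∑ u ∈ range n, h u = k) :
    ∃ S ⊆ range n, S.card = k ∧ ∑ e ∈ A, h e.1 * h e.2 ≤ inner A S + (d + 1) := by
  obtain ⟨h₁, a1, a2, a3, -, a5⟩ := pipage (n := n) ∅ hrg.irr hrg.symm _ h h01 le_rfl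
  set K := Fr n h₁ with hK
  obtain ⟨h₂, b1, b2, b3, b4, b5⟩ := pipage (n := n) K hrg.irr hrg.symm _ h₁ a1 le_rfl
  have hKcard : K.card ≤ d + 1 := by
    by_cases hne : K.Nonempty
    · obtain ⟨u, hu⟩ := hne
      have h1 : (K.erase u).card ≤ d := by
        refine le_trans ?_ (hrg.dgS_le K u)
        unfold dgS
        refine card_le_card_of_injOn (fun v => (u, v)) ?_ ?_
        · intro v hv
          obtain ⟨h2, h3⟩ := mem_erase.1 hv
          exact mem_filter.2 ⟨(a5 u hu v h3 h2.symm).1, rfl, h3⟩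
        · intro v _ v' _ heq
          exact (Prod.mk.inj heq).2
      rw [card_erase_of_mem hu] at h1
      omega
    · rw [not_nonempty_iff_eq_empty] at hne
      rw [hne]
      simp
  have hFr2 : (Fr n h₂).card ≤ 1 := by
    rw [card_le_one]
    intro u hu v hv
    by_contra huv
    exact (b5 u hu v hv huv).2 ⟨b4 hu, b4 hv⟩
  set S : Finset ℕ := (range n).filter fun u => h₂ u = 1 with hS
  have hval : ∀ u ∈ range n, u ∉ Fr n h₂ → h₂ u = if u ∈ S then 1 else 0 := by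
    intro u hu hfr
    have h1 := b1 u (mem_range.1 hu)
    by_cases h2 : h₂ u = 1
    · rw [if_pos (mem_filter.2 ⟨hu, h2⟩), h2]
    · have h2' : u ∉ S := fun h3 => h2 (mem_filter.1 h3).2
      rw [if_neg h2']
      by_contra h3
      apply hfr
      exact mem_filter.2 ⟨hu, lt_of_le_of_ne h1.1 (Ne.symm h3), lt_of_le_of_ne h1.2 h2⟩
  have hFr0 : Fr n h₂ = ∅ := by
    by_contra hne
    obtain ⟨u, hu⟩ := nonempty_iff_ne_empty.2 hne
    have hun : u ∈ range n := (mem_filter.1 hu).1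
    have h1 : Fr n h₂ = {u} := by
      rw [eq_singleton_iff_unique_mem]
      exact ⟨hu, fun v hv => (card_le_one.1 hFr2) v hv u hu⟩
    have h2 : ∑ w ∈ range n, h₂ w = h₂ u + ((S.erase u).card : ℝ) := by
      rw [← add_sum_erase _ _ hun]
      congr 1
      have h3 : ∑ w ∈ (range n).erase u, h₂ w = ∑ w ∈ (range n).erase u,
          if w ∈ S.erase u then (1 : ℝ) else 0 := by
        refine sum_congr rfl fun w hw => ?_
        obtain ⟨h4, h5⟩ := mem_erase.1 hw
        rw [hval w h5 (by rw [h1, mem_singleton]; exact h4)]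
        by_cases h6 : w ∈ S
        · rw [if_pos h6, if_pos (mem_erase.2 ⟨h4, h6⟩)]
        · rw [if_neg h6, if_neg fun h7 => h6 (mem_of_mem_erase h7)]
      rw [h3, sum_ite_mem, sum_const, nsmul_eq_mul, mul_one]
      congr 2
      ext w
      simp only [mem_inter, mem_erase, hS, mem_filter]
      tauto
    rw [b2, a2, hsum] at h2
    obtain ⟨_, h3, h4⟩ := mem_filter.1 hu
    have h5 : ((S.erase u).card : ℝ) < k := by linarith
    have h6 : (k : ℝ) < (S.erase u).card + 1 := by linarith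
    have h7 : (S.erase u).card < k := by exact_mod_cast h5
    have h8 : k < (S.erase u).card + 1 := by exact_mod_cast h6
    omega
  have hval' : ∀ u ∈ range n, h₂ u = if u ∈ S then 1 else 0 := fun u hu =>
    hval u hu (by rw [hFr0]; exact notMem_empty _)
  have hScard : S.card = k := by
    have h1 : ∑ w ∈ range n, h₂ w = (S.card : ℝ) := by
      rw [sum_congr rfl hval', sum_ite_mem, sum_const, nsmul_eq_mul, mul_one]
      congr 2
      exact inter_eq_right.2 (filter_subset _ _)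
    rw [b2, a2, hsum] at h1
    exact_mod_cast h1.symm
  refine ⟨S, filter_subset _ _, hScard, ?_⟩
  have c1 : ∑ e ∈ A, h e.1 * h e.2 ≤ ∑ e ∈ A, h₁ e.1 * h₁ e.2 := by
    have := a3
    unfold Th at this
    simpa using this
  have c2 : ∑ e ∈ A, h₁ e.1 * h₁ e.2 ≤ Th A K h₁ := by
    unfold Th
    have : 0 ≤ ∑ u ∈ K, h₁ u ^ 2 := sum_nonneg fun _ _ => sq_nonneg _
    linarith
  have c3 : Th A K h₂ ≤ inner A S + (d + 1) := by
    unfold Th
    refine add_le_add (le_of_eq ?_) ?_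
    · unfold inner
      rw [card_filter]
      push_cast
      refine sum_congr rfl fun e he => ?_
      rw [hval' e.1 (mem_range.2 (hrg.lt e he)), hval' e.2 (mem_range.2 (hrg.lt2 he))]
      by_cases h1 : e.1 ∈ S <;> by_cases h2 : e.2 ∈ S <;> simp [h1, h2]
    · have h1 : ∑ u ∈ K, h₂ u ^ 2 ≤ ∑ _u ∈ K, (1 : ℝ) := by
        refine sum_le_sum fun u hu => ?_
        have h2 := b1 u (mem_range.1 (mem_filter.1 hu).1)
        exact pow_le_one₀ h2.1 h2.2
      rw [sum_const, nsmul_eq_mul, mul_one] at h1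
      refine h1.trans ?_
      exact_mod_cast hKcard
  linarith

end Pool.Agent.H697.SSE
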