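import Pool.Agent.H697.SSE.RedStruct
import Pool.Agent.H697.SSE.Pipage
import Pool.Agent.H697.Red.Value

/-!
# The reduction to small-set expansion in graphs of large girth: completeness and soundness
-/

namespace Pool.Agent.H697.SRed

open Finset Pool.Agent.H697.Exp Pool.Agent.H697.SSE Pool.Agent.H697.Red Pool.Agent.H697.Forest

variable {k : ℕ × ℕ → ℕ} {t N D : ℕ} {B : Wd t × Wd t → Finset (ℕ × ℕ)} {I : Inst}

/-! ### Sets of new vertices -/

/-- All codes. -/
def boxes (n m N : ℕ) [NeZero m] : Finset (ℕ × (ℕ × ((ZMod m × ZMod m) × ℕ))) :=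
  range 2 ×ˢ (range n ×ˢ (univ ×ˢ range N))

theorem card_codes {n m N : ℕ} [NeZero m] (S : Finset ℕ) (hS : S ⊆ range (2 * n * m * m * N)) :
    S.card = ∑ s ∈ range 2, ∑ u ∈ range n, ∑ z : ZMod m × ZMod m,
      ((range N).filter fun x => cd n N s u z x ∈ S).card := by
  classical
  have h1 : S.card = ((boxes n m N).filter fun q => cd n N q.1 q.2.1 q.2.2.1 q.2.2.2 ∈ S).card := by
    symm
    refine card_bij (fun q _ => cd n N q.1 q.2.1 q.2.2.1 q.2.2.2) ?_ ?_ ?_
    · intro q hq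
      exact (mem_filter.1 hq).2
    · rintro ⟨s, u, z, x⟩ hq ⟨s', u', z', x'⟩ hq' heq
      simp only [boxes, mem_filter, mem_product, mem_range] at hq hq'
      dsimp only at heq
      obtain ⟨h1, h2, h3, h4⟩ := cd_inj hq.1.2.1 hq'.1.2.1 hq.1.2.2.2 hq'.1.2.2.2 heq
      rw [h1, h2, h3, h4]
    · intro v hv
      obtain ⟨s, hs, u, hu, z, x, hx, rfl⟩ := cd_surj (mem_range.1 (hS hv))
      refine ⟨(s, u, z, x), mem_filter.2 ⟨?_, hv⟩, rfl⟩
      simp only [boxes, mem_product, mem_range, mem_univ, true_and]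
      exact ⟨hs, hu, hx⟩
  rw [h1, card_filter]
  unfold boxes
  rw [sum_product]
  refine sum_congr rfl fun s _ => ?_
  rw [sum_product]
  refine sum_congr rfl fun u _ => ?_
  rw [sum_product]
  refine sum_congr rfl fun z _ => ?_
  rw [card_filter]

/-- The old vertex of a code. -/
def dec (n m N v : ℕ) : ℕ := v / N / m / m % n

theorem dec_cd {n N s u m : ℕ} [NeZero m] {z : ZMod m × ZMod m} {x : ℕ} (hu : u < n)
    (hx : x < N) : dec n m N (cd n N s u z x) = u := by
  have hm : 0 < m := Nat.pos_of_ne_zero (NeZero.ne m)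
  have hN : 0 < N := by omega
  unfold dec cd
  rw [mul_comm _ N, Nat.mul_add_div hN, Nat.div_eq_of_lt hx, Nat.add_zero, mul_comm _ m,
    Nat.mul_add_div hm, Nat.div_eq_of_lt (ZMod.val_lt _), Nat.add_zero, mul_comm _ m,
    Nat.mul_add_div hm, Nat.div_eq_of_lt (ZMod.val_lt _), Nat.add_zero, mul_comm _ n,
    Nat.mul_add_mod, Nat.mod_eq_of_lt hu]

/-- The new vertices over a set of old vertices. -/
def lift (n m N : ℕ) (S : Finset ℕ) : Finset ℕ :=
  (range (2 * n * m * m * N)).filter fun v => dec n m N v ∈ S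

theorem mem_lift {n N s u m : ℕ} [NeZero m] {z : ZMod m × ZMod m} {x : ℕ} (hs : s < 2)
    (hu : u < n) (hx : x < N) {S : Finset ℕ} : cd n N s u z x ∈ lift n m N S ↔ u ∈ S := by
  unfold lift
  rw [mem_filter, dec_cd hu hx, mem_range]
  exact ⟨fun h => h.2, fun h => ⟨cd_lt hs hu hx, h⟩⟩

theorem card_lift {n m N : ℕ} [NeZero m] {S : Finset ℕ} (hS : S ⊆ range n) :
    (lift n m N S).card = 2 * S.card * m * m * N := by
  rw [card_codes (n := n) (m := m) (N := N) (lift n m N S) (filter_subset _ _)]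
  have h1 : ∀ s ∈ range 2, ∑ u ∈ range n, ∑ z : ZMod m × ZMod m,
      ((range N).filter fun x => cd n N s u z x ∈ lift n m N S).card = S.card * (m * m * N) := by
    intro s hs
    have h2 : ∀ u ∈ range n, ∑ z : ZMod m × ZMod m,
        ((range N).filter fun x => cd n N s u z x ∈ lift n m N S).card =
        if u ∈ S then m * m * N else 0 := by
      intro u hu
      have h3 : ∀ z : ZMod m × ZMod m,
          ((range N).filter fun x => cd n N s u z x ∈ lift n m N S).card =
          if u ∈ S then N else 0 := by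
        intro z
        rw [filter_congr fun x hx => mem_lift (mem_range.1 hs) (mem_range.1 hu) (mem_range.1 hx)]
        split_ifs with h4
        · rw [filter_true_of_mem fun _ _ => h4, card_range]
        · rw [filter_false_of_mem fun _ _ => h4, card_empty]
      rw [sum_congr rfl fun z _ => h3 z, sum_const, card_univ, Fintype.card_prod, ZMod.card,
        smul_eq_mul]
      split_ifs <;> simp
    rw [sum_congr rfl h2, sum_ite_mem, sum_const, inter_eq_right.2 hS, smul_eq_mul]
  rw [sum_congr rfl h1, sum_const, card_range, smul_eq_mul]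
  ring

theorem cut_swap (h : IsReg I) (S : Finset ℕ) :
    ((darts I).filter fun e => decide (e.2 ∈ S) && !decide (e.1 ∈ S)).length = cut I S := by
  unfold cut
  rw [filter_toFinset_card _ h.2.1, filter_toFinset_card _ h.2.1]
  refine card_bij (fun e _ => (e.2, e.1)) ?_ ?_ ?_
  · intro e he
    obtain ⟨h1, h2⟩ := mem_filter.1 he
    exact mem_filter.2 ⟨h.rg.symm e h1, h2⟩
  · intro e _ e' _ heq
    have := Prod.mk.inj heq
    exact Prod.ext this.2 this.1
  · intro e he
    obtain ⟨h1, h2⟩ := mem_filter.1 he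
    exact ⟨(e.2, e.1), mem_filter.2 ⟨h.rg.symm e h1, h2⟩, rfl⟩

theorem cut_Phi {g : ℕ} {τ : ℝ} (hG : RGadget (Wd t × Wd t) g τ D N B) (h : IsReg I)
    (hn : 0 < nV I) (S : Finset ℕ) :
    cut (Phi D N B I) (lift (nV I) (sd I) N S) =
      2 * (dg I * (Fintype.card (Wd t × Wd t) * (D * N)) * cut I S) := by
  have key : ∀ (Q : ℕ × ℕ → Bool) (Q' : ℕ × ℕ → Bool),
      (∀ i < dg I, ∀ c, ∀ xy ∈ B c, ∀ p : Fin (darts I).length,
        Q (out N I i c xy ((darts I)[p], (p : ℕ))) = Q' (darts I)[p]) →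
      ((half N B I).filter Q).length =
        dg I * (Fintype.card (Wd t × Wd t) * (D * N)) * ((darts I).filter Q').length := by
    intro Q Q' hQ
    rw [filter_half, bb_eq h hn]
    have h1 : ∀ i ∈ range (dg I), ∀ c ∈ (univ : Finset (Wd t × Wd t)), ∀ xy ∈ B c,
        (univ.filter fun p : Fin (darts I).length =>
          Q (out N I i c xy ((darts I)[p], (p : ℕ))) = true).card =
        ((darts I).filter Q').length := by
      intro i hi c _ xy hxy
      rw [filter_ofFn]
      congr 1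
      ext p
      simp only [mem_filter, mem_univ, true_and]
      rw [hQ i (mem_range.1 hi) c xy hxy p]
    rw [sum_congr rfl fun i hi => sum_congr rfl fun c hc => sum_congr rfl fun xy hxy =>
      h1 i hi c hc xy hxy]
    simp only [sum_const, smul_eq_mul, card_range, hG.card, card_univ]
    ring
  have hmemL : ∀ i < dg I, ∀ c : Wd t × Wd t, ∀ xy ∈ B c, ∀ p : Fin (darts I).length,
      (out N I i c xy ((darts I)[p], (p : ℕ))).1 ∈ lift (nV I) (sd I) N S ↔
        (darts I)[p].1 ∈ S := by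
    intro i _ c xy hxy p
    exact mem_lift (by norm_num) ((keyOk_fst h).1 p) (hG.lt c xy hxy).1
  have hmemR : ∀ i < dg I, ∀ c : Wd t × Wd t, ∀ xy ∈ B c, ∀ p : Fin (darts I).length,
      (out N I i c xy ((darts I)[p], (p : ℕ))).2 ∈ lift (nV I) (sd I) N S ↔
        (darts I)[p].2 ∈ S := by
    intro i _ c xy hxy p
    exact mem_lift (by norm_num) ((keyOk_snd h).1 p) (hG.lt c xy hxy).2
  have e1 : cut (Phi D N B I) (lift (nV I) (sd I) N S) =
      ((half N B I).filter fun e => decide (e.1 ∈ lift (nV I) (sd I) N S) &&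
        !decide (e.2 ∈ lift (nV I) (sd I) N S)).length +
      ((half N B I).filter fun e => decide (e.2 ∈ lift (nV I) (sd I) N S) &&
        !decide (e.1 ∈ lift (nV I) (sd I) N S)).length := filter_Phi _
  have e2 := key (fun e => decide (e.1 ∈ lift (nV I) (sd I) N S) &&
        !decide (e.2 ∈ lift (nV I) (sd I) N S)) (fun e => decide (e.1 ∈ S) && !decide (e.2 ∈ S))
    (fun i hi c xy hxy p => by
      rw [decide_eq_decide.2 (hmemL i hi c xy hxy p), decide_eq_decide.2 (hmemR i hi c xy hxy p)])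
  have e3 := key (fun e => decide (e.2 ∈ lift (nV I) (sd I) N S) &&
        !decide (e.1 ∈ lift (nV I) (sd I) N S)) (fun e => decide (e.2 ∈ S) && !decide (e.1 ∈ S))
    (fun i hi c xy hxy p => by
      rw [decide_eq_decide.2 (hmemL i hi c xy hxy p), decide_eq_decide.2 (hmemR i hi c xy hxy p)])
  rw [cut_swap h] at e3
  have e4 : ((darts I).filter fun e => decide (e.1 ∈ S) && !decide (e.2 ∈ S)).length = cut I S := rfl
  rw [e4] at e2
  rw [e1, e2, e3]
  ring

/-- The reduction maps yes-instances to yes-instances. -/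
theorem yes_Phi {g : ℕ} {τ : ℝ} (hG : RGadget (Wd t × Wd t) g τ D N B) {η δ : ℚ}
    (hY : Yes η δ I) : Yes η δ (Phi D N B I) := by
  obtain ⟨h, k, hk0, hk, S, hSn, hSk, hcut⟩ := hY
  have hn : 0 < nV I := by
    rcases Nat.eq_zero_or_pos (nV I) with h0 | h0
    · rw [h0, Nat.cast_zero, mul_zero] at hk
      have : k = 0 := by exact_mod_cast hk
      omega
    · exact h0
  have hm : 0 < sd I := Nat.succ_pos _
  refine ⟨isReg_Phi hG h hn, 2 * k * sd I * sd I * N, ?_, ?_, lift (nV I) (sd I) N S,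
    filter_subset _ _, ?_, ?_⟩
  · have := hG.posN
    positivity
  · have h1 : nV (Phi D N B I) = 2 * nV I * sd I * sd I * N := rfl
    rw [h1]
    push_cast
    rw [hk]
    ring
  · rw [card_lift hSn, hSk]
  · rw [cut_Phi hG h hn]
    have h2 : dg (Phi D N B I) = Fintype.card (Wd t × Wd t) * D := rfl
    rw [h2, sd_eq h]
    push_cast
    have h3 : (0 : ℚ) ≤ 2 * (dg I * (Fintype.card (Wd t × Wd t) * (D * N))) := by positivity
    have h4 := mul_le_mul_of_nonneg_left hcut h3
    linarith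

/-! ### Soundness -/

/-- The fraction of the copies of a point that lie in the set. -/
noncomputable def fr (n N s : ℕ) (S : Finset ℕ) (u : ℕ) {m : ℕ} (z : ZMod m × ZMod m) : ℝ :=
  (((range N).filter fun x => cd n N s u z x ∈ S).card : ℝ) / N

theorem fr_nonneg (n N s : ℕ) (S : Finset ℕ) (u : ℕ) {m : ℕ} (z : ZMod m × ZMod m) :
    0 ≤ fr n N s S u z := by unfold fr; positivity

theorem fr_le (n s : ℕ) {N : ℕ} (hN : 0 < N) (S : Finset ℕ) (u : ℕ) {m : ℕ}
    (z : ZMod m × ZMod m) : fr n N s S u z ≤ 1 := by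
  unfold fr
  have hN' : (0 : ℝ) < N := by exact_mod_cast hN
  rw [div_le_one hN']
  have h1 := card_filter_le (range N) fun x => cd n N s u z x ∈ S
  rw [card_range] at h1
  exact_mod_cast h1

theorem local_le {g : ℕ} {τ : ℝ} (hG : RGadget (Wd t × Wd t) g τ D N B) (S : Finset ℕ) (i : ℕ)
    (c : Wd t × Wd t) (p : Fin (darts I).length) :
    (((B c).filter fun xy => (out N I i c xy ((darts I)[p], (p : ℕ))).1 ∈ S ∧
      (out N I i c xy ((darts I)[p], (p : ℕ))).2 ∈ S).card : ℝ) ≤
      D * N * (fr (nV I) N 0 S (darts I)[p].1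
          (act c.1 (pos (sd I) (slt Prod.fst I i p (darts I)[p].1))) *
        fr (nV I) N 1 S (darts I)[p].2
          (act c.2 (pos (sd I) (slt Prod.snd I i p (darts I)[p].2)))) + τ * (D * N) := by
  have hN' : (N : ℝ) ≠ 0 := by exact_mod_cast hG.posN.ne'
  set z := act c.1 (pos (sd I) (slt Prod.fst I i p (darts I)[p].1)) with hz
  set z' := act c.2 (pos (sd I) (slt Prod.snd I i p (darts I)[p].2)) with hz'
  set A : Finset ℕ := (range N).filter fun x => cd (nV I) N 0 (darts I)[p].1 z x ∈ S with hA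
  set A' : Finset ℕ := (range N).filter fun x => cd (nV I) N 1 (darts I)[p].2 z' x ∈ S with hA'
  have h1 : ((B c).filter fun xy => (out N I i c xy ((darts I)[p], (p : ℕ))).1 ∈ S ∧
      (out N I i c xy ((darts I)[p], (p : ℕ))).2 ∈ S) ⊆
      (B c).filter fun xy => xy.1 ∈ A ∧ xy.2 ∈ A' := by
    intro xy hxy
    obtain ⟨a1, a2, a3⟩ := mem_filter.1 hxy
    have a4 := hG.lt c xy a1
    exact mem_filter.2 ⟨a1, mem_filter.2 ⟨mem_range.2 a4.1, a2⟩,
      mem_filter.2 ⟨mem_range.2 a4.2, a3⟩⟩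
  have h2 : (((B c).filter fun xy => (out N I i c xy ((darts I)[p], (p : ℕ))).1 ∈ S ∧
      (out N I i c xy ((darts I)[p], (p : ℕ))).2 ∈ S).card : ℝ) ≤
      ((B c).filter fun xy => xy.1 ∈ A ∧ xy.2 ∈ A').card := by exact_mod_cast card_le_card h1
  refine h2.trans ((hG.disc c A (filter_subset _ _) A' (filter_subset _ _)).trans (le_of_eq ?_))
  unfold fr
  rw [← hA, ← hA']
  field_simp

theorem half_count (S : Finset ℕ) :
    ((((half N B I).filter fun e => decide (e.1 ∈ S) && decide (e.2 ∈ S)).length : ℕ) : ℝ) =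
      ∑ p : Fin (darts I).length, ∑ i ∈ range (bb I), ∑ c,
        (((B c).filter fun xy => (out N I i c xy ((darts I)[p], (p : ℕ))).1 ∈ S ∧
          (out N I i c xy ((darts I)[p], (p : ℕ))).2 ∈ S).card : ℝ) := by
  have h1 : ((half N B I).filter fun e => decide (e.1 ∈ S) && decide (e.2 ∈ S)).length =
      ∑ p : Fin (darts I).length, ∑ i ∈ range (bb I), ∑ c,
        ((B c).filter fun xy => (out N I i c xy ((darts I)[p], (p : ℕ))).1 ∈ S ∧
          (out N I i c xy ((darts I)[p], (p : ℕ))).2 ∈ S).card := by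
    rw [filter_half]
    simp only [card_filter, Bool.and_eq_true, decide_eq_true_eq]
    refine (sum_congr rfl fun i _ => sum_congr rfl fun c _ => sum_comm).trans ?_
    refine (sum_congr rfl fun i _ => sum_comm).trans ?_
    exact sum_comm
  rw [h1]
  push_cast
  rfl

theorem length_darts (h : IsReg I) : (darts I).length = dg I * nV I := by
  have h2 := h.rg.inner_add_outer (Subset.refl (range (nV I)))
  rw [card_range] at h2
  rw [← h2, ← List.toFinset_card_of_nodup h.2.1]
  have h3 : outer (darts I).toFinset (range (nV I)) = 0 := by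
    unfold outer
    rw [card_eq_zero, filter_eq_empty_iff]
    rintro e he ⟨_, h4⟩
    exact h4 (mem_range.2 (h.rg.lt2 he))
  rw [h3, Nat.add_zero]
  unfold SSE.inner
  rw [filter_true_of_mem]
  intro e he
  exact ⟨mem_range.2 (h.rg.lt e he), mem_range.2 (h.rg.lt2 he)⟩

theorem dev_one (h : IsReg I) (hk : KeyOk I k) (hn : 0 < nV I)
    (F : ℕ → ZMod (sd I) × ZMod (sd I) → ℝ) (hF0 : ∀ u z, 0 ≤ F u z) (hF1 : ∀ u z, F u z ≤ 1)
    (t : ℕ) : ∑ p : Fin (darts I).length, ∑ i ∈ range (dg I),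
      |avg t (F (k (darts I)[p])) (pos (sd I) (slt k I i p (k (darts I)[p]))) -
        mean (F (k (darts I)[p]))| ≤ (73 / 80) ^ t * (dg I * (darts I).length) * 2 := by
  classical
  have hlen := length_darts h
  have hm : ∑ u ∈ univ.image (fun p : Fin (darts I).length => k (darts I)[p]),
      ((sd I : ℕ) : ℝ) ^ 2 ≤ 2 * (dg I * Fintype.card (Fin (darts I).length)) := by
    have hlen' : ((darts I).length : ℝ) = dg I * nV I := by exact_mod_cast hlen
    rw [sum_const, nsmul_eq_mul, Fintype.card_fin, hlen', sd_eq h]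
    have h1 : (univ.image (fun p : Fin (darts I).length => k (darts I)[p])).card ≤ nV I := by
      rw [← card_range (nV I)]
      apply card_le_card
      intro u hu
      obtain ⟨p, _, rfl⟩ := mem_image.1 hu
      exact mem_range.2 (hk.1 p)
    have h2 : ((univ.image (fun p : Fin (darts I).length => k (darts I)[p])).card : ℝ) ≤ nV I := by
      exact_mod_cast h1
    have h3 : (0 : ℝ) ≤ (dg I : ℝ) ^ 2 := by positivity
    have h4 := mul_le_mul_of_nonneg_right h2 h3
    have h5 : (0 : ℝ) ≤ nV I * (dg I : ℝ) ^ 2 := by positivity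
    nlinarith
  have hdev := dev_le (q := 2) (slots h hk) (fun u a z => if a = 0 then F u z else 1 - F u z)
    (fun u a z => by
      split_ifs
      · exact hF0 u z
      · linarith [hF1 u z])
    (fun u z => by
      rw [Fin.sum_univ_two]
      simp) t hm
  rw [Fintype.card_fin] at hdev
  refine le_trans ?_ (hdev.trans (le_of_eq (by norm_num)))
  refine sum_le_sum fun p _ => sum_le_sum fun i _ => ?_
  simp

theorem sum_darts (l : List (ℕ × ℕ)) (hl : l.Nodup) (φ : ℕ × ℕ → ℝ) :
    ∑ p : Fin l.length, φ l[p] = ∑ e ∈ l.toFinset, φ e := by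
  rw [List.sum_toFinset φ hl]
  have h1 : l.map φ = List.ofFn fun p : Fin l.length => φ l[p] := by
    apply List.ext_getElem
    · simp
    · intro n h1 h2
      simp
  rw [h1, List.sum_ofFn]

theorem sum_swap (h : IsReg I) (φ : ℕ → ℕ → ℝ) :
    ∑ e ∈ (darts I).toFinset, φ e.1 e.2 = ∑ e ∈ (darts I).toFinset, φ e.2 e.1 := by
  refine sum_bij (fun e _ => (e.2, e.1)) ?_ ?_ ?_ ?_
  · intro e he
    exact h.rg.symm e he
  · intro e _ e' _ heq
    have := Prod.mk.inj heq
    exact Prod.ext this.2 this.1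
  · intro e he
    exact ⟨(e.2, e.1), h.rg.symm e he, rfl⟩
  · intro e _
    rfl

theorem cross_le (h : IsReg I) (a b : ℕ → ℝ) (ha : ∀ u, 0 ≤ a u) (hb : ∀ u, 0 ≤ b u) :
    ∑ e ∈ (darts I).toFinset, a e.1 * b e.2 ≤
      2 * ∑ e ∈ (darts I).toFinset, ((a e.1 + b e.1) / 2) * ((a e.2 + b e.2) / 2) := by
  have h1 := sum_swap h fun u v => a u * b v
  have h2 : 2 * ∑ e ∈ (darts I).toFinset, ((a e.1 + b e.1) / 2) * ((a e.2 + b e.2) / 2) =
      (∑ e ∈ (darts I).toFinset, a e.1 * a e.2 + ∑ e ∈ (darts I).toFinset, b e.1 * b e.2 +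
      ∑ e ∈ (darts I).toFinset, a e.1 * b e.2 + ∑ e ∈ (darts I).toFinset, a e.2 * b e.1) / 2 := by
    rw [← sum_add_distrib, ← sum_add_distrib, ← sum_add_distrib, mul_sum, sum_div]
    exact sum_congr rfl fun e _ => by ring
  rw [h2, ← h1]
  have h3 : 0 ≤ ∑ e ∈ (darts I).toFinset, a e.1 * a e.2 :=
    sum_nonneg fun e _ => mul_nonneg (ha _) (ha _)
  have h4 : 0 ≤ ∑ e ∈ (darts I).toFinset, b e.1 * b e.2 :=
    sum_nonneg fun e _ => mul_nonneg (hb _) (hb _)
  linarith

theorem half_le_avg {g : ℕ} {τ : ℝ} (hG : RGadget (Wd t × Wd t) g τ D N B) (h : IsReg I)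
    (hn : 0 < nV I) (S : Finset ℕ) :
    ((((half N B I).filter fun e => decide (e.1 ∈ S) && decide (e.2 ∈ S)).length : ℕ) : ℝ) ≤
      D * N * (8 ^ t) ^ 2 * ∑ p : Fin (darts I).length, ∑ i ∈ range (dg I),
        (avg t (fun z => fr (nV I) N 0 S (darts I)[p].1 z)
          (pos (sd I) (slt Prod.fst I i p (darts I)[p].1)) *
         avg t (fun z => fr (nV I) N 1 S (darts I)[p].2 z)
          (pos (sd I) (slt Prod.snd I i p (darts I)[p].2)) + τ) := by
  rw [half_count, bb_eq h hn, mul_sum]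
  refine sum_le_sum fun p _ => ?_
  rw [mul_sum]
  refine sum_le_sum fun i _ => ?_
  refine (sum_le_sum fun c _ => local_le hG S i c p).trans (le_of_eq ?_)
  rw [sum_add_distrib, ← mul_sum, sum_const, card_univ, Fintype.card_prod, Fintype.card_fun,
    Fintype.card_fin, Fintype.card_fin, nsmul_eq_mul]
  have h2 := Red.sum_pair 1 (fun w : Wd t => fr (nV I) N 0 S (darts I)[p].1
    (act w (pos (sd I) (slt Prod.fst I i p (darts I)[p].1))))
    (fun w : Wd t => fr (nV I) N 1 S (darts I)[p].2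
      (act w (pos (sd I) (slt Prod.snd I i p (darts I)[p].2))))
  have h3 := sum_avg_eq t (fun z => fr (nV I) N 0 S (darts I)[p].1 z)
    (pos (sd I) (slt Prod.fst I i p (darts I)[p].1))
  have h4 := sum_avg_eq t (fun z => fr (nV I) N 1 S (darts I)[p].2 z)
    (pos (sd I) (slt Prod.snd I i p (darts I)[p].2))
  simp only [one_mul] at h2
  rw [h3, h4] at h2
  rw [h2]
  push_cast
  ring

theorem mean_le_one {m : ℕ} [NeZero m] {f : ZMod m × ZMod m → ℝ} (hf : ∀ z, f z ≤ 1) :
    mean f ≤ 1 := by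
  have hm : (0 : ℝ) < m := by exact_mod_cast Nat.pos_of_ne_zero (NeZero.ne m)
  unfold mean
  rw [div_le_one (by positivity)]
  refine (sum_le_sum fun w _ => hf _).trans (le_of_eq ?_)
  rw [sum_const, card_univ, Fintype.card_prod, ZMod.card, nsmul_eq_mul, mul_one]
  push_cast
  ring

theorem avg_le_one {m : ℕ} [NeZero m] {f : ZMod m × ZMod m → ℝ} (hf : ∀ z, f z ≤ 1) (t : ℕ)
    (z : ZMod m × ZMod m) : avg t f z ≤ 1 := by
  unfold avg
  rw [div_le_one (by positivity)]
  refine (sum_le_sum fun w _ => hf _).trans (le_of_eq ?_)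
  simp

theorem prod_le {x y x' y' : ℝ} (hy : 0 ≤ y) (hy1 : y ≤ 1) (hx' : 0 ≤ x') (hx'1 : x' ≤ 1) :
    x * y ≤ x' * y' + (|x - x'| + |y - y'|) := by
  have c5 : (x - x') * y ≤ |x - x'| := by
    calc (x - x') * y ≤ |x - x'| * y := mul_le_mul_of_nonneg_right (le_abs_self _) hy
      _ ≤ |x - x'| * 1 := mul_le_mul_of_nonneg_left hy1 (abs_nonneg _)
      _ = _ := mul_one _
  have c6 : x' * (y - y') ≤ |y - y'| := by
    calc x' * (y - y') ≤ x' * |y - y'| := mul_le_mul_of_nonneg_left (le_abs_self _) hx'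
      _ ≤ 1 * |y - y'| := mul_le_mul_of_nonneg_right hx'1 (abs_nonneg _)
      _ = _ := one_mul _
  linarith

theorem avg_sum_le (h : IsReg I) (hn : 0 < nV I) (τ : ℝ)
    (F G : ℕ → ZMod (sd I) × ZMod (sd I) → ℝ) (hF0 : ∀ u z, 0 ≤ F u z) (hF1 : ∀ u z, F u z ≤ 1)
    (hG0 : ∀ u z, 0 ≤ G u z) (hG1 : ∀ u z, G u z ≤ 1) (t : ℕ) :
    ∑ p : Fin (darts I).length, ∑ i ∈ range (dg I),
      (avg t (F (darts I)[p].1) (pos (sd I) (slt Prod.fst I i p (darts I)[p].1)) *
      avg t (G (darts I)[p].2) (pos (sd I) (slt Prod.snd I i p (darts I)[p].2)) + τ) ≤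
      dg I * ∑ e ∈ (darts I).toFinset, mean (F e.1) * mean (G e.2) +
      ((73 / 80) ^ t * (dg I * (darts I).length) * 2 +
       (73 / 80) ^ t * (dg I * (darts I).length) * 2) + dg I * (darts I).length * τ := by
  have b3 := dev_one h (keyOk_fst h) hn F hF0 hF1 t
  have b4 := dev_one h (keyOk_snd h) hn G hG0 hG1 t
  have c1 : ∑ p : Fin (darts I).length, ∑ i ∈ range (dg I),
      (avg t (F (darts I)[p].1) (pos (sd I) (slt Prod.fst I i p (darts I)[p].1)) *
      avg t (G (darts I)[p].2) (pos (sd I) (slt Prod.snd I i p (darts I)[p].2)) + τ) ≤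
      ∑ p : Fin (darts I).length, ∑ i ∈ range (dg I),
      (mean (F (darts I)[p].1) * mean (G (darts I)[p].2) +
      (|avg t (F (darts I)[p].1) (pos (sd I) (slt Prod.fst I i p (darts I)[p].1)) -
        mean (F (darts I)[p].1)| +
      |avg t (G (darts I)[p].2) (pos (sd I) (slt Prod.snd I i p (darts I)[p].2)) -
        mean (G (darts I)[p].2)|) + τ) :=
    sum_le_sum fun p _ => sum_le_sum fun i _ => add_le_add_left
      (prod_le (avg_nonneg (hG0 _) t _) (avg_le_one (hG1 _) t _) (mean_nonneg (hF0 _))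
        (mean_le_one (hF1 _))) τ
  refine c1.trans ?_
  have b8 : ∑ p : Fin (darts I).length, mean (F (darts I)[p].1) * mean (G (darts I)[p].2) =
      ∑ e ∈ (darts I).toFinset, mean (F e.1) * mean (G e.2) :=
    sum_darts (darts I) h.2.1 fun e => mean (F e.1) * mean (G e.2)
  simp only [sum_add_distrib, sum_const, card_range, card_univ, Fintype.card_fin, nsmul_eq_mul,
    ← mul_sum]
  rw [b8]
  have c4 : ((darts I).length : ℝ) * (dg I * τ) = dg I * (darts I).length * τ := by ring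
  linarith

theorem mean_fr (I : Inst) (N s : ℕ) (S : Finset ℕ) (u : ℕ) :
    mean (fun z : ZMod (sd I) × ZMod (sd I) => fr (nV I) N s S u z) =
      (∑ z : ZMod (sd I) × ZMod (sd I),
        (((range N).filter fun x => cd (nV I) N s u z x ∈ S).card : ℝ)) / (N * (sd I : ℝ) ^ 2) := by
  unfold mean fr
  rw [← sum_div, div_div]

theorem sum_mean (h : IsReg I) (hN : 0 < N) {kk : ℕ} {S : Finset ℕ}
    (hS : S ⊆ range (2 * nV I * sd I * sd I * N)) (hcard : S.card = 2 * kk * sd I * sd I * N) :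
    ∑ u ∈ range (nV I), (mean (fun z : ZMod (sd I) × ZMod (sd I) => fr (nV I) N 0 S u z) +
      mean (fun z : ZMod (sd I) × ZMod (sd I) => fr (nV I) N 1 S u z)) / 2 = (kk : ℝ) := by
  have hN0 : (0 : ℝ) < N := by exact_mod_cast hN
  have hd1 : (0 : ℝ) < dg I := by exact_mod_cast h.1
  have hsd : ((sd I : ℕ) : ℝ) = dg I := by rw [sd_eq h]
  have e1 := card_codes (n := nV I) (m := sd I) (N := N) S hS
  rw [hcard, sum_range_succ, sum_range_one] at e1
  have e4 : ((2 * kk * sd I * sd I * N : ℕ) : ℝ) = ((∑ u ∈ range (nV I),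
      ∑ z : ZMod (sd I) × ZMod (sd I), ((range N).filter fun x => cd (nV I) N 0 u z x ∈ S).card +
      ∑ u ∈ range (nV I), ∑ z : ZMod (sd I) × ZMod (sd I),
        ((range N).filter fun x => cd (nV I) N 1 u z x ∈ S).card : ℕ) : ℝ) := by
    exact_mod_cast e1
  push_cast at e4
  rw [← sum_div, sum_add_distrib]
  simp only [mean_fr]
  rw [← sum_div, ← sum_div, ← add_div, ← e4, hsd]
  field_simp

theorem half_le {g : ℕ} {τ : ℝ} (hG : RGadget (Wd t × Wd t) g τ D N B) (h : IsReg I)
    (hn : 0 < nV I) {kk : ℕ} {ε : ℝ}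
    (hno : ∀ S ⊆ range (nV I), S.card = kk →
      (SSE.inner (darts I).toFinset S : ℝ) ≤ ε * (dg I * kk)) {S : Finset ℕ}
    (hS : S ⊆ range (2 * nV I * sd I * sd I * N)) (hcard : S.card = 2 * kk * sd I * sd I * N) :
    ((((half N B I).filter fun e => decide (e.1 ∈ S) && decide (e.2 ∈ S)).length : ℕ) : ℝ) ≤
      D * N * (8 ^ t) ^ 2 * ((dg I) ^ 2 *
        (2 * ε * kk + 4 + (4 * (73 / 80) ^ t + τ) * nV I)) := by
  have hd1 : (1 : ℝ) ≤ dg I := by exact_mod_cast h.1
  have hτ0 : 0 ≤ (D : ℝ) * N * (8 ^ t) ^ 2 := by positivity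
  refine (half_le_avg hG h hn S).trans (mul_le_mul_of_nonneg_left ?_ hτ0)
  have hF0 : ∀ s u (z : ZMod (sd I) × ZMod (sd I)), 0 ≤ fr (nV I) N s S u z :=
    fun s u z => fr_nonneg _ _ _ _ _ _
  have hF1 : ∀ s u (z : ZMod (sd I) × ZMod (sd I)), fr (nV I) N s S u z ≤ 1 :=
    fun s u z => fr_le _ _ hG.posN _ _ _
  refine (avg_sum_le h hn τ (fun u z => fr (nV I) N 0 S u z) (fun u z => fr (nV I) N 1 S u z)
    (hF0 0) (hF1 0) (hF0 1) (hF1 1) t).trans ?_
  have hsum := sum_mean h hG.posN hS hcard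
  have b5 := cross_le h (fun u => mean (fun z : ZMod (sd I) × ZMod (sd I) => fr (nV I) N 0 S u z))
    (fun u => mean (fun z : ZMod (sd I) × ZMod (sd I) => fr (nV I) N 1 S u z))
    (fun u => mean_nonneg (hF0 0 u)) (fun u => mean_nonneg (hF0 1 u))
  obtain ⟨T, hT, hTk, hTle⟩ := h.rg.round
    (fun u => (mean (fun z : ZMod (sd I) × ZMod (sd I) => fr (nV I) N 0 S u z) +
      mean (fun z : ZMod (sd I) × ZMod (sd I) => fr (nV I) N 1 S u z)) / 2) (fun u _ => by
    have c1 := mean_nonneg (hF0 0 u)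
    have c2 := mean_nonneg (hF0 1 u)
    have c3 := mean_le_one (hF1 0 u)
    have c4 := mean_le_one (hF1 1 u)
    constructor <;> linarith) hsum
  have b6 := hno T hT hTk
  have b7 := b5.trans (mul_le_mul_of_nonneg_left (hTle.trans (add_le_add_left b6 ((dg I : ℝ) + 1)))
    (by norm_num : (0 : ℝ) ≤ 2))
  have hlen : ((darts I).length : ℝ) = dg I * nV I := by exact_mod_cast length_darts h
  rw [hlen]
  have c2 : (0 : ℝ) ≤ dg I := by linarith
  have c3 := mul_le_mul_of_nonneg_left b7 c2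
  have c1 : (dg I : ℝ) * (dg I + 1) ≤ 2 * (dg I : ℝ) ^ 2 := by nlinarith
  refine (add_le_add_left (add_le_add_left c3 _) _).trans ?_
  nlinarith

end Pool.Agent.H697.SRed
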