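import Pool.Agent.H697.SSE.RedTime
import Pool.Agent.H697.SSE.RedValue

/-!
# Small-set expansion in graphs of large girth
-/

namespace Pool.Agent.H697.SRed

open Finset Pool.Agent.NPC Pool.Agent.H697.Exp Pool.Agent.H697.SSE Pool.Agent.H697.Red
  Pool.Agent.H697.Forest

variable {t N D : ℕ} {B : Wd t × Wd t → Finset (ℕ × ℕ)} {I : Inst}

theorem nV_pos {δ : ℚ} {k : ℕ} (hk0 : 0 < k) (hk : (k : ℚ) = δ * nV I) : 0 < nV I := by
  rcases Nat.eq_zero_or_pos (nV I) with h0 | h0
  · rw [h0, Nat.cast_zero, mul_zero] at hk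
    have : k = 0 := by exact_mod_cast hk
    omega
  · exact h0

theorem inner_Phi {g : ℕ} {τ : ℝ} (hG : RGadget (Wd t × Wd t) g τ D N B) (h : IsReg I)
    (hn : 0 < nV I) (S : Finset ℕ) : SSE.inner (darts (Phi D N B I)).toFinset S =
      2 * ((half N B I).filter fun e => decide (e.1 ∈ S) && decide (e.2 ∈ S)).length := by
  have h1 := filter_toFinset_card (darts (Phi D N B I)) (isReg_Phi hG h hn).2.1
    fun e => decide (e.1 ∈ S) && decide (e.2 ∈ S)
  have h2 : SSE.inner (darts (Phi D N B I)).toFinset S =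
      ((darts (Phi D N B I)).filter fun e => decide (e.1 ∈ S) && decide (e.2 ∈ S)).length := by
    rw [h1]
    unfold SSE.inner
    congr 1
    ext e
    simp
  rw [h2, filter_Phi]
  have h3 : ((half N B I).filter fun e => decide (e.swap.1 ∈ S) && decide (e.swap.2 ∈ S)) =
      (half N B I).filter fun e => decide (e.1 ∈ S) && decide (e.2 ∈ S) := by
    apply List.filter_congr
    intro e _
    rw [Bool.and_comm]
    rfl
  rw [h3]
  ring

/-- The reduction maps large no-instances to no-instances. -/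
theorem no_Phi {g : ℕ} {τ : ℝ} (hG : RGadget (Wd t × Wd t) g τ D N B) {η₀ η δ : ℚ}
    (hfin : ∀ k : ℕ, (k : ℚ) = δ * nV I →
      2 * (η₀ : ℝ) * k + 4 + (4 * (73 / 80) ^ t + τ) * nV I ≤ η * k)
    (hN : No η₀ δ I) : No η δ (Phi D N B I) := by
  obtain ⟨h, k, hk0, hk, hno⟩ := hN
  have hn : 0 < nV I := nV_pos hk0 hk
  have hm : 0 < sd I := Nat.succ_pos _
  have hreg := isReg_Phi hG h hn
  have hnV : nV (Phi D N B I) = 2 * nV I * sd I * sd I * N := rfl
  have hdg : dg (Phi D N B I) = Fintype.card (Wd t × Wd t) * D := rfl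
  refine ⟨hreg, 2 * k * sd I * sd I * N, ?_, ?_, ?_⟩
  · have := hG.posN
    positivity
  · rw [hnV]
    push_cast
    rw [hk]
    ring
  · intro S hS hSk
    have hinner : ∀ S ⊆ range (nV I), S.card = k →
        (SSE.inner (darts I).toFinset S : ℝ) ≤ (η₀ : ℝ) * (dg I * k) := by
      intro T hT hTk
      have h6 := hno T hT hTk
      rw [h.cut_eq T] at h6
      have h7 := h.rg.inner_add_outer hT
      rw [hTk] at h7
      have h8 : (SSE.inner (darts I).toFinset T : ℝ) + outer (darts I).toFinset T = dg I * k := by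
        exact_mod_cast h7
      have h9 : (1 - (η₀ : ℝ)) * (dg I * k) ≤ outer (darts I).toFinset T := by exact_mod_cast h6
      linarith
    have h1 := half_le hG h hn hinner hS hSk
    have h2 := inner_Phi hG h hn S
    have h3 := hreg.rg.inner_add_outer hS
    rw [hSk] at h3
    rw [hreg.cut_eq S]
    have h4 : (SSE.inner (darts (Phi D N B I)).toFinset S : ℝ) +
        outer (darts (Phi D N B I)).toFinset S =
        dg (Phi D N B I) * ((2 * k * sd I * sd I * N : ℕ) : ℝ) := by exact_mod_cast h3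
    have hcardW : (Fintype.card (Wd t × Wd t) : ℝ) = (8 ^ t) ^ 2 := by
      rw [Fintype.card_prod, Fintype.card_fun, Fintype.card_fin, Fintype.card_fin]
      push_cast
      ring
    have h5 : (SSE.inner (darts (Phi D N B I)).toFinset S : ℝ) ≤
        η * (dg (Phi D N B I) * ((2 * k * sd I * sd I * N : ℕ) : ℝ)) := by
      rw [h2]
      push_cast
      have h6 := hfin k hk
      have h7 : (0 : ℝ) ≤ D * N * (8 ^ t) ^ 2 := by positivity
      have h8 : (0 : ℝ) ≤ (dg I : ℝ) ^ 2 := by positivity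
      have h9 := mul_le_mul_of_nonneg_left (mul_le_mul_of_nonneg_left h6 h8) h7
      have h10 := h1.trans h9
      rw [hdg, sd_eq h]
      push_cast
      have h11 : (Fintype.card (Wd t) : ℝ) * Fintype.card (Wd t) = (8 ^ t) ^ 2 := by
        rw [← hcardW, Fintype.card_prod]
        push_cast
        ring
      rw [Fintype.card_prod]
      push_cast
      rw [h11]
      linarith
    have h12 : ((1 - (η : ℝ)) * (dg (Phi D N B I) * ((2 * k * sd I * sd I * N : ℕ) : ℝ))) ≤
        outer (darts (Phi D N B I)).toFinset S := by linarith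
    exact_mod_cast h12

/-- The class: `Δ`-regular bipartite graphs, all cycles longer than `g`. -/
def Nice (g Δ : ℕ) (I : Inst) : Prop :=
  dg I = Δ ∧ (gr I).IsBipartite ∧ ∀ (a : Fin (nV I)) (p : (gr I).Walk a a), p.IsCycle → g < p.length

theorem nice_Phi {g : ℕ} {τ : ℝ} (hG : RGadget (Wd t × Wd t) g τ D N B) (h : IsReg I) :
    Nice g (Fintype.card (Wd t × Wd t) * D) (Phi D N B I) :=
  ⟨rfl, bipartite_Phi hG h, girth_Phi hG h⟩

/-! ### Complete graphs and perfect matchings -/

/-- The complete graph. -/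
noncomputable def compl (m : ℕ) : Inst := (m, m - 1, ((range m).offDiag).toList)

theorem compl_darts (m : ℕ) : (darts (compl m)).toFinset = (range m).offDiag := by
  unfold compl darts
  exact toList_toFinset _

theorem isReg_compl {m : ℕ} (hm : 2 ≤ m) : IsReg (compl m) := by
  refine ⟨?_, ?_, ?_, ?_⟩
  · have : dg (compl m) = m - 1 := rfl
    omega
  · exact nodup_toList _
  · intro e he
    have h1 : e ∈ (range m).offDiag := by
      rw [← compl_darts, List.mem_toFinset]
      exact he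
    obtain ⟨h2, h3, h4⟩ := mem_offDiag.1 h1
    refine ⟨mem_range.1 h2, mem_range.1 h3, h4, ?_⟩
    rw [← List.mem_toFinset, compl_darts]
    exact mem_offDiag.2 ⟨h3, h2, h4.symm⟩
  · intro v hv
    have hv' : v < m := hv
    rw [filter_toFinset_card (darts (compl m)) (nodup_toList _), compl_darts]
    simp only [decide_eq_true_eq]
    have h1 : ((range m).offDiag.filter fun e => e.1 = v) = ((range m).erase v).image
        fun w => (v, w) := by
      ext e
      simp only [mem_filter, mem_offDiag, mem_image, mem_erase]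
      constructor
      · rintro ⟨⟨_, h2, h3⟩, h4⟩
        exact ⟨e.2, ⟨fun h5 => h3 (h4.trans h5.symm), h2⟩, Prod.ext h4.symm rfl⟩
      · rintro ⟨w, ⟨h2, h3⟩, rfl⟩
        exact ⟨⟨mem_range.2 hv', h3, fun h4 => h2 h4.symm⟩, rfl⟩
    rw [h1, card_image_of_injective _ (fun a b hab => (Prod.mk.inj hab).2),
      card_erase_of_mem (mem_range.2 hv'), card_range]
    rfl

theorem inner_compl {m : ℕ} {S : Finset ℕ} (hS : S ⊆ range m) :
    SSE.inner (darts (compl m)).toFinset S = S.card * S.card - S.card := by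
  rw [compl_darts, ← offDiag_card]
  unfold SSE.inner
  congr 1
  ext e
  simp only [mem_filter, mem_offDiag]
  constructor
  · rintro ⟨⟨_, _, h3⟩, h1, h2⟩
    exact ⟨h1, h2, h3⟩
  · rintro ⟨h1, h2, h3⟩
    exact ⟨⟨hS h1, hS h2, h3⟩, h1, h2⟩

theorem no_compl {η₀ δ : ℚ} (hδη : δ ≤ η₀) (hη : η₀ ≤ 1) {m k : ℕ} (hm : 2 ≤ m)
    (hk0 : 0 < k) (hk : (k : ℚ) = δ * m) : No η₀ δ (compl m) := by
  have h := isReg_compl hm
  refine ⟨h, k, hk0, hk, fun S hS hSk => ?_⟩
  have h1 := h.rg.inner_add_outer hS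
  rw [inner_compl (m := m) hS, hSk] at h1
  rw [h.cut_eq S]
  have hdg : dg (compl m) = m - 1 := rfl
  rw [hdg] at h1 ⊢
  obtain ⟨m', rfl⟩ : ∃ m', m = m' + 1 := ⟨m - 1, by omega⟩
  obtain ⟨k', rfl⟩ : ∃ k', k = k' + 1 := ⟨k - 1, by omega⟩
  have h2 : (k' + 1) * (k' + 1) - (k' + 1) = (k' + 1) * k' := by
    rw [Nat.mul_succ]
    omega
  rw [h2, Nat.add_sub_cancel] at h1
  rw [Nat.add_sub_cancel]
  have h3 : (((k' : ℚ) + 1) * k') + outer (darts (compl (m' + 1))).toFinset S =
      m' * (k' + 1) := by exact_mod_cast h1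
  push_cast at hk ⊢
  have h4 : (k' : ℚ) ≤ η₀ * m' := by
    have h5 : (k' : ℚ) + 1 ≤ η₀ * (m' + 1) := by
      rw [hk]
      exact mul_le_mul_of_nonneg_right hδη (by positivity)
    linarith
  have h5 : (0 : ℚ) ≤ (k' : ℚ) + 1 := by positivity
  have h6 := mul_le_mul_of_nonneg_right h4 h5
  linarith

/-- The perfect matching `2 i ~ 2 i + 1` on `2 q` vertices. -/
def pmat (q : ℕ) : Inst :=
  (2 * q, 1, (List.range (2 * q)).map fun v => (v, if v % 2 = 0 then v + 1 else v - 1))

theorem mem_pmat {q : ℕ} {e : ℕ × ℕ} : e ∈ darts (pmat q) ↔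
    e.1 < 2 * q ∧ e.2 = if e.1 % 2 = 0 then e.1 + 1 else e.1 - 1 := by
  unfold pmat darts
  rw [List.mem_map]
  constructor
  · rintro ⟨v, hv, rfl⟩
    exact ⟨List.mem_range.1 hv, rfl⟩
  · rintro ⟨h1, h2⟩
    exact ⟨e.1, List.mem_range.2 h1, Prod.ext rfl h2.symm⟩

theorem nodup_pmat (q : ℕ) : (darts (pmat q)).Nodup := by
  unfold pmat darts
  exact (List.nodup_range (n := 2 * q)).map fun a b hab => (Prod.mk.inj hab).1

theorem isReg_pmat (q : ℕ) : IsReg (pmat q) := by
  refine ⟨Nat.one_pos, nodup_pmat q, ?_, ?_⟩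
  · intro e he
    have hn : nV (pmat q) = 2 * q := rfl
    rw [mem_pmat] at he
    obtain ⟨h1, h2⟩ := he
    rw [mem_pmat, hn]
    dsimp only
    split_ifs at h2 with h3
    · rw [h2, if_neg (by omega)]
      omega
    · rw [h2, if_pos (by omega)]
      omega
  · intro v hv
    have hn : v < 2 * q := hv
    rw [filter_toFinset_card _ (nodup_pmat q)]
    simp only [decide_eq_true_eq]
    have hd : dg (pmat q) = 1 := rfl
    rw [hd, card_eq_one]
    refine ⟨(v, if v % 2 = 0 then v + 1 else v - 1), ?_⟩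
    rw [eq_singleton_iff_unique_mem]
    constructor
    · exact mem_filter.2 ⟨List.mem_toFinset.2 (mem_pmat.2 ⟨hn, rfl⟩), rfl⟩
    · intro e he
      obtain ⟨h1, h2⟩ := mem_filter.1 he
      rw [List.mem_toFinset, mem_pmat] at h1
      refine Prod.ext h2 ?_
      rw [h1.2, h2]

theorem yes_pmat {η δ : ℚ} (hη : 0 ≤ η) (hδ : 0 < δ) (hδ1 : δ ≤ 1) : Yes η δ (pmat δ.den) := by
  refine ⟨isReg_pmat _, 2 * δ.num.toNat, ?_, ?_, range (2 * δ.num.toNat), ?_, card_range _, ?_⟩
  · have : 0 < δ.num := Rat.num_pos.2 hδ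
    omega
  · have h1 : (δ.num : ℚ) = δ * δ.den := by rw [Rat.mul_den_eq_num]
    have h2 : ((δ.num.toNat : ℕ) : ℤ) = δ.num := Int.toNat_of_nonneg (Rat.num_nonneg.2 hδ.le)
    have h3 : ((δ.num.toNat : ℕ) : ℚ) = δ * δ.den := by
      rw [← h1, ← h2]
      rfl
    have h4 : nV (pmat δ.den) = 2 * δ.den := rfl
    rw [h4]
    push_cast
    rw [h3]
    ring
  · have h4 : nV (pmat δ.den) = 2 * δ.den := rfl
    rw [h4]
    intro v hv
    rw [mem_range] at hv ⊢
    have h5 : δ.num ≤ δ.den := by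
      have h6 := Rat.num_le_denom_iff.2 hδ1
      exact h6
    omega
  · have h1 : cut (pmat δ.den) (range (2 * δ.num.toNat)) = 0 := by
      unfold cut
      rw [List.length_eq_zero_iff, List.filter_eq_nil_iff]
      intro e he
      rw [mem_pmat] at he
      simp only [mem_range, Bool.and_eq_true, decide_eq_true_eq, Bool.not_eq_true',
        decide_eq_false_iff_not, not_and, not_not]
      intro h2
      rw [he.2]
      split_ifs with h3 <;> omega
    rw [h1]
    have : (0 : ℚ) ≤ η * (dg (pmat δ.den) * ((2 * δ.num.toNat : ℕ) : ℚ)) := by positivity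
    exact_mod_cast this

end Pool.Agent.H697.SRed
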