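import Pool.Agent.H697.Red.Abs
import Pool.Agent.H697.Red.Defs
import Pool.Agent.H697.Exp.Regular
import Pool.Agent.H697.SSE.Defs

/-!
# The reduction to small-set expansion in graphs of large girth: definition and counting
-/

namespace Pool.Agent.H697.SRed

open Finset Pool.Agent.H697.Exp Pool.Agent.H697.SSE Pool.Agent.H697.Red

/-- The number of pairs with a given key. -/
def rk (k : ℕ × ℕ → ℕ) (E : List (ℕ × ℕ)) (u : ℕ) : ℕ := (E.filter fun e => decide (k e = u)).length

/-- The side of the clouds: the degree (which is positive). -/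
def sd (I : Inst) : ℕ := dg I - 1 + 1

instance (I : Inst) : NeZero (sd I) := ⟨Nat.succ_ne_zero _⟩

/-- The number of slots of an edge: the degree. -/
def bb (I : Inst) : ℕ := min (dg I) (darts I).length

/-- The code of a vertex of the new graph. -/
def cd (n N s u : ℕ) {m : ℕ} (z : ZMod m × ZMod m) (x : ℕ) : ℕ :=
  (((s * n + u) * m + z.1.val) * m + z.2.val) * N + x

/-- The number of the slot `i` of the pair at position `p` whose key is `u`. -/
def slt (k : ℕ × ℕ → ℕ) (I : Inst) (i p u : ℕ) : ℕ := rk k ((darts I).take p) u * sd I + i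

/-- The new vertex for the pair `ep.1` at position `ep.2`. -/
def vt (s : ℕ) (k : ℕ × ℕ → ℕ) (N : ℕ) {t : ℕ} (I : Inst) (i : ℕ) (w : Wd t) (x : ℕ)
    (ep : (ℕ × ℕ) × ℕ) : ℕ :=
  cd (nV I) N s (k ep.1) (act w (pos (sd I) (slt k I i ep.2 (k ep.1)))) x

/-- The new edge. -/
def out (N : ℕ) {t : ℕ} (I : Inst) (i : ℕ) (c : Wd t × Wd t) (xy : ℕ × ℕ) (ep : (ℕ × ℕ) × ℕ) :
    ℕ × ℕ :=
  (vt 0 Prod.fst N I i c.1 xy.1 ep, vt 1 Prod.snd N I i c.2 xy.2 ep)

/-- The new edges, as pairs of a left vertex and a right vertex. -/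
noncomputable def half (N : ℕ) {t : ℕ} (B : Wd t × Wd t → Finset (ℕ × ℕ)) (I : Inst) :
    List (ℕ × ℕ) :=
  (List.range (bb I)).flatMap fun i => (univ : Finset (Wd t × Wd t)).toList.flatMap fun c =>
    (B c).toList.flatMap fun xy => (darts I).zipIdx.map fun ep => out N I i c xy ep

/-- The new graph. -/
noncomputable def Phi (D N : ℕ) {t : ℕ} (B : Wd t × Wd t → Finset (ℕ × ℕ)) (I : Inst) : Inst :=
  (2 * nV I * sd I * sd I * N, Fintype.card (Wd t × Wd t) * D,
    half N B I ++ (half N B I).map Prod.swap)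

/-! ### Codes -/

theorem radix {a a' N x x' : ℕ} (hx : x < N) (hx' : x' < N) (h : a * N + x = a' * N + x') :
    a = a' ∧ x = x' := by
  have hN : 0 < N := by omega
  have h1 := congrArg (· / N) h
  have h2 := congrArg (· % N) h
  beta_reduce at h1 h2
  rw [mul_comm a, mul_comm a', Nat.mul_add_div hN, Nat.mul_add_div hN, Nat.div_eq_of_lt hx,
    Nat.div_eq_of_lt hx'] at h1
  rw [mul_comm a, mul_comm a', Nat.mul_add_mod, Nat.mul_add_mod, Nat.mod_eq_of_lt hx,
    Nat.mod_eq_of_lt hx'] at h2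
  exact ⟨by omega, h2⟩

theorem radix_lt {a M N x : ℕ} (ha : a < M) (hx : x < N) : a * N + x < M * N := by
  calc a * N + x < a * N + N := by omega
    _ = (a + 1) * N := by ring
    _ ≤ M * N := Nat.mul_le_mul_right _ ha

theorem cd_inj {n N s s' u u' m : ℕ} [NeZero m] {z z' : ZMod m × ZMod m} {x x' : ℕ} (hu : u < n)
    (hu' : u' < n) (hx : x < N) (hx' : x' < N) (h : cd n N s u z x = cd n N s' u' z' x') :
    s = s' ∧ u = u' ∧ z = z' ∧ x = x' := by
  unfold cd at h
  obtain ⟨h1, h2⟩ := radix hx hx' h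
  obtain ⟨h3, h4⟩ := radix (ZMod.val_lt _) (ZMod.val_lt _) h1
  obtain ⟨h5, h6⟩ := radix (ZMod.val_lt _) (ZMod.val_lt _) h3
  obtain ⟨h7, h8⟩ := radix hu hu' h5
  exact ⟨h7, h8, Prod.ext (ZMod.val_injective _ h6) (ZMod.val_injective _ h4), h2⟩

theorem cd_mod {n N s u m : ℕ} {z : ZMod m × ZMod m} {x : ℕ} (hx : x < N) :
    cd n N s u z x % N = x := by
  unfold cd
  rw [mul_comm, Nat.mul_add_mod, Nat.mod_eq_of_lt hx]

theorem cd_lt {n N s u m : ℕ} [NeZero m] {z : ZMod m × ZMod m} {x : ℕ} (hs : s < 2) (hu : u < n)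
    (hx : x < N) : cd n N s u z x < 2 * n * m * m * N :=
  radix_lt (radix_lt (radix_lt (radix_lt hs hu) (ZMod.val_lt _)) (ZMod.val_lt _)) hx

theorem cd_side {n N s u m : ℕ} [NeZero m] {z : ZMod m × ZMod m} {x : ℕ} (hu : u < n)
    (hx : x < N) : cd n N s u z x < n * m * m * N ↔ s = 0 := by
  constructor
  · intro h
    by_contra hs
    obtain ⟨s', rfl⟩ : ∃ s', s = s' + 1 := ⟨s - 1, by omega⟩
    have h1 : n * m * m * N ≤ cd n N (s' + 1) u z x := by
      unfold cd
      calc n * m * m * N ≤ ((((s' + 1) * n + u) * m + z.1.val) * m + z.2.val) * N := by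
            apply Nat.mul_le_mul_right
            refine le_trans ?_ (Nat.le_add_right _ _)
            apply Nat.mul_le_mul_right
            refine le_trans ?_ (Nat.le_add_right _ _)
            apply Nat.mul_le_mul_right
            refine le_trans ?_ (Nat.le_add_right _ _)
            exact Nat.le_mul_of_pos_left n (Nat.succ_pos _)
        _ ≤ _ := Nat.le_add_right _ _
    omega
  · rintro rfl
    have h := radix_lt (radix_lt (radix_lt hu (ZMod.val_lt z.1)) (ZMod.val_lt z.2)) hx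
    unfold cd
    rw [Nat.zero_mul, Nat.zero_add]
    exact h

theorem cd_surj {n N m v : ℕ} [NeZero m] (hv : v < 2 * n * m * m * N) :
    ∃ s < 2, ∃ u < n, ∃ z : ZMod m × ZMod m, ∃ x < N, v = cd n N s u z x := by
  have hm : 0 < m := Nat.pos_of_ne_zero (NeZero.ne m)
  have hN : 0 < N := by
    rcases Nat.eq_zero_or_pos N with rfl | h
    · simp at hv
    · exact h
  have hn : 0 < n := by
    rcases Nat.eq_zero_or_pos n with rfl | h
    · simp at hv
    · exact h
  have h1 : v / N < 2 * n * m * m := Nat.div_lt_of_lt_mul (by rw [mul_comm]; exact hv)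
  have h2 : v / N / m < 2 * n * m := Nat.div_lt_of_lt_mul (by rw [mul_comm]; exact h1)
  have h3 : v / N / m / m < 2 * n := Nat.div_lt_of_lt_mul (by rw [mul_comm]; exact h2)
  have h4 : v / N / m / m / n < 2 := Nat.div_lt_of_lt_mul (by rw [mul_comm]; exact h3)
  refine ⟨v / N / m / m / n, h4, v / N / m / m % n, Nat.mod_lt _ hn,
    (((v / N / m % m : ℕ) : ZMod m), ((v / N % m : ℕ) : ZMod m)), v % N, Nat.mod_lt _ hN, ?_⟩
  unfold cd
  dsimp only
  rw [ZMod.val_natCast, ZMod.val_natCast, Nat.mod_mod, Nat.mod_mod, Nat.div_add_mod',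
    Nat.div_add_mod', Nat.div_add_mod', Nat.div_add_mod']

/-! ### Ranks -/

variable (k : ℕ × ℕ → ℕ)

theorem rk_mono {l l' : List (ℕ × ℕ)} (h : l.Sublist l') (u : ℕ) : rk k l u ≤ rk k l' u :=
  (h.filter _).length_le

theorem rk_take_succ (E : List (ℕ × ℕ)) (p : Fin E.length) :
    rk k (E.take (p + 1)) (k E[p]) = rk k (E.take p) (k E[p]) + 1 := by
  unfold rk
  rw [List.take_add_one, List.filter_append, List.length_append]
  congr 1
  simp

theorem rk_lt (E : List (ℕ × ℕ)) (p : Fin E.length) :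
    rk k (E.take p) (k E[p]) < rk k E (k E[p]) := by
  have h1 := rk_take_succ k E p
  have h2 := rk_mono k (List.take_sublist (p + 1) E) (k E[p])
  omega

theorem rk_eq (E : List (ℕ × ℕ)) (u : ℕ) :
    rk k E u = (univ.filter fun p : Fin E.length => k E[p] = u).card := by
  unfold rk
  rw [filter_ofFn]
  simp only [decide_eq_true_eq]

theorem rank_inj {E : List (ℕ × ℕ)} {p p' : Fin E.length} (hk : k E[p] = k E[p'])
    (h : rk k (E.take p) (k E[p]) = rk k (E.take p') (k E[p'])) : p = p' := by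
  by_contra hne
  rcases lt_or_gt_of_ne hne with hlt | hlt
  · have h1 := rk_take_succ k E p
    have h2 := rk_mono k (List.take_sublist_take_left (l := E) (show (p : ℕ) + 1 ≤ p' from hlt))
      (k E[p])
    rw [hk] at h h1 h2
    omega
  · have h1 := rk_take_succ k E p'
    have h2 := rk_mono k (List.take_sublist_take_left (l := E) (show (p' : ℕ) + 1 ≤ p from hlt))
      (k E[p'])
    rw [hk] at h
    omega

/-- Every vertex is the key of `d` pairs. -/
def KeyOk (I : Inst) (k : ℕ × ℕ → ℕ) : Prop :=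
  (∀ p : Fin (darts I).length, k (darts I)[p] < nV I) ∧ ∀ u < nV I, rk k (darts I) u = dg I

theorem keyOk_fst {I : Inst} (h : IsReg I) : KeyOk I Prod.fst :=
  ⟨fun _ => (h.2.2.1 _ (List.getElem_mem _)).1, h.2.2.2⟩

theorem keyOk_snd {I : Inst} (h : IsReg I) : KeyOk I Prod.snd := by
  refine ⟨fun p => (h.2.2.1 _ (List.getElem_mem _)).2.1, fun u hu => ?_⟩
  rw [← h.rg.deg u hu]
  unfold rk
  rw [filter_toFinset_card _ h.2.1]
  simp only [decide_eq_true_eq]
  refine card_bij (fun e _ => (e.2, e.1)) ?_ ?_ ?_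
  · intro e he
    obtain ⟨h1, h2⟩ := mem_filter.1 he
    exact mem_filter.2 ⟨h.rg.symm e h1, h2⟩
  · intro e _ e' _ heq
    have := Prod.mk.inj heq
    exact Prod.ext this.2 this.1
  · intro e he
    obtain ⟨h1, h2⟩ := mem_filter.1 he
    exact ⟨(e.2, e.1), mem_filter.2 ⟨h.rg.symm e h1, h2⟩, rfl⟩

theorem sd_eq {I : Inst} (h : IsReg I) : sd I = dg I := by
  have := h.1
  unfold sd
  omega

variable {k}

theorem slots {I : Inst} (h : IsReg I) (hk : KeyOk I k) :
    Slots (Fin (darts I).length) (dg I) (fun p => k (darts I)[p]) (fun _ => sd I)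
      (fun p i => slt k I i p (k (darts I)[p])) where
  lt p i hi := by
    unfold slt
    rw [sd_eq h]
    have h1 := rk_lt k (darts I) p
    rw [hk.2 _ (hk.1 p)] at h1
    exact radix_lt h1 hi
  inj p p' i i' hkk hi hi' heq := by
    unfold slt at heq
    rw [sd_eq h] at heq
    obtain ⟨h1, h2⟩ := radix hi hi' heq
    exact ⟨rank_inj k hkk h1, h2⟩

theorem fill {I : Inst} (h : IsReg I) (hk : KeyOk I k) {u : ℕ} (hu : u < nV I)
    (z : ZMod (sd I) × ZMod (sd I)) : ∃ p : Fin (darts I).length, k (darts I)[p] = u ∧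
      ∃ i < dg I, pos (sd I) (slt k I i p (k (darts I)[p])) = z := by
  classical
  have hS := slots h hk
  set X : Finset (Fin (darts I).length × ℕ) :=
    (univ.filter fun p : Fin (darts I).length => k (darts I)[p] = u) ×ˢ range (dg I) with hX
  have hXc : X.card = dg I * dg I := by
    rw [hX, card_product, card_range, ← rk_eq, hk.2 u hu]
  have hinj : Set.InjOn (fun x : Fin (darts I).length × ℕ =>
      pos (sd I) (slt k I x.2 x.1 (k (darts I)[x.1]))) X := by
    intro x hx x' hx' heq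
    rw [mem_coe, mem_product, mem_filter, mem_range] at hx hx'
    have h1 := pos_inj (hS.lt x.1 x.2 hx.2) (hS.lt x'.1 x'.2 hx'.2) heq
    have h2 := hS.inj x.1 x'.1 x.2 x'.2 (hx.1.2.trans hx'.1.2.symm) hx.2 hx'.2 h1
    exact Prod.ext h2.1 h2.2
  have himg : X.image (fun x : Fin (darts I).length × ℕ =>
      pos (sd I) (slt k I x.2 x.1 (k (darts I)[x.1]))) = univ := by
    apply eq_univ_of_card
    rw [card_image_of_injOn hinj, hXc, Fintype.card_prod, ZMod.card, sd_eq h]
  have hz := mem_univ z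
  rw [← himg, mem_image] at hz
  obtain ⟨x, hx, hxz⟩ := hz
  rw [mem_product, mem_filter, mem_range] at hx
  exact ⟨x.1, hx.1.2, x.2, hx.2, hxz⟩

theorem bb_eq {I : Inst} (h : IsReg I) (hn : 0 < nV I) : bb I = dg I := by
  unfold bb
  rw [min_eq_left]
  have h1 := h.2.2.2 0 hn
  rw [← h1]
  exact List.length_filter_le _ _

/-! ### The number of pairs with a property -/

theorem filter_zipIdx (E : List (ℕ × ℕ)) (F : (ℕ × ℕ) × ℕ → ℕ × ℕ) (Q : ℕ × ℕ → Bool) :
    ((E.zipIdx.map F).filter Q).length =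
      (univ.filter fun p : Fin E.length => Q (F (E[p], (p : ℕ))) = true).card := by
  have h1 : E.zipIdx.map F = List.ofFn fun p : Fin E.length => F (E[p], (p : ℕ)) := by
    apply List.ext_getElem
    · simp
    · intro n h1 h2
      simp
  rw [h1, ← List.countP_eq_length_filter, countP_ofFn]

theorem filter_half (N : ℕ) {t : ℕ} (B : Wd t × Wd t → Finset (ℕ × ℕ)) (I : Inst)
    (Q : ℕ × ℕ → Bool) : ((half N B I).filter Q).length =
      ∑ i ∈ range (bb I), ∑ c, ∑ xy ∈ B c,
        (univ.filter fun p : Fin (darts I).length =>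
          Q (out N I i c xy ((darts I)[p], (p : ℕ))) = true).card := by
  unfold half
  simp only [List.filter_flatMap, List.length_flatMap]
  rw [← sum_range_list]
  congr 1
  refine List.map_congr_left fun i _ => ?_
  rw [Finset.sum_map_toList]
  refine sum_congr rfl fun c _ => ?_
  rw [Finset.sum_map_toList]
  refine sum_congr rfl fun xy _ => ?_
  exact filter_zipIdx (darts I) (fun ep => out N I i c xy ep) Q

theorem mem_half {N : ℕ} {t : ℕ} {B : Wd t × Wd t → Finset (ℕ × ℕ)} {I : Inst} {e : ℕ × ℕ} :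
    e ∈ half N B I ↔ ∃ i < bb I, ∃ c, ∃ xy ∈ B c, ∃ p : Fin (darts I).length,
      e = out N I i c xy ((darts I)[p], (p : ℕ)) := by
  unfold half
  simp only [List.mem_flatMap, List.mem_range, mem_toList, mem_univ, true_and, List.mem_map]
  constructor
  · rintro ⟨i, hi, c, xy, hxy, ⟨e', p⟩, hp, rfl⟩
    obtain ⟨h1, h2⟩ := List.mem_zipIdx' hp
    exact ⟨i, hi, c, xy, hxy, ⟨p, h1⟩, by rw [h2]; rfl⟩
  · rintro ⟨i, hi, c, xy, hxy, p, rfl⟩
    refine ⟨i, hi, c, xy, hxy, ((darts I)[p], (p : ℕ)), ?_, rfl⟩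
    rw [List.mem_iff_getElem]
    exact ⟨p, by simp, by simp⟩

end Pool.Agent.H697.SRed
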