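import Pool.Agent.H697.SSE.RedDefs

/-!
# The reduction to small-set expansion in graphs of large girth: structure of the new graph
-/

namespace Pool.Agent.H697.SRed

open Finset Pool.Agent.H697.Exp Pool.Agent.H697.SSE Pool.Agent.H697.Red Pool.Agent.H697.Forest

variable {k : ℕ × ℕ → ℕ} {t N D : ℕ} {B : Wd t × Wd t → Finset (ℕ × ℕ)} {I : Inst}

theorem vt_inj (h : IsReg I) (hk : KeyOk I k) {s : ℕ} {w : Wd t} {i i' x x' : ℕ}
    {p p' : Fin (darts I).length} (hi : i < dg I) (hi' : i' < dg I) (hx : x < N) (hx' : x' < N)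
    (heq : vt s k N I i w x ((darts I)[p], (p : ℕ)) =
      vt s k N I i' w x' ((darts I)[p'], (p' : ℕ))) : p = p' ∧ i = i' ∧ x = x' := by
  have hS := slots h hk
  obtain ⟨_, h1, h2, h3⟩ := cd_inj (hk.1 p) (hk.1 p') hx hx' heq
  have h4 := pos_inj (hS.lt p i hi) (hS.lt p' i' hi') (act_injective w h2)
  obtain ⟨h5, h6⟩ := hS.inj p p' i i' h1 hi hi' h4
  exact ⟨h5, h6, h3⟩

theorem vt_mod {s : ℕ} {w : Wd t} {i x : ℕ} {ep : (ℕ × ℕ) × ℕ} (hx : x < N) :
    vt s k N I i w x ep % N = x := cd_mod hx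

theorem vt_surj (h : IsReg I) (hk : KeyOk I k) {s : ℕ} (w : Wd t) {u x : ℕ} (hu : u < nV I)
    (z : ZMod (sd I) × ZMod (sd I)) : ∃ p : Fin (darts I).length, ∃ i < dg I,
      vt s k N I i w x ((darts I)[p], (p : ℕ)) = cd (nV I) N s u z x := by
  obtain ⟨z', hz'⟩ := (Finite.injective_iff_surjective.1
    (act_injective (n := sd I) w)) z
  obtain ⟨p, hp, i, hi, hpi⟩ := fill h hk hu z'
  refine ⟨p, i, hi, ?_⟩
  unfold vt
  dsimp only
  rw [hpi, hp, hz']

theorem card_vt (h : IsReg I) (hk : KeyOk I k) {s : ℕ} (w : Wd t) {u x : ℕ} (hu : u < nV I)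
    (hx : x < N) (z : ZMod (sd I) × ZMod (sd I)) :
    ((range (dg I) ×ˢ univ).filter fun q : ℕ × Fin (darts I).length =>
      decide (vt s k N I q.1 w x ((darts I)[q.2], (q.2 : ℕ)) = cd (nV I) N s u z x) = true).card =
      1 := by
  obtain ⟨p, i, hi, hpi⟩ := vt_surj (s := s) (x := x) (N := N) h hk w hu z
  rw [card_eq_one]
  refine ⟨(i, p), ?_⟩
  rw [eq_singleton_iff_unique_mem]
  constructor
  · rw [mem_filter, mem_product, mem_range, decide_eq_true_eq]
    exact ⟨⟨hi, mem_univ _⟩, hpi⟩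
  · intro q hq
    rw [mem_filter, mem_product, mem_range, decide_eq_true_eq] at hq
    obtain ⟨h1, h2, _⟩ := vt_inj h hk hq.1.1 hi hx hx (hq.2.trans hpi.symm)
    exact Prod.ext h2 h1

theorem sum_fib {b n : ℕ} (Q : ℕ → Fin n → Bool) :
    ∑ i ∈ range b, (univ.filter fun p : Fin n => Q i p = true).card =
      ((range b ×ˢ univ).filter fun x : ℕ × Fin n => Q x.1 x.2 = true).card := by
  rw [card_filter, sum_product]
  refine sum_congr rfl fun i _ => ?_
  rw [card_filter]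

theorem deg_eq (h : IsReg I) (hk : KeyOk I k) {s : ℕ} (wd : Wd t × Wd t → Wd t)
    (co : ℕ × ℕ → ℕ) (hco : ∀ c, ∀ xy ∈ B c, co xy < N)
    (hB : ∀ c, ∀ x < N, ((B c).filter fun q => co q = x).card = D) {u x : ℕ} (hu : u < nV I)
    (hx : x < N) (z : ZMod (sd I) × ZMod (sd I)) :
    ∑ i ∈ range (dg I), ∑ c, ∑ xy ∈ B c, (univ.filter fun p : Fin (darts I).length =>
      decide (vt s k N I i (wd c) (co xy) ((darts I)[p], (p : ℕ)) = cd (nV I) N s u z x) =
        true).card = Fintype.card (Wd t × Wd t) * D := by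
  rw [sum_comm]
  have h1 : ∀ c ∈ (univ : Finset (Wd t × Wd t)), ∑ i ∈ range (dg I), ∑ xy ∈ B c,
      (univ.filter fun p : Fin (darts I).length =>
      decide (vt s k N I i (wd c) (co xy) ((darts I)[p], (p : ℕ)) = cd (nV I) N s u z x) =
        true).card = D := by
    intro c _
    rw [← hB c x hx, sum_comm, card_filter]
    refine sum_congr rfl fun xy hxy => ?_
    rw [sum_fib]
    split_ifs with hxx
    · rw [hxx]
      exact card_vt h hk (wd c) hu hx z
    · rw [card_eq_zero, filter_eq_empty_iff]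
      rintro ⟨i, p⟩ _ hp
      rw [decide_eq_true_eq] at hp
      have h2 := congrArg (· % N) hp
      beta_reduce at h2
      rw [vt_mod (hco c xy hxy), cd_mod hx] at h2
      exact hxx h2
  rw [sum_congr rfl h1, sum_const, card_univ, smul_eq_mul]

theorem deg_zero (hk : KeyOk I k) {s s' : ℕ} (hss : s ≠ s') (wd : Wd t × Wd t → Wd t)
    (co : ℕ × ℕ → ℕ) (hco : ∀ c, ∀ xy ∈ B c, co xy < N) {u x : ℕ} (hu : u < nV I)
    (hx : x < N) (z : ZMod (sd I) × ZMod (sd I)) :
    ∑ i ∈ range (dg I), ∑ c, ∑ xy ∈ B c, (univ.filter fun p : Fin (darts I).length =>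
      decide (vt s k N I i (wd c) (co xy) ((darts I)[p], (p : ℕ)) = cd (nV I) N s' u z x) =
        true).card = 0 := by
  refine sum_eq_zero fun i _ => sum_eq_zero fun c _ => sum_eq_zero fun xy hxy => ?_
  rw [card_eq_zero, filter_eq_empty_iff]
  intro p _ hp
  rw [decide_eq_true_eq] at hp
  exact hss (cd_inj (hk.1 p) hu (hco c xy hxy) hx hp).1

theorem filter_Phi (Q : ℕ × ℕ → Bool) : ((darts (Phi D N B I)).filter Q).length =
    ((half N B I).filter Q).length + ((half N B I).filter fun e => Q e.swap).length := by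
  have h1 : darts (Phi D N B I) = half N B I ++ (half N B I).map Prod.swap := rfl
  rw [h1, List.filter_append, List.length_append, List.filter_map, List.length_map]
  rfl

theorem nodup_half {g : ℕ} {τ : ℝ} (hG : RGadget (Wd t × Wd t) g τ D N B) (h : IsReg I)
    (hn : 0 < nV I) : (half N B I).Nodup := by
  rw [List.nodup_iff_count_le_one]
  intro a
  have h1 : (half N B I).count a = ((half N B I).filter fun e => decide (e = a)).length := by
    rw [List.count, List.countP_eq_length_filter]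
    congr 2
    funext e
    simp only [beq_eq_decide]
  rw [h1, filter_half, bb_eq h hn]
  rw [sum_comm]
  have h2 : ∀ c ∈ (univ : Finset (Wd t × Wd t)), ∑ i ∈ range (dg I), ∑ xy ∈ B c,
      (univ.filter fun p : Fin (darts I).length =>
      decide (out N I i c xy ((darts I)[p], (p : ℕ)) = a) = true).card ≤
      if (a.1 % N, a.2 % N) ∈ B c then 1 else 0 := by
    intro c _
    rw [sum_comm]
    have h3 : ∀ xy ∈ B c, ∑ i ∈ range (dg I), (univ.filter fun p : Fin (darts I).length =>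
        decide (out N I i c xy ((darts I)[p], (p : ℕ)) = a) = true).card ≤
        if xy = (a.1 % N, a.2 % N) then 1 else 0 := by
      intro xy hxy
      rw [sum_fib]
      split_ifs with hxx
      · rw [card_le_one]
        rintro ⟨i, p⟩ hx ⟨i', p'⟩ hx'
        simp only [mem_filter, mem_product, mem_range, mem_univ, and_true,
          decide_eq_true_eq] at hx hx'
        have h4 := hx.2.trans hx'.2.symm
        have h5 := congrArg Prod.fst h4
        obtain ⟨h1, h2, _⟩ := vt_inj h (keyOk_fst h) hx.1 hx'.1 (hG.lt c xy hxy).1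
          (hG.lt c xy hxy).1 h5
        rw [h1, h2]
      · rw [Nat.le_zero, card_eq_zero, filter_eq_empty_iff]
        rintro ⟨i, p⟩ _ hp
        rw [decide_eq_true_eq] at hp
        apply hxx
        rw [← hp]
        unfold out
        dsimp only
        rw [vt_mod (hG.lt c xy hxy).1, vt_mod (hG.lt c xy hxy).2]
    refine (sum_le_sum h3).trans ?_
    rw [sum_ite_eq']
  refine (sum_le_sum h2).trans ?_
  rw [← card_filter, card_le_one]
  intro c hc c' hc'
  exact hG.disj c c' _ (mem_filter.1 hc).2 (mem_filter.1 hc').2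

theorem half_spec {g : ℕ} {τ : ℝ} (hG : RGadget (Wd t × Wd t) g τ D N B) (h : IsReg I)
    {e : ℕ × ℕ} (he : e ∈ half N B I) :
    (∃ u < nV I, ∃ z : ZMod (sd I) × ZMod (sd I), ∃ x < N, e.1 = cd (nV I) N 0 u z x) ∧
    (∃ u < nV I, ∃ z : ZMod (sd I) × ZMod (sd I), ∃ x < N, e.2 = cd (nV I) N 1 u z x) := by
  obtain ⟨i, _, c, xy, hxy, p, rfl⟩ := mem_half.1 he
  exact ⟨⟨_, (keyOk_fst h).1 p, _, _, (hG.lt c xy hxy).1, rfl⟩,
    ⟨_, (keyOk_snd h).1 p, _, _, (hG.lt c xy hxy).2, rfl⟩⟩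

theorem isReg_Phi {g : ℕ} {τ : ℝ} (hG : RGadget (Wd t × Wd t) g τ D N B) (h : IsReg I)
    (hn : 0 < nV I) : IsReg (Phi D N B I) := by
  have hd : dg (Phi D N B I) = Fintype.card (Wd t × Wd t) * D := rfl
  have hnV : nV (Phi D N B I) = 2 * nV I * sd I * sd I * N := rfl
  have hE : darts (Phi D N B I) = half N B I ++ (half N B I).map Prod.swap := rfl
  have hne : ∀ e ∈ half N B I, ∀ e' ∈ half N B I, e.1 ≠ e'.2 := by
    intro e he e' he' heq
    obtain ⟨⟨u, hu, z, x, hx, h1⟩, -⟩ := half_spec hG h he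
    obtain ⟨-, ⟨u', hu', z', x', hx', h2⟩⟩ := half_spec hG h he'
    rw [h1, h2] at heq
    have := (cd_inj hu hu' hx hx' heq).1
    omega
  refine ⟨?_, ?_, ?_, ?_⟩
  · rw [hd]
    exact Nat.mul_pos Fintype.card_pos hG.posD
  · rw [hE, List.nodup_append]
    refine ⟨nodup_half hG h hn, (nodup_half hG h hn).map Prod.swap_injective, ?_⟩
    intro a ha b hb heq
    obtain ⟨b', hb', rfl⟩ := List.mem_map.1 hb
    exact hne a ha b' hb' (by rw [heq]; rfl)
  · have key : ∀ e ∈ half N B I, e.1 < nV (Phi D N B I) ∧ e.2 < nV (Phi D N B I) ∧ e.1 ≠ e.2 := by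
      intro e he
      refine ⟨?_, ?_, hne e he e he⟩
      · obtain ⟨⟨u, hu, z, x, hx, h1⟩, -⟩ := half_spec hG h he
        rw [h1]
        exact cd_lt (by norm_num) hu hx
      · obtain ⟨-, ⟨u, hu, z, x, hx, h1⟩⟩ := half_spec hG h he
        rw [h1]
        exact cd_lt (by norm_num) hu hx
    intro e he
    rw [hE, List.mem_append] at he
    rcases he with he | he
    · obtain ⟨h1, h2, h3⟩ := key e he
      refine ⟨h1, h2, h3, ?_⟩
      rw [hE, List.mem_append]
      exact Or.inr (List.mem_map.2 ⟨e, he, rfl⟩)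
    · obtain ⟨e', he', rfl⟩ := List.mem_map.1 he
      obtain ⟨h1, h2, h3⟩ := key e' he'
      refine ⟨h2, h1, h3.symm, ?_⟩
      rw [hE, List.mem_append]
      exact Or.inl he'
  · intro v hv
    rw [hnV] at hv
    obtain ⟨s, hs, u, hu, z, x, hx, rfl⟩ := cd_surj hv
    rw [filter_Phi, filter_half, filter_half, bb_eq h hn, hd]
    have a1 := fun s => deg_eq (B := B) (D := D) (N := N) h (keyOk_fst h) (s := s) (fun c => c.1)
      (fun xy => xy.1) (fun c xy hxy => (hG.lt c xy hxy).1) hG.left hu hx z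
    have a2 := fun s => deg_eq (B := B) (D := D) (N := N) h (keyOk_snd h) (s := s) (fun c => c.2)
      (fun xy => xy.2) (fun c xy hxy => (hG.lt c xy hxy).2) hG.right hu hx z
    have b1 := fun s s' (hss : s ≠ s') => deg_zero (B := B) (N := N) (keyOk_fst h) hss
      (fun c => c.1) (fun xy => xy.1) (fun c xy hxy => (hG.lt c xy hxy).1) hu hx z
    have b2 := fun s s' (hss : s ≠ s') => deg_zero (B := B) (N := N) (keyOk_snd h) hss
      (fun c => c.2) (fun xy => xy.2) (fun c xy hxy => (hG.lt c xy hxy).2) hu hx z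
    have hs2 : s = 0 ∨ s = 1 := by omega
    rcases hs2 with rfl | rfl
    · have c1 := a1 0
      have c2 := b2 1 0 (by norm_num)
      unfold out
      dsimp only [Prod.swap]
      rw [c1, c2]
      rfl
    · have c1 := b1 0 1 (by norm_num)
      have c2 := a2 1
      unfold out
      dsimp only [Prod.swap]
      rw [c1, c2, Nat.zero_add]

/-- The projection to the gadget. -/
def proj (N : ℕ) (I : Inst) (v : ℕ) : ℕ ⊕ ℕ :=
  if v < nV I * sd I * sd I * N then Sum.inl (v % N) else Sum.inr (v % N)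

theorem proj_cd {s u x : ℕ} {z : ZMod (sd I) × ZMod (sd I)} (hu : u < nV I) (hx : x < N) :
    proj N I (cd (nV I) N s u z x) = if s = 0 then Sum.inl x else Sum.inr x := by
  unfold proj
  rw [cd_mod hx]
  by_cases hs : s = 0
  · rw [if_pos hs, if_pos ((cd_side hu hx).2 hs)]
  · rw [if_neg hs, if_neg fun hc => hs ((cd_side hu hx).1 hc)]

theorem adj_Phi {a b : Fin (nV (Phi D N B I))} (hab : (gr (Phi D N B I)).Adj a b) :
    ((a : ℕ), (b : ℕ)) ∈ half N B I ∨ ((b : ℕ), (a : ℕ)) ∈ half N B I := by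
  have h1 : ((a : ℕ), (b : ℕ)) ∈ half N B I ++ (half N B I).map Prod.swap := hab.2.1
  rw [List.mem_append] at h1
  rcases h1 with h1 | h1
  · exact Or.inl h1
  · obtain ⟨e, he, heq⟩ := List.mem_map.1 h1
    right
    have h2 : e = ((b : ℕ), (a : ℕ)) := by
      rw [← Prod.swap_swap e, heq]
      rfl
    rw [← h2]
    exact he

theorem proj_half {g : ℕ} {τ : ℝ} (hG : RGadget (Wd t × Wd t) g τ D N B) (h : IsReg I)
    {a b : ℕ} (hab : (a, b) ∈ half N B I) : ∃ i < bb I, ∃ c, ∃ xy ∈ B c,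
      ∃ p : Fin (darts I).length, a = vt 0 Prod.fst N I i c.1 xy.1 ((darts I)[p], (p : ℕ)) ∧
      b = vt 1 Prod.snd N I i c.2 xy.2 ((darts I)[p], (p : ℕ)) ∧ proj N I a = Sum.inl xy.1 ∧
      proj N I b = Sum.inr xy.2 := by
  obtain ⟨i, hi, c, xy, hxy, p, heq⟩ := mem_half.1 hab
  obtain ⟨rfl, rfl⟩ := Prod.mk.inj heq
  refine ⟨i, hi, c, xy, hxy, p, rfl, rfl, ?_, ?_⟩
  · unfold vt
    rw [proj_cd ((keyOk_fst h).1 p) (hG.lt c xy hxy).1, if_pos rfl]
  · unfold vt
    rw [proj_cd ((keyOk_snd h).1 p) (hG.lt c xy hxy).2, if_neg (by norm_num)]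

/-- The projection to the gadget is a homomorphism. -/
def projHom {g : ℕ} {τ : ℝ} (hG : RGadget (Wd t × Wd t) g τ D N B) (h : IsReg I) :
    gr (Phi D N B I) →g bip ((univ.biUnion B : Finset (ℕ × ℕ)) : Set (ℕ × ℕ)) where
  toFun v := proj N I v
  map_rel' := by
    have key : ∀ a b : ℕ, (a, b) ∈ half N B I →
        (bip ((univ.biUnion B : Finset (ℕ × ℕ)) : Set (ℕ × ℕ))).Adj (proj N I a) (proj N I b) := by
      intro a b hab
      obtain ⟨i, _, c, xy, hxy, p, _, _, h1, h2⟩ := proj_half hG h hab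
      rw [h1, h2]
      exact mem_coe.2 (mem_biUnion.2 ⟨c, mem_univ _, hxy⟩)
    intro a b hab
    rcases adj_Phi hab with h1 | h1
    · exact key _ _ h1
    · exact (key _ _ h1).symm

theorem bb_le : bb I ≤ dg I := min_le_left _ _

theorem girth_Phi {g : ℕ} {τ : ℝ} (hG : RGadget (Wd t × Wd t) g τ D N B) (h : IsReg I) :
    GirthGT (gr (Phi D N B I)) g := by
  refine girthGT_of_hom (projHom hG h) ?_ hG.girth
  have hinl : ∀ a a', (Sum.inl a : ℕ ⊕ ℕ) = Sum.inl a' → a = a' := fun a a' h => Sum.inl.inj h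
  have hinr : ∀ a a', (Sum.inr a : ℕ ⊕ ℕ) = Sum.inr a' → a = a' := fun a a' h => Sum.inr.inj h
  intro x y z hxy hxz hyz
  have hyz' : proj N I y = proj N I z := hyz
  apply Fin.ext
  rcases adj_Phi hxy with h1 | h1 <;> rcases adj_Phi hxz with h2 | h2
  · obtain ⟨i, hi, c, xy, hxy', p, a1, a2, a3, a4⟩ := proj_half hG h h1
    obtain ⟨i', hi', c', xy', hxy'', p', b1, b2, b3, b4⟩ := proj_half hG h h2
    have h3 : xy.1 = xy'.1 := hinl _ _ (a3.symm.trans b3)
    have h4 : xy.2 = xy'.2 := hinr _ _ (a4.symm.trans (hyz'.trans b4))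
    have h5 : xy = xy' := Prod.ext h3 h4
    subst h5
    obtain rfl := hG.disj c c' xy hxy' hxy''
    obtain ⟨rfl, rfl, _⟩ := vt_inj h (keyOk_fst h) (lt_of_lt_of_le hi bb_le)
      (lt_of_lt_of_le hi' bb_le) (hG.lt c xy hxy').1 (hG.lt c xy hxy').1 (a1.symm.trans b1)
    rw [a2, b2]
  · obtain ⟨i, hi, c, xy, hxy', p, a1, a2, a3, a4⟩ := proj_half hG h h1
    obtain ⟨i', hi', c', xy', hxy'', p', b1, b2, b3, b4⟩ := proj_half hG h h2
    rw [a3] at b4
    exact absurd b4 (by simp)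
  · obtain ⟨i, hi, c, xy, hxy', p, a1, a2, a3, a4⟩ := proj_half hG h h1
    obtain ⟨i', hi', c', xy', hxy'', p', b1, b2, b3, b4⟩ := proj_half hG h h2
    rw [a4] at b3
    exact absurd b3 (by simp)
  · obtain ⟨i, hi, c, xy, hxy', p, a1, a2, a3, a4⟩ := proj_half hG h h1
    obtain ⟨i', hi', c', xy', hxy'', p', b1, b2, b3, b4⟩ := proj_half hG h h2
    have h3 : xy.2 = xy'.2 := hinr _ _ (a4.symm.trans b4)
    have h4 : xy.1 = xy'.1 := hinl _ _ (a3.symm.trans (hyz'.trans b3))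
    have h5 : xy = xy' := Prod.ext h4 h3
    subst h5
    obtain rfl := hG.disj c c' xy hxy' hxy''
    obtain ⟨rfl, rfl, _⟩ := vt_inj h (keyOk_snd h) (lt_of_lt_of_le hi bb_le)
      (lt_of_lt_of_le hi' bb_le) (hG.lt c xy hxy').2 (hG.lt c xy hxy').2 (a2.symm.trans b2)
    rw [a1, b1]

theorem bipartite_Phi {g : ℕ} {τ : ℝ} (hG : RGadget (Wd t × Wd t) g τ D N B) (h : IsReg I) :
    (gr (Phi D N B I)).IsBipartite := by
  refine ⟨SimpleGraph.Coloring.mk (fun v => if (proj N I v).isLeft then 0 else 1) ?_⟩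
  intro a b hab
  rcases adj_Phi hab with h1 | h1
  · obtain ⟨i, _, c, xy, _, p, _, _, h3, h4⟩ := proj_half hG h h1
    rw [h3, h4]
    simp
  · obtain ⟨i, _, c, xy, _, p, _, _, h3, h4⟩ := proj_half hG h h1
    rw [h3, h4]
    simp

end Pool.Agent.H697.SRed
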