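import Pool.Agent.H697.SSE.RedDefs
import Pool.Agent.H697.SSE.AlgOk
import Pool.Agent.H697.Red.Time

/-!
# The reduction to small-set expansion in graphs of large girth runs in polynomial time
-/

namespace Pool.Agent.H697.SRed

open Pool.Agent.NPC Pool.Agent.H697.Exp Pool.Agent.H697.SSE Pool.Agent.H697.Red

section
variable {α : Type} [TEnc α]

theorem rk_take (k : ℕ × ℕ → ℕ) (u : ℕ) : ∀ (E : List (ℕ × ℕ)) (p n : ℕ),
    rk k (E.take p) u = ((E.zipIdx n).filter fun ep =>
      decide (ep.2 < n + p) && decide (k ep.1 = u)).length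
  | [], p, n => by simp [rk]
  | e :: E, 0, n => by
    have : ((e :: E).zipIdx n).filter (fun ep => decide (ep.2 < n + 0) && decide (k ep.1 = u)) =
        [] := by
      rw [List.filter_eq_nil_iff]
      rintro ⟨e', j⟩ hj
      have h1 := List.le_snd_of_mem_zipIdx hj
      simp only [add_zero, Bool.and_eq_true, decide_eq_true_eq, not_and]
      intro h2
      dsimp only at h1
      omega
    rw [this]
    rfl
  | e :: E, p + 1, n => by
    have ih := rk_take k u E p (n + 1)
    unfold rk at ih ⊢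
    rw [List.take_succ_cons, List.zipIdx_cons, List.filter_cons, List.filter_cons]
    have h1 : n + 1 + p = n + (p + 1) := by ring
    rw [h1] at ih
    by_cases he : k e = u
    · simp only [he, decide_true, if_true, Bool.and_true, List.length_cons, ih]
      rw [if_pos]
      · simp
      · simp
    · simp only [he, decide_false, Bool.and_false, Bool.false_eq_true, if_false, ih]

theorem poly_rk_take {k : ℕ × ℕ → ℕ} (hk : Poly k) {E : α → List (ℕ × ℕ)} {u p : α → ℕ}
    (hE : Poly E) (hu : Poly u) (hp : Poly p) : Poly (fun a => rk k ((E a).take (p a)) (u a)) := by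
  have h1 : Poly (fun a => ((E a).zipIdx.filter fun ep =>
      decide (ep.2 < p a) && decide (k ep.1 = u a)).length) := by
    refine Poly.length (Poly.filter (p := fun a (ep : (ℕ × ℕ) × ℕ) =>
      decide (ep.2 < p a) && decide (k ep.1 = u a)) (Poly.zipIdx hE) ?_)
    exact Poly.and (Poly.decide_lt (Poly.snd (Poly.snd Poly.id)) (hp.comp (Poly.fst Poly.id)))
      (Poly.decide_eq (hk.comp (Poly.fst (Poly.snd Poly.id))) (hu.comp (Poly.fst Poly.id)))
  refine h1.congr fun a => ?_
  rw [rk_take k (u a) (E a) (p a) 0, Nat.zero_add]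

theorem poly_sd : Poly sd := Poly.succ (Poly.sub poly_dg (NPC.Poly.const 1))

theorem upoly_bb : UPoly bb :=
  UPoly.of_le (Poly.min poly_dg (Poly.length poly_darts)) (UPoly.length poly_darts)
    fun _ => min_le_right _ _

end

theorem poly_vt (s : ℕ) {k : ℕ × ℕ → ℕ} (hk : Poly k) (N : ℕ) {t : ℕ} (w : Wd t) (x : ℕ) :
    Poly (fun p : (Inst × ℕ) × ((ℕ × ℕ) × ℕ) => vt s k N p.1.1 p.1.2 w x p.2) := by
  have i0 : Poly (fun p : (Inst × ℕ) × ((ℕ × ℕ) × ℕ) => p) := Poly.id
  have hI := Poly.fst (Poly.fst i0)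
  have hi := Poly.snd (Poly.fst i0)
  have hu := hk.comp (Poly.fst (Poly.snd i0))
  have hp := Poly.snd (Poly.snd i0)
  have hm : Poly (fun p : (Inst × ℕ) × ((ℕ × ℕ) × ℕ) => sd p.1.1) := poly_sd.comp hI
  have hs : Poly (fun p : (Inst × ℕ) × ((ℕ × ℕ) × ℕ) => slt k p.1.1 p.1.2 p.2.2 (k p.2.1)) := by
    unfold slt
    exact Poly.add (Poly.mul (poly_rk_take hk (poly_darts.comp hI) hu hp) hm) hi
  obtain ⟨h1, h2⟩ := polyZ_act hm w (polyZ_pos hm hs)
  unfold vt cd
  exact Poly.add (Poly.mul (Poly.add (Poly.mul (Poly.add (Poly.mul (Poly.add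
    (Poly.mul (NPC.Poly.const s) (poly_nV.comp hI)) hu) hm) h1) hm) h2) (NPC.Poly.const N))
    (NPC.Poly.const x)

theorem poly_half (N : ℕ) {t : ℕ} (B : Wd t × Wd t → Finset (ℕ × ℕ)) : Poly (half N B) := by
  unfold half
  refine Poly.flatMap (F := fun (I : Inst) (i : ℕ) =>
    (Finset.univ : Finset (Wd t × Wd t)).toList.flatMap fun c =>
    (B c).toList.flatMap fun xy => (darts I).zipIdx.map fun ep => out N I i c xy ep)
    upoly_bb.range ?_
  refine poly_flatMap_const _ _ fun c _ => poly_flatMap_const _ _ fun xy _ => ?_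
  refine NPC.Poly.map (F := fun (p : Inst × ℕ) (ep : (ℕ × ℕ) × ℕ) => out N p.1 p.2 c xy ep)
    (Poly.zipIdx (poly_darts.comp (Poly.fst Poly.id))) ?_
  unfold out
  exact Poly.pair (poly_vt 0 (Poly.fst Poly.id) N c.1 xy.1) (poly_vt 1 (Poly.snd Poly.id) N c.2 xy.2)

theorem poly_Phi (D N : ℕ) {t : ℕ} (B : Wd t × Wd t → Finset (ℕ × ℕ)) : Poly (Phi D N B) := by
  unfold Phi
  have hh := poly_half N B
  refine Poly.pair (Poly.mul (Poly.mul (Poly.mul (Poly.mul (NPC.Poly.const 2) poly_nV) poly_sd)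
    poly_sd) (NPC.Poly.const N)) (Poly.pair (NPC.Poly.const _) (Poly.append hh ?_))
  exact NPC.Poly.map (F := fun (_ : Inst) (e : ℕ × ℕ) => e.swap) hh
    (Poly.pair (Poly.snd (Poly.snd Poly.id)) (Poly.fst (Poly.snd Poly.id)))

end Pool.Agent.H697.SRed
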