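import Pool.Agent.H697.SSE.Defs

/-!
# Regular graphs without an induced forest have dense spots inside of dense sets
-/

namespace Pool.Agent.H697.SSE

open Finset Pool.Agent.H697.Forest

section
variable {V : Type*} [Fintype V] [DecidableEq V]

theorem frob_two_le (G : SimpleGraph V) [DecidableRel G.Adj] {d κ : ℝ} (hd : 0 < d)
    (hκ : 0 ≤ κ) (hdeg : ∀ x, (G.degree x : ℝ) ≤ d)
    (h : ∀ x z, G.Adj x z → ((univ.filter fun p : V × V =>
      G.Adj x p.1 ∧ G.Adj z p.2 ∧ G.Adj p.1 p.2).card : ℝ) ≤ κ * d ^ 2) :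
    frob G d 2 ≤ κ * (Fintype.card V / d) := by
  set a : V → V → ℝ := fun x y => if G.Adj x y then 1 else 0 with ha
  have ha0 : ∀ x y, 0 ≤ a x y := fun x y => by simp only [ha]; split_ifs <;> norm_num
  have hP2 : ∀ x y, (P G d ^ 2) x y = (∑ z, a x z * a z y) / d ^ 2 := by
    intro x y
    rw [sq, Matrix.mul_apply, sum_div]
    refine sum_congr rfl fun z _ => ?_
    simp only [P, ha]
    split_ifs <;> field_simp
    all_goals simp
  have h1 : frob G d 2 = (∑ x, ∑ z, a x z * ∑ w, ∑ y, a x w * (a z y * a w y)) / d ^ 4 := by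
    unfold frob colSq
    simp only [hP2, div_pow]
    rw [sum_comm]
    rw [sum_div]
    refine sum_congr rfl fun x _ => ?_
    rw [← sum_div]
    rw [← pow_mul]
    congr 1
    have h2 : ∀ y, (∑ z, a x z * a z y) ^ 2 = ∑ z, ∑ w, a x z * (a x w * (a z y * a w y)) := by
      intro y
      rw [sq, sum_mul_sum]
      exact sum_congr rfl fun z _ => sum_congr rfl fun w _ => by ring
    simp only [h2]
    rw [sum_comm]
    refine sum_congr rfl fun z _ => ?_
    rw [sum_comm, mul_sum]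
    refine sum_congr rfl fun w _ => ?_
    rw [mul_sum]
  have h2 : ∀ x z, a x z * ∑ w, ∑ y, a x w * (a z y * a w y) ≤ a x z * (κ * d ^ 2) := by
    intro x z
    by_cases hxz : G.Adj x z
    · refine mul_le_mul_of_nonneg_left ?_ (ha0 x z)
      refine le_trans (le_of_eq ?_) (h x z hxz)
      rw [card_filter]
      push_cast
      rw [Fintype.sum_prod_type]
      refine sum_congr rfl fun w _ => sum_congr rfl fun y _ => ?_
      simp only [ha]
      by_cases h3 : G.Adj x w <;> by_cases h4 : G.Adj z y <;> by_cases h5 : G.Adj w y <;>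
        simp [h3, h4, h5]
    · simp [ha, hxz]
  have h3 : ∑ x, ∑ z, a x z * ∑ w, ∑ y, a x w * (a z y * a w y) ≤
      Fintype.card V * d * (κ * d ^ 2) := by
    calc ∑ x, ∑ z, a x z * ∑ w, ∑ y, a x w * (a z y * a w y)
        ≤ ∑ x, ∑ z, a x z * (κ * d ^ 2) := sum_le_sum fun x _ => sum_le_sum fun z _ => h2 x z
      _ = ∑ x, (G.degree x : ℝ) * (κ * d ^ 2) := by
          refine sum_congr rfl fun x _ => ?_
          rw [← sum_mul]
          congr 1
          rw [← SimpleGraph.card_neighborFinset_eq_degree, card_eq_sum_ones]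
          push_cast
          rw [← sum_filter]
          refine sum_congr ?_ fun _ _ => rfl
          ext z
          simp
      _ ≤ ∑ _x : V, d * (κ * d ^ 2) :=
          sum_le_sum fun x _ => mul_le_mul_of_nonneg_right (hdeg x) (by positivity)
      _ = _ := by
          rw [sum_const, card_univ, nsmul_eq_mul]
          ring
  rw [h1, div_le_iff₀ (by positivity)]
  refine h3.trans (le_of_eq ?_)
  field_simp

end

/-- The constant. -/
def cst (h : ℕ) : ℕ := 36 * (h + 1) ^ 4 * 16 ^ h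

theorem cst_pos (h : ℕ) : 0 < cst h := by unfold cst; positivity

theorem small_ok (h : ℕ) : ((h : ℝ) + 1) ^ 2 * (√(1 / cst h) + 1 / cst h / (1 / 4)) <
    (1 / 4) ^ h := by
  set C : ℝ := 6 * ((h : ℝ) + 1) ^ 2 * 4 ^ h with hC
  have hC0 : 0 < C := by positivity
  have h1 : (cst h : ℝ) = C ^ 2 := by
    unfold cst
    push_cast
    have h16 : (16 : ℝ) ^ h = (4 ^ h) ^ 2 := by
      rw [← pow_mul, mul_comm, pow_mul]
      norm_num
    rw [hC, h16]
    ring
  have h4 : (1 : ℝ) ≤ 4 ^ h := one_le_pow₀ (by norm_num)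
  have h5 : (1 : ℝ) ≤ ((h : ℝ) + 1) ^ 2 := one_le_pow₀ (by linarith [Nat.cast_nonneg (α := ℝ) h])
  have hC6 : 6 ≤ C := by
    rw [hC]
    nlinarith
  have h2 : √(1 / (cst h : ℝ)) = 1 / C := by
    rw [h1, Real.sqrt_div (by norm_num), Real.sqrt_one, Real.sqrt_sq hC0.le]
  rw [h2, h1]
  have h3 : 1 / C + 1 / C ^ 2 / (1 / 4) < 6 / C := by
    have h6 : 1 / C ^ 2 / (1 / 4) = 4 / C / C := by field_simp
    rw [h6]
    have h7 : 4 / C / C < 5 / C := by
      apply div_lt_div_of_pos_right _ hC0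
      rw [div_lt_iff₀ hC0]
      linarith
    have h8 : 1 / C + 5 / C = 6 / C := by ring
    linarith
  calc ((h : ℝ) + 1) ^ 2 * (1 / C + 1 / C ^ 2 / (1 / 4)) < ((h : ℝ) + 1) ^ 2 * (6 / C) :=
        mul_lt_mul_of_pos_left h3 (by positivity)
    _ = (1 / 4) ^ h := by
        rw [hC, one_div, inv_pow]
        field_simp

/-- The graph of a set of ordered pairs. -/
def grA (A : Finset (ℕ × ℕ)) : SimpleGraph ℕ where
  Adj u v := u ≠ v ∧ (u, v) ∈ A ∧ (v, u) ∈ A
  symm := ⟨fun _ _ h => ⟨h.1.symm, h.2.2, h.2.1⟩⟩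
  loopless := ⟨fun _ h => h.1 rfl⟩

instance (A : Finset (ℕ × ℕ)) : DecidableRel (grA A).Adj := fun u v =>
  inferInstanceAs (Decidable (u ≠ v ∧ (u, v) ∈ A ∧ (v, u) ∈ A))

theorem RG.grA_adj {n d : ℕ} {A : Finset (ℕ × ℕ)} (h : RG n d A) {u v : ℕ} :
    (grA A).Adj u v ↔ (u, v) ∈ A :=
  ⟨fun h1 => h1.2.1, fun h1 => ⟨h.irr _ h1, h1, h.symm _ h1⟩⟩

/-- The number of edges between the neighbourhoods of two vertices, inside of `R`. -/
def score (A : Finset (ℕ × ℕ)) (R : Finset ℕ) (x z : ℕ) : ℕ :=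
  (A.filter fun e => e.1 ∈ R ∧ e.2 ∈ R ∧ (x, e.1) ∈ A ∧ (z, e.2) ∈ A).card

/-- **Dense spots**: a dense set in a regular graph without an induced forest contains an edge such
that many edges join the neighbourhoods of its ends. -/
theorem RG.exists_spot {n d : ℕ} {A : Finset (ℕ × ℕ)} (h : RG n d A) (hd : 0 < d) {α : Type}
    [Fintype α] (H : SimpleGraph α) (hH : H.IsAcyclic) {S : Finset ℕ} (hne : S.Nonempty)
    (hS : d * S.card ≤ 2 * inner A S)
    (hfree : ∀ f : α → ℕ, (∀ a, f a ∈ S) → Function.Injective f →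
      (∀ a b, (f a, f b) ∈ A ↔ H.Adj a b) → False) :
    ∃ e ∈ A, e.1 ∈ S ∧ e.2 ∈ S ∧ d ^ 2 ≤ cst (Fintype.card α) * score A S e.1 e.2 := by
  classical
  obtain ⟨T, hTS, hTne, hT⟩ := h.exists_core hd _ rfl hne hS
  have hsc : ∀ x z, score A T x z ≤ score A S x z := by
    intro x z
    unfold score
    apply card_le_card
    intro e he
    rw [mem_filter] at he ⊢
    exact ⟨he.1, hTS he.2.1, hTS he.2.2.1, he.2.2.2⟩
  by_contra hcon
  push Not at hcon
  set G : SimpleGraph T := (grA A).comap Subtype.val with hG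
  have hadj : ∀ x y : T, G.Adj x y ↔ ((x : ℕ), (y : ℕ)) ∈ A := by
    intro x y
    rw [hG, SimpleGraph.comap_adj, h.grA_adj]
  have hdegeq : ∀ x : T, G.degree x = dgS A T x := by
    intro x
    rw [← SimpleGraph.card_neighborFinset_eq_degree]
    unfold dgS
    refine card_bij (fun y _ => ((x : ℕ), (y : ℕ))) ?_ ?_ ?_
    · intro y hy
      rw [SimpleGraph.mem_neighborFinset, hadj] at hy
      exact mem_filter.2 ⟨hy, rfl, y.2⟩
    · intro y _ y' _ heq
      exact Subtype.ext (Prod.mk.inj heq).2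
    · intro e he
      obtain ⟨h1, h2, h3⟩ := mem_filter.1 he
      refine ⟨⟨e.2, h3⟩, ?_, Prod.ext h2.symm rfl⟩
      rw [SimpleGraph.mem_neighborFinset, hadj]
      rw [← h2]
      exact h1
  have hd' : (0 : ℝ) < d := by exact_mod_cast hd
  have hdegle : ∀ x : T, (G.degree x : ℝ) ≤ d := by
    intro x
    rw [hdegeq]
    exact_mod_cast h.dgS_le T x
  have hledeg : ∀ x : T, (d : ℝ) / 4 ≤ G.degree x := by
    intro x
    rw [hdegeq]
    have h1 := hT x x.2
    have h2 : (d : ℝ) ≤ 4 * dgS A T x := by exact_mod_cast h1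
    linarith
  have hWG : WG G (fun _ => (d : ℝ)) d (1 / 4) := by
    refine ⟨hd', by norm_num, fun _ => hd', fun _ _ _ => (sq _).symm, fun x => ?_, fun x => ?_⟩
    · rw [sq]
      exact mul_le_mul_of_nonneg_right (hdegle x) hd'.le
    · calc 1 / 4 * (d : ℝ) ^ 2 = d / 4 * d := by ring
        _ ≤ _ := mul_le_mul_of_nonneg_right (hledeg x) hd'.le
  have hc0 : (0 : ℝ) < cst (Fintype.card α) := by exact_mod_cast cst_pos _
  have hcount : ∀ x z : T, G.Adj x z → ((univ.filter fun p : T × T =>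
      G.Adj x p.1 ∧ G.Adj z p.2 ∧ G.Adj p.1 p.2).card : ℝ) ≤ 1 / cst (Fintype.card α) * d ^ 2 := by
    intro x z hxz
    have h1 : (univ.filter fun p : T × T => G.Adj x p.1 ∧ G.Adj z p.2 ∧ G.Adj p.1 p.2).card ≤
        score A T x z := by
      unfold score
      refine card_le_card_of_injOn (fun p => ((p.1 : ℕ), (p.2 : ℕ))) ?_ ?_
      · intro p hp
        obtain ⟨_, h2, h3, h4⟩ := mem_filter.1 hp
        rw [hadj] at h2 h3 h4
        exact mem_filter.2 ⟨h4, p.1.2, p.2.2, h2, h3⟩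
      · intro p _ p' _ heq
        have := Prod.mk.inj heq
        exact Prod.ext (Subtype.ext this.1) (Subtype.ext this.2)
    have h2 := hcon (x, z) ((hadj x z).1 hxz) (hTS x.2) (hTS z.2)
    dsimp only at h2
    have h3 : cst (Fintype.card α) * (univ.filter fun p : T × T =>
        G.Adj x p.1 ∧ G.Adj z p.2 ∧ G.Adj p.1 p.2).card ≤ d ^ 2 :=
      (Nat.mul_le_mul_left _ (h1.trans (hsc x z))).trans h2.le
    have h4 : (cst (Fintype.card α) : ℝ) * (univ.filter fun p : T × T =>
        G.Adj x p.1 ∧ G.Adj z p.2 ∧ G.Adj p.1 p.2).card ≤ (d : ℝ) ^ 2 := by exact_mod_cast h3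
    rw [one_div, inv_mul_eq_div, le_div_iff₀ hc0, mul_comm]
    exact h4
  have hfr := frob_two_le G hd' (by positivity) hdegle hcount
  have : Nonempty T := ⟨⟨hTne.choose, hTne.choose_spec⟩⟩
  obtain ⟨f⟩ := exists_forest H hH hWG (κ := 1 / cst (Fintype.card α)) (by positivity)
    (hfr.trans (le_of_eq (by rw [sum_const, card_univ, nsmul_eq_mul]; ring)))
    (small_ok _)
  refine hfree (fun a => (f a : ℕ)) (fun a => hTS (f a).2) ?_ ?_
  · intro a b hab
    exact f.injective (Subtype.ext hab)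
  · intro a b
    rw [← hadj]
    exact f.map_adj_iff

end Pool.Agent.H697.SSE
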